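import Pool.Agent.H90.SK.Fil

/-! # Constellations of primes in a sequence of windows: exceptional rotations -/

set_option autoImplicit false

namespace Pool.Agent.H90.SK

open Finset Filter Topology Pool.Agent.Helper112 Pool.Agent.H90.ST MeasureTheory
open scoped ENNReal NNReal

open Pool.Agent.Results.MP_485179_nt.AlmostPrimeProgressions (𝔖)

theorem yy_small (k : ℕ) (hk : 1 ≤ k) (s : ℕ) (hs : 1 ≤ s) {ε : ℝ} (hε : 0 < ε) : ∃ i₀ : ℕ, ∀ i N : ℕ, i₀ ≤ i →
    2 ^ i ≤ N → ∀ Om : ℕ → Finset ℕ, Adm k Om → ((yy s i : ℕ) : ℝ) ≤ ε * (N * VV Om (yy s i)) := by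
  obtain ⟨c, hc0, hV⟩ := VV_ge k hk
  obtain ⟨i₁, hi₁⟩ := eventually_atTop.1 (poly_exp (4 * k) (1 / (ε * c) ^ 2))
  refine ⟨max i₁ 1, fun i N hi hN Om hOm => ?_⟩
  have h5 := hV Om hOm i (yy s i) ((le_max_right _ _).trans hi) (by
    unfold yy
    exact Nat.pow_le_pow_right (by norm_num) (Nat.div_le_self _ _))
  have h6 := hi₁ i ((le_max_left _ _).trans hi)
  set V : ℝ := VV Om (yy s i) with hVdef
  set P : ℝ := ((i : ℝ) + 1) ^ (2 * k) with hP
  have hP0 : 0 < P := by positivity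
  have h7 : 1 / (ε * c) ^ 2 * P ^ 2 ≤ 2 ^ i := by
    rw [hP, ← pow_mul]
    have : 2 * k * 2 = 4 * k := by ring
    rw [this]
    exact h6
  have h8 : ((yy s i : ℕ) : ℝ) ^ 2 ≤ 2 ^ i := by
    have : (yy s i) ^ 2 ≤ 2 ^ i := by
      unfold yy
      rw [← pow_mul]
      apply Nat.pow_le_pow_right (by norm_num)
      have h9 : i / (8 * s) ≤ i / 8 := Nat.div_le_div_left (by omega) (by norm_num)
      omega
    exact_mod_cast this
  have h9 : ((yy s i : ℕ) : ℝ) * P / (ε * c) ≤ 2 ^ i := by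
    have h10 : (((yy s i : ℕ) : ℝ) * P / (ε * c)) ^ 2 ≤ (2 ^ i) ^ 2 := by
      calc (((yy s i : ℕ) : ℝ) * P / (ε * c)) ^ 2 = ((yy s i : ℕ) : ℝ) ^ 2 * (1 / (ε * c) ^ 2 * P ^ 2) := by
            field_simp
        _ ≤ 2 ^ i * 2 ^ i := mul_le_mul h8 h7 (by positivity) (by positivity)
        _ = _ := by ring
    exact (abs_le_of_sq_le_sq' h10 (by positivity)).2
  have h11 : (2 : ℝ) ^ i ≤ N := by exact_mod_cast hN
  calc ((yy s i : ℕ) : ℝ) = (((yy s i : ℕ) : ℝ) * P / (ε * c)) * (ε * (c / P)) := by field_simp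
    _ ≤ 2 ^ i * (ε * (c / P)) := mul_le_mul_of_nonneg_right h9 (by positivity)
    _ ≤ N * (ε * V) := mul_le_mul h11 (mul_le_mul_of_nonneg_left h5 hε.le) (by positivity) (Nat.cast_nonneg _)
    _ = _ := by ring

/-- the translated sieve data -/
def omS (t : ℕ) (Om : ℕ → Finset ℕ) (p : ℕ) : Finset ℕ := (range p).filter (fun j => (t + j) % p ∈ Om p)

theorem mem_omS (t : ℕ) (Om : ℕ → Finset ℕ) {p : ℕ} (hp : 0 < p) (j : ℕ) :
    j % p ∈ omS t Om p ↔ (t + j) % p ∈ Om p := by
  unfold omS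
  rw [mem_filter, mem_range, Nat.add_mod_mod]
  exact ⟨fun h => h.2, fun h => ⟨Nat.mod_lt _ hp, h⟩⟩

theorem card_omS {k : ℕ} {Om : ℕ → Finset ℕ} (h : Adm k Om) (t : ℕ) {p : ℕ} (hp : p.Prime) :
    (omS t Om p).card = (Om p).card := by
  have hp0 := hp.pos
  apply card_bij (fun j _ => (t + j) % p)
  · intro j hj
    unfold omS at hj
    exact (mem_filter.1 hj).2
  · intro j hj j' hj' he
    unfold omS at hj hj'
    rw [mem_filter, mem_range] at hj hj'
    have h1 : t + j ≡ t + j' [MOD p] := he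
    have h2 : j ≡ j' [MOD p] := Nat.ModEq.add_left_cancel' t h1
    exact h2.eq_of_lt_of_lt hj.1 hj'.1
  · intro a ha
    have ha' := mem_range.1 ((h p hp).1 ha)
    refine ⟨(a + (p - t % p)) % p, ?_, ?_⟩
    · unfold omS
      rw [mem_filter, mem_range]
      refine ⟨Nat.mod_lt _ hp0, ?_⟩
      have e : (t + (a + (p - t % p)) % p) % p = a := by
        rw [Nat.add_mod_mod]
        have h1 := Nat.mod_add_div t p
        have h2 := Nat.mod_lt t hp0
        have h3 : t + (a + (p - t % p)) = a + p * (t / p + 1) := by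
          rw [mul_add, mul_one]
          omega
        rw [h3, Nat.add_mul_mod_self_left, Nat.mod_eq_of_lt ha']
      rw [e]
      exact ha
    · show (t + (a + (p - t % p)) % p) % p = a
      rw [Nat.add_mod_mod]
      have h1 := Nat.mod_add_div t p
      have h2 := Nat.mod_lt t hp0
      have h3 : t + (a + (p - t % p)) = a + p * (t / p + 1) := by
        rw [mul_add, mul_one]
        omega
      rw [h3, Nat.add_mul_mod_self_left, Nat.mod_eq_of_lt ha']

theorem adm_omS {k : ℕ} {Om : ℕ → Finset ℕ} (h : Adm k Om) (t : ℕ) : Adm k (omS t Om) := by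
  intro p hp
  refine ⟨filter_subset _ _, ?_, ?_⟩
  · rw [card_omS h t hp]; exact (h p hp).2.1
  · rw [card_omS h t hp]; exact (h p hp).2.2

theorem VV_omS {k : ℕ} {Om : ℕ → Finset ℕ} (h : Adm k Om) (t y : ℕ) : VV (omS t Om) y = VV Om y := by
  unfold VV
  apply prod_congr rfl
  intro p hp
  rw [card_omS h t (mem_PR.1 hp).1]

open Classical in
/-- the coefficients -/
noncomputable def bw (S : Set ℕ) (t j : ℕ) : ℂ := if t + j ∈ S then 1 else 0

/-- the coefficients beyond `y` -/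
noncomputable def bwy (S : Set ℕ) (t y j : ℕ) : ℂ := if y < t + j then bw S t j else 0

theorem norm_bw (S : Set ℕ) (t j : ℕ) : ‖bw S t j‖ ≤ 1 := by
  unfold bw; split_ifs <;> simp

theorem norm_bwy (S : Set ℕ) (t y j : ℕ) : ‖bwy S t y j‖ ≤ 1 := by
  unfold bwy; split_ifs
  · exact norm_bw S t j
  · simp

theorem supp_bwy {S : Set ℕ} {H : Finset ℕ} (hS : ∀ m ∈ S, ∀ h ∈ H, (m + h).Prime) (t y j : ℕ)
    (hj : bwy S t y j ≠ 0) : ∀ p ∈ PR y, j % p ∉ omS t (omT H) p := by
  classical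
  intro p hp hmem
  obtain ⟨hpp, hpy⟩ := mem_PR.1 hp
  rw [mem_omS t _ hpp.pos, mem_omT H hpp.pos] at hmem
  unfold bwy at hj
  split_ifs at hj with h
  · unfold bw at hj
    have hnS : t + j ∈ S := by
      by_contra hcon
      rw [if_neg hcon] at hj
      exact hj rfl
    obtain ⟨e, he, hd⟩ := hmem
    have h1 := hS _ hnS e he
    have h2 := (Nat.prime_dvd_prime_iff_eq hpp h1).1 hd
    omega
  · exact hj rfl

theorem TT_bwy (S : Set ℕ) (t y N : ℕ) (x : ℝ) : ‖TT N (bw S t) x - TT N (bwy S t y) x‖ ≤ y := by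
  have h1 : TT N (bw S t) x - TT N (bwy S t y) x = TT N (fun j => if y < t + j then 0 else bw S t j) x := by
    unfold TT
    rw [← sum_sub_distrib]
    apply sum_congr rfl
    intro n _
    unfold bwy
    by_cases h : y < t + n
    · simp only [if_pos h]; ring
    · simp only [if_neg h]; ring
  rw [h1]
  apply TT_trunc.sum_norm_le'
  · intro n
    split_ifs
    · simp
    · exact norm_bw S t n
  · intro n hn
    rw [if_pos (by omega)]

open Classical in
/-- the elements in the window -/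
noncomputable def Mw (S : Set ℕ) (t N : ℕ) : Finset ℕ := (Ioc t (t + N)).filter (fun m => m ∈ S)

theorem sum_Mw (S : Set ℕ) (t N : ℕ) (α : ℝ) :
    ∑ m ∈ Mw S t N, ee (m * α) = ee (t * α) * TT N (bw S t) α := by
  classical
  unfold Mw TT
  rw [sum_filter, mul_sum]
  symm
  apply sum_bij (fun j _ => t + j)
  · intro j hj
    rw [mem_Icc] at hj
    rw [mem_Ioc]
    omega
  · intro j _ j' _ h
    omega
  · intro m hm
    rw [mem_Ioc] at hm
    exact ⟨m - t, mem_Icc.2 (by omega), by omega⟩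
  · intro j _
    unfold bw
    split_ifs
    · rw [one_mul, ← ls_ee_add]
      congr 1
      push_cast
      ring
    · ring

theorem card_Mw (S : Set ℕ) (t y N : ℕ) : ((Mw S t N).card : ℝ) ≤ y + ∑ j ∈ Icc 1 N, ‖bwy S t y j‖ ^ 2 := by
  classical
  have h5 : (Mw S t N).card ≤ (Icc 1 y).card + ((Icc 1 N).filter (fun j => t + j ∈ S ∧ y < t + j)).card := by
    have h6 : Mw S t N ⊆ Icc 1 y ∪ ((Icc 1 N).filter (fun j => t + j ∈ S ∧ y < t + j)).image (fun j => t + j) := by
      intro m hm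
      unfold Mw at hm
      rw [mem_filter, mem_Ioc] at hm
      rw [mem_union, mem_Icc, mem_image]
      rcases le_or_gt m y with h | h
      · exact Or.inl ⟨by omega, h⟩
      · right
        refine ⟨m - t, ?_, by omega⟩
        rw [mem_filter, mem_Icc]
        have e : t + (m - t) = m := by omega
        rw [e]
        exact ⟨by omega, hm.2, h⟩
    exact (card_le_card h6).trans ((card_union_le _ _).trans (add_le_add le_rfl card_image_le))
  have h7 : ((Mw S t N).card : ℝ) ≤ ((Icc 1 y).card : ℝ) +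
      (((Icc 1 N).filter (fun j => t + j ∈ S ∧ y < t + j)).card : ℝ) := by exact_mod_cast h5
  refine h7.trans (add_le_add (by simp) ?_)
  rw [card_filter]
  push_cast
  apply sum_le_sum
  intro n _
  split_ifs with h7
  · unfold bwy bw
    rw [if_pos h7.2, if_pos h7.1]
    simp
  · positivity

/-- the size -/
noncomputable def cw (k N : ℕ) : ℝ := (N : ℝ) / Real.log N ^ k

/-- **Windows.** -/
theorem win (H : Finset ℕ) (hH : 𝔖 H ≠ 0) (hk : 1 ≤ H.card) : ∃ (W : ℝ) (N₀ : ℕ), 0 < W ∧ 2 ≤ N₀ ∧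
    (∀ S : Set ℕ, (∀ m ∈ S, ∀ h ∈ H, (m + h).Prime) → ∀ t N : ℕ, N₀ ≤ N →
      ((Mw S t N).card : ℝ) ≤ W * cw H.card N) ∧
    ∀ (t N : ℕ → ℕ) (S : ℕ → Set ℕ), (∀ n, ∀ m ∈ S n, ∀ h ∈ H, (m + h).Prime) → Tendsto N atTop atTop →
      ∀ τ : ℝ, 0 ≤ τ → (∀ D : ℝ, τ < D → Summable fun n => (1 / (N n : ℝ)) ^ D) →
      ∃ T : Set ℝ, dimH T ≤ ENNReal.ofReal τ ∧ ∀ α : ℝ, α ∉ T →
      ∀ h : ℤ, h ≠ 0 → Tendsto (fun n => (∑ m ∈ Mw (S n) (t n) (N n), ee (m * (h * α))) /
        (cw H.card (N n) : ℂ)) atTop (𝓝 0) := by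
  classical
  set k := H.card with hkdef
  obtain ⟨s, hs, ⟨C₁, hC₁, hcnt⟩, hfew⟩ := few_set k hk
  obtain ⟨C₂, hC₂, hVS⟩ := VV_le_S k
  have hadm : Adm k (omT H) := adm_omT hH le_rfl
  have hS0 : 0 < 𝔖 H := lt_of_le_of_ne (S_nonneg _) (Ne.symm hH)
  -- the sieve product
  set i₀ : ℕ := 16 * s + 1 + 8 * s * (4 * k ^ 2 + 2) with hi₀
  set C₃ : ℝ := C₂ * 𝔖 H * (16 * s) ^ k with hC₃
  have hs0 : 0 < 8 * s := by omega
  have hsr : (0 : ℝ) < 16 * s := by
    have : (0 : ℝ) < s := by exact_mod_cast (by omega : 0 < s)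
    linarith
  have hC₃0 : 0 < C₃ := by positivity
  have hVc : ∀ N : ℕ, 2 ^ i₀ ≤ N → (N : ℝ) * VV (omT H) (yy s (Nat.log 2 N)) ≤ C₃ * cw k N := by
    intro N hN
    have hN0 : N ≠ 0 := by
      have := Nat.one_le_two_pow (n := i₀)
      omega
    have a1 := Nat.pow_log_le_self 2 hN0
    have a2 := Nat.lt_pow_succ_log_self (b := 2) (by norm_num) N
    have a4 : i₀ ≤ Nat.log 2 N := Nat.le_log_of_pow_le (by norm_num) hN
    set i := Nat.log 2 N with hi
    have b1 : 4 * k ^ 2 + 2 ≤ i / (8 * s) := by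
      rw [Nat.le_div_iff_mul_le hs0]
      have : (4 * k ^ 2 + 2) * (8 * s) = 8 * s * (4 * k ^ 2 + 2) := by ring
      omega
    have b2 : 4 * k ^ 2 + 2 ≤ yy s i := by
      unfold yy
      exact b1.trans (Nat.lt_two_pow_self).le
    have hV := hVS (yy s i) b2 H rfl
    have hNr : (1 : ℝ) < N := by
      have : 2 ^ 1 ≤ 2 ^ i₀ := Nat.pow_le_pow_right (by norm_num) (by omega)
      exact_mod_cast (by omega : 1 < N)
    have hlN : Real.log N ≤ ((i : ℝ) + 1) * Real.log 2 := by
      calc Real.log N ≤ Real.log ((2 : ℝ) ^ (i + 1)) := Real.log_le_log (by linarith) (by exact_mod_cast a2.le)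
        _ = _ := by rw [Real.log_pow]; push_cast; ring
    have hl2 : 0 < Real.log 2 := Real.log_pos (by norm_num)
    have hlx : 0 < Real.log N := Real.log_pos hNr
    have b3 : Real.log N ≤ (16 * s) * Real.log (yy s i) := by
      have e1 : Real.log ((yy s i : ℕ) : ℝ) = ((i / (8 * s) : ℕ) : ℝ) * Real.log 2 := by
        unfold yy
        push_cast
        rw [Real.log_pow]
      have e2 : i + 1 ≤ 16 * s * (i / (8 * s)) := by
        have h5 := Nat.lt_div_mul_add (a := i) hs0
        have h6 : i / (8 * s) * (8 * s) = 8 * s * (i / (8 * s)) := by ring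
        have h7 : 16 * s * (i / (8 * s)) = 2 * (8 * s * (i / (8 * s))) := by ring
        rw [h7]
        omega
      have e3 : ((i : ℝ) + 1) ≤ 16 * s * ((i / (8 * s) : ℕ) : ℝ) := by exact_mod_cast e2
      rw [e1]
      calc Real.log N ≤ ((i : ℝ) + 1) * Real.log 2 := hlN
        _ ≤ (16 * s * ((i / (8 * s) : ℕ) : ℝ)) * Real.log 2 := mul_le_mul_of_nonneg_right e3 hl2.le
        _ = _ := by ring
    have hly : 0 < Real.log (yy s i) := by
      by_contra hcon
      rw [not_lt] at hcon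
      have := mul_nonpos_of_nonneg_of_nonpos hsr.le hcon
      linarith
    have b4 : C₂ * 𝔖 H / Real.log (yy s i) ^ k ≤ C₃ * (1 / Real.log N ^ k) := by
      rw [mul_one_div, div_le_div_iff₀ (by positivity) (by positivity)]
      have h5 : Real.log N ^ k ≤ (16 * s) ^ k * Real.log (yy s i) ^ k := by
        rw [← mul_pow]
        exact pow_le_pow_left₀ hlx.le b3 _
      calc C₂ * 𝔖 H * Real.log N ^ k ≤
            C₂ * 𝔖 H * ((16 * s) ^ k * Real.log (yy s i) ^ k) := mul_le_mul_of_nonneg_left h5 (by positivity)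
        _ = _ := by rw [hC₃]; ring
    calc (N : ℝ) * VV (omT H) (yy s i) ≤ (N : ℝ) * (C₃ * (1 / Real.log N ^ k)) :=
          mul_le_mul_of_nonneg_left (hV.trans b4) (Nat.cast_nonneg _)
      _ = _ := by unfold cw; ring
  obtain ⟨i₁, hi₁⟩ := yy_small k hk s hs one_pos
  set i₂ : ℕ := max (max i₀ i₁) (8 * s + 2) with hi₂
  have hi20 : i₀ ≤ i₂ := (le_max_left _ _).trans (le_max_left _ _)
  refine ⟨(C₁ + 1) * C₃, 2 ^ i₂, by positivity, ?_, ?_, ?_⟩
  · calc 2 = 2 ^ 1 := rfl
      _ ≤ 2 ^ i₂ := Nat.pow_le_pow_right (by norm_num) (by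
        have : 8 * s + 2 ≤ i₂ := le_max_right _ _
        omega)
  · intro S hS t N hN
    have hN0 : N ≠ 0 := by
      have := Nat.one_le_two_pow (n := i₂)
      omega
    have a1 := Nat.pow_log_le_self 2 hN0
    have a4 : i₂ ≤ Nat.log 2 N := Nat.le_log_of_pow_le (by norm_num) hN
    have h0 := hVc N ((Nat.pow_le_pow_right (by norm_num) hi20).trans hN)
    set i := Nat.log 2 N with hi
    have hi8 : 8 * s + 2 ≤ i := (le_max_right _ _).trans a4
    have b1 := hcnt (yy s i) N (yy_two hs (by omega)) ((yy_pow hs (by omega)).trans a1) (omS t (omT H))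
      (adm_omS hadm t) (bwy S t (yy s i)) (supp_bwy hS t _) (norm_bwy S t _)
    rw [VV_omS hadm] at b1
    have b3 := hi₁ i N (((le_max_right _ _).trans (le_max_left _ _)).trans a4) a1 (omT H) hadm
    rw [one_mul] at b3
    have b2 := card_Mw S t (yy s i) N
    calc ((Mw S t N).card : ℝ) ≤ N * VV (omT H) (yy s i) + C₁ * (N * VV (omT H) (yy s i)) :=
          b2.trans (add_le_add b3 b1)
      _ = (C₁ + 1) * (N * VV (omT H) (yy s i)) := by ring
      _ ≤ (C₁ + 1) * (C₃ * cw k N) := mul_le_mul_of_nonneg_left h0 (by positivity)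
      _ = _ := by ring
  · intro t N S hS hN τ hτ hsum
    -- the exceptional sets
    set E : ℝ → Set ℝ := fun ε => {β : ℝ | ∃ᶠ n in atTop, ε * ((N n : ℝ) * VV (omT H) (yy s (Nat.log 2 (N n)))) ≤
      ‖TT (N n) (bw (S n) (t n)) β‖} with hE
    have hdimE : ∀ ε : ℝ, 0 < ε → ∀ D : ℝ, τ < D → dimH (E ε) ≤ ENNReal.ofReal D := by
      intro ε hε D hD
      have hD0 : 0 < D := by linarith
      obtain ⟨B, hB⟩ := hfew (ε / 2) (by positivity)
      obtain ⟨i₃, hi₃⟩ := yy_small k hk s hs (show 0 < ε / 2 by positivity)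
      set i₄ : ℕ := max i₃ (8 * s + 2) with hi₄
      obtain ⟨n₀, hn₀⟩ := eventually_atTop.1 (hN.eventually (eventually_ge_atTop (2 ^ i₄)))
      set Lv : ℕ → ℝ := fun n => ε / 2 * ((N n : ℝ) * VV (omT H) (yy s (Nat.log 2 (N n)))) with hLv
      set Sx : ℕ → Finset (ℕ × ℕ) := fun n => if n₀ ≤ n then
        (cellsL (N n) (bwy (S n) (t n) (yy s (Nat.log 2 (N n)))) (Lv n)).image (fun e => (N n, e)) else ∅ with hSx
      have facts : ∀ n, n₀ ≤ n → 2 ^ Nat.log 2 (N n) ≤ N n ∧ i₄ ≤ Nat.log 2 (N n) ∧ 1 ≤ N n := by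
        intro n hn
        have h1 := hn₀ n hn
        have h2 := Nat.one_le_two_pow (n := i₄)
        exact ⟨Nat.pow_log_le_self 2 (by omega), Nat.le_log_of_pow_le (by norm_num) h1, by omega⟩
      have hScard : ∀ n, ((Sx n).card : ℝ) ≤ ((1 + (B + B) : ℕ) : ℝ) := by
        intro n
        by_cases hn : n₀ ≤ n
        swap
        · simp only [hSx]
          rw [if_neg hn, card_empty, Nat.cast_zero]
          positivity
        obtain ⟨a1, a2, a3⟩ := facts n hn
        have hi8 : 8 * s + 2 ≤ Nat.log 2 (N n) := (le_max_right _ _).trans a2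
        have h1 : (Sx n).card ≤ 1 + (B + B) := by
          simp only [hSx]
          rw [if_pos hn]
          refine card_image_le.trans ?_
          refine cells_le a3 _ _ B ?_
          intro J ξ hsep hlarge
          refine hB (yy s (Nat.log 2 (N n))) (N n) (yy_two hs (by omega))
            ((yy_pow hs (by omega)).trans a1) (omS (t n) (omT H)) (adm_omS hadm _)
            (bwy (S n) (t n) (yy s (Nat.log 2 (N n)))) (supp_bwy (hS n) _ _) (norm_bwy _ _ _) J ξ hsep ?_
          rw [VV_omS hadm]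
          exact hlarge
        exact_mod_cast h1
      apply dim_periodic
      · intro α hα
        refine Filter.Frequently.mono hα ?_
        intro n h6
        refine h6.trans (le_of_eq ?_)
        conv_lhs => rw [← Int.fract_add_floor α]
        rw [TT_add_int]
      refine (dimH_mono ?_).trans (dim_cells Sx (fun n => max (N n) 1) (fun n => le_max_right _ _) ?_ hD0 ?_)
      · rintro α ⟨hα, hα0, hα1⟩
        refine (hα.and_eventually (eventually_ge_atTop n₀)).mono ?_
        rintro n ⟨hbig, hn⟩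
        obtain ⟨a1, a2, a3⟩ := facts n hn
        have hi3 : i₃ ≤ Nat.log 2 (N n) := (le_max_left _ _).trans a2
        have b1 := hi₃ _ (N n) hi3 a1 (omT H) hadm
        have b2 := TT_bwy (S n) (t n) (yy s (Nat.log 2 (N n))) (N n) α
        have hlarge : Lv n ≤ ‖TT (N n) (bwy (S n) (t n) (yy s (Nat.log 2 (N n)))) α‖ := by
          have h1 := norm_sub_norm_le (TT (N n) (bw (S n) (t n)) α)
            (TT (N n) (bwy (S n) (t n) (yy s (Nat.log 2 (N n)))) α)
          have h2 : Lv n = ε / 2 * ((N n : ℝ) * VV (omT H) (yy s (Nat.log 2 (N n)))) := rfl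
          rw [h2]
          have h3 : ε * ((N n : ℝ) * VV (omT H) (yy s (Nat.log 2 (N n)))) =
            ε / 2 * ((N n : ℝ) * VV (omT H) (yy s (Nat.log 2 (N n)))) +
            ε / 2 * ((N n : ℝ) * VV (omT H) (yy s (Nat.log 2 (N n)))) := by ring
          have h4 : ε * ((N n : ℝ) * VV (omT H) (yy s (Nat.log 2 (N n)))) ≤
            ‖TT (N n) (bw (S n) (t n)) α‖ := hbig
          linarith
        obtain ⟨e, he1, he2, he3⟩ := cell_mem a3 hα0 hα1 hlarge
        refine ⟨(N n, e), ?_, he2, he3⟩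
        simp only [hSx]
        rw [if_pos hn]
        exact mem_image.2 ⟨e, he1, rfl⟩
      · intro n z hz
        simp only [hSx] at hz
        split_ifs at hz with h
        · rw [mem_image] at hz
          obtain ⟨e, _, rfl⟩ := hz
          exact max_le le_rfl (facts n h).2.2
        · simp at hz
      · have h1 := (hsum D hD).mul_left ((1 + (B + B) : ℕ) : ℝ)
        refine Summable.of_norm_bounded_eventually_nat h1 ?_
        filter_upwards [eventually_ge_atTop n₀] with n hn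
        rw [Real.norm_of_nonneg (by positivity)]
        have h2 : ((max (N n) 1 : ℕ) : ℝ) = N n := by
          rw [max_eq_left (facts n hn).2.2]
        rw [h2]
        exact mul_le_mul_of_nonneg_right (hScard n) (by positivity)
    refine ⟨⋃ z : {h : ℤ // h ≠ 0} × ℕ, {α : ℝ | (z.1.1 : ℝ) * α ∈ E (1 / ((z.2 : ℝ) + 1))}, ?_, ?_⟩
    · rw [dimH_iUnion]
      apply iSup_le
      rintro ⟨⟨h, hh⟩, m⟩
      apply dim_dilate _ hh
      apply ENNReal.le_of_forall_pos_le_add
      intro δ hδ _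
      have h1 := hdimE (1 / ((m : ℝ) + 1)) (by positivity) (τ + δ) (by
        have : (0 : ℝ) < δ := hδ
        linarith)
      refine h1.trans (le_of_eq ?_)
      rw [ENNReal.ofReal_add hτ (NNReal.coe_nonneg δ), ENNReal.ofReal_coe_nnreal]
    · intro α hα h hh
      rw [Metric.tendsto_nhds]
      intro ε hε
      obtain ⟨m, hm⟩ := exists_nat_one_div_lt (show 0 < ε / (2 * C₃) by positivity)
      have h1 : ¬ ∃ᶠ n in atTop, 1 / ((m : ℝ) + 1) * ((N n : ℝ) * VV (omT H) (yy s (Nat.log 2 (N n)))) ≤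
          ‖TT (N n) (bw (S n) (t n)) (h * α)‖ := by
        intro hcon
        apply hα
        rw [Set.mem_iUnion]
        exact ⟨(⟨h, hh⟩, m), hcon⟩
      rw [not_frequently] at h1
      filter_upwards [h1, hN.eventually (eventually_ge_atTop (2 ^ i₂))] with n h2 h3
      rw [not_le] at h2
      have h4 := hVc (N n) ((Nat.pow_le_pow_right (by norm_num) hi20).trans h3)
      have hN1 : (1 : ℝ) < N n := by
        have : 2 ^ 1 ≤ 2 ^ i₂ := Nat.pow_le_pow_right (by norm_num) (by
          have : 8 * s + 2 ≤ i₂ := le_max_right _ _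
          omega)
        exact_mod_cast (by omega : 1 < N n)
      have hc : 0 < cw k (N n) := by
        have := Real.log_pos hN1
        unfold cw
        positivity
      rw [dist_zero_right, norm_div, Complex.norm_real, Real.norm_of_nonneg hc.le, div_lt_iff₀ hc, sum_Mw,
        norm_mul, ls_norm_ee, one_mul]
      calc ‖TT (N n) (bw (S n) (t n)) (h * α)‖ ≤ 1 / ((m : ℝ) + 1) *
            ((N n : ℝ) * VV (omT H) (yy s (Nat.log 2 (N n)))) := h2.le
        _ ≤ 1 / ((m : ℝ) + 1) * (C₃ * cw k (N n)) := mul_le_mul_of_nonneg_left h4 (by positivity)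
        _ ≤ ε / (2 * C₃) * (C₃ * cw k (N n)) := mul_le_mul_of_nonneg_right hm.le (by positivity)
        _ = ε / 2 * cw k (N n) := by field_simp
        _ < ε * cw k (N n) := by nlinarith

end Pool.Agent.H90.SK
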