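import Pool.Agent.H90.SK.Sys
import Pool.Agent.H90.SK.Win

/-! # The mean square law for prime values, uniformly in all polynomials of bounded degree -/

set_option autoImplicit false

namespace Pool.Agent.H90.SK

open Finset Pool.Agent.Helper112 Pool.Agent.H90.ST Polynomial Filter Topology

theorem sum_norm_card (N : ℕ) (Z : Finset ℕ) (b : ℕ → ℂ) (hb1 : ∀ n, ‖b n‖ ≤ 1) (hb : ∀ n, n ∉ Z → b n = 0)
    (x : ℝ) : ‖TT N b x‖ ≤ Z.card := by
  classical
  unfold TT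
  calc ‖∑ n ∈ Icc 1 N, b n * ee (n * x)‖ ≤ ∑ n ∈ Icc 1 N, ‖b n * ee (n * x)‖ := norm_sum_le _ _
    _ ≤ ∑ n ∈ Icc 1 N, (if n ∈ Z then (1 : ℝ) else 0) := by
        apply sum_le_sum
        intro n _
        rw [norm_mul, Pool.Agent.Helper112.ls_norm_ee, mul_one]
        split_ifs with h
        · exact hb1 n
        · rw [hb n h, norm_zero]
    _ = (((Icc 1 N).filter (fun n => n ∈ Z)).card : ℝ) := by
        rw [← sum_filter, sum_const, nsmul_eq_mul, mul_one]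
    _ ≤ (Z.card : ℝ) := by
        norm_cast
        apply card_le_card
        intro n hn
        exact (mem_filter.1 hn).2

/-- the version with a finite set of exceptions -/
theorem bdhZ (k : ℕ) (hk : 1 ≤ k) : ∃ C : ℝ, 0 < C ∧ ∃ s : ℕ, 1 ≤ s ∧ ∀ y N : ℕ, 2 ≤ y →
    2 * y ^ (4 * s) ≤ N → ∀ Om : ℕ → Finset ℕ, Adm k Om → ∀ (Z : Finset ℕ) (b : ℕ → ℂ),
      (∀ n, b n ≠ 0 → n ∉ Z → ∀ p ∈ PR y, n % p ∉ Om p) → (∀ n, ‖b n‖ ≤ 1) →
      ∀ K P : ℕ, 1 ≤ K → (∀ d, 1 ≤ d → d ≤ K → d ∣ P) → ∀ Q : ℕ, 1 ≤ Q →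
        ∑ q ∈ Ico Q (2 * Q), ∑ a ∈ range q, ‖DF N b q (Nat.gcd q P) a‖ ^ 2 ≤
            C * ((N * VV Om y) ^ 2 / √K + Q * (N * VV Om y)) + 2 * Q * (Z.card : ℝ) ^ 2 := by
  classical
  obtain ⟨C, hC0, s, hs1, h⟩ := bdh k hk
  refine ⟨2 * C, by positivity, s, hs1, ?_⟩
  intro y N hy hyN Om hOm Z b hb hb1 K P hK hKP Q hQ
  set b1 : ℕ → ℂ := fun n => if n ∈ Z then 0 else b n with hb1def
  set b2 : ℕ → ℂ := fun n => if n ∈ Z then b n else 0 with hb2def
  have hb11 : ∀ n, ‖b1 n‖ ≤ 1 := by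
    intro n; simp only [hb1def]; split_ifs
    · simp
    · exact hb1 n
  have hb21 : ∀ n, ‖b2 n‖ ≤ 1 := by
    intro n; simp only [hb2def]; split_ifs
    · exact hb1 n
    · simp
  have hcls : ∀ q a, cls N b q a = cls N b1 q a + cls N b2 q a := by
    intro q a
    unfold cls
    rw [← sum_add_distrib]
    apply sum_congr rfl
    intro n _
    simp only [hb1def, hb2def]
    split_ifs <;> ring
  have hDF : ∀ q g a, ‖DF N b q g a‖ ^ 2 ≤ 2 * ‖DF N b1 q g a‖ ^ 2 + 2 * ‖DF N b2 q g a‖ ^ 2 := by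
    intro q g a
    have e : DF N b q g a = DF N b1 q g a + DF N b2 q g a := by
      unfold DF
      rw [hcls, hcls]
      ring
    rw [e]
    have := norm_add_le (DF N b1 q g a) (DF N b2 q g a)
    calc ‖DF N b1 q g a + DF N b2 q g a‖ ^ 2 ≤ (‖DF N b1 q g a‖ + ‖DF N b2 q g a‖) ^ 2 :=
          pow_le_pow_left₀ (norm_nonneg _) this 2
      _ ≤ _ := by nlinarith [sq_nonneg (‖DF N b1 q g a‖ - ‖DF N b2 q g a‖)]
  have h1 := h y N hy hyN Om hOm b1 (by
    intro n hn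
    simp only [hb1def] at hn
    split_ifs at hn with h
    · exact absurd rfl hn
    · exact hb n hn h) hb11 K P hK hKP Q hQ
  have h2 : ∑ q ∈ Ico Q (2 * Q), ∑ a ∈ range q, ‖DF N b2 q (Nat.gcd q P) a‖ ^ 2 ≤ Q * (Z.card : ℝ) ^ 2 := by
    have h3 : ∀ q ∈ Ico Q (2 * Q), ∑ a ∈ range q, ‖DF N b2 q (Nat.gcd q P) a‖ ^ 2 ≤ (Z.card : ℝ) ^ 2 := by
      intro q hq
      rw [mem_Ico] at hq
      have hq1 : 1 ≤ q := by omega
      have hq0 : (0 : ℝ) < q := by exact_mod_cast hq1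
      have e := diff_sum hq1 (Nat.gcd_dvd_left q P) N b2
      have e' : ∑ a ∈ range q, ‖DF N b2 q (Nat.gcd q P) a‖ ^ 2 =
          1 / (q : ℝ) * ∑ k ∈ BB q (Nat.gcd q P), ‖TT N b2 ((k : ℝ) / q)‖ ^ 2 := e
      rw [e']
      have h4 : ∑ k ∈ BB q (Nat.gcd q P), ‖TT N b2 ((k : ℝ) / q)‖ ^ 2 ≤ q * (Z.card : ℝ) ^ 2 := by
        calc ∑ k ∈ BB q (Nat.gcd q P), ‖TT N b2 ((k : ℝ) / q)‖ ^ 2 ≤
              ∑ k ∈ BB q (Nat.gcd q P), (Z.card : ℝ) ^ 2 := by
              apply sum_le_sum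
              intro k _
              apply pow_le_pow_left₀ (norm_nonneg _)
              apply sum_norm_card N Z b2 hb21
              intro n hn
              simp only [hb2def]
              rw [if_neg hn]
          _ = (BB q (Nat.gcd q P)).card * (Z.card : ℝ) ^ 2 := by rw [sum_const, nsmul_eq_mul]
          _ ≤ q * (Z.card : ℝ) ^ 2 := by
              apply mul_le_mul_of_nonneg_right _ (by positivity)
              have : (BB q (Nat.gcd q P)).card ≤ q := (card_filter_le _ _).trans (by simp)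
              exact_mod_cast this
      calc 1 / (q : ℝ) * ∑ k ∈ BB q (Nat.gcd q P), ‖TT N b2 ((k : ℝ) / q)‖ ^ 2
          ≤ 1 / (q : ℝ) * (q * (Z.card : ℝ) ^ 2) := mul_le_mul_of_nonneg_left h4 (by positivity)
        _ = (Z.card : ℝ) ^ 2 := by field_simp
    calc ∑ q ∈ Ico Q (2 * Q), ∑ a ∈ range q, ‖DF N b2 q (Nat.gcd q P) a‖ ^ 2
        ≤ ∑ q ∈ Ico Q (2 * Q), (Z.card : ℝ) ^ 2 := sum_le_sum h3
      _ = Q * (Z.card : ℝ) ^ 2 := by
          rw [sum_const, nsmul_eq_mul, Nat.card_Ico]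
          congr 2
          omega
  calc ∑ q ∈ Ico Q (2 * Q), ∑ a ∈ range q, ‖DF N b q (Nat.gcd q P) a‖ ^ 2
      ≤ ∑ q ∈ Ico Q (2 * Q), ∑ a ∈ range q,
          (2 * ‖DF N b1 q (Nat.gcd q P) a‖ ^ 2 + 2 * ‖DF N b2 q (Nat.gcd q P) a‖ ^ 2) :=
        sum_le_sum fun q _ => sum_le_sum fun a _ => hDF q _ a
    _ = 2 * ∑ q ∈ Ico Q (2 * Q), ∑ a ∈ range q, ‖DF N b1 q (Nat.gcd q P) a‖ ^ 2 +
        2 * ∑ q ∈ Ico Q (2 * Q), ∑ a ∈ range q, ‖DF N b2 q (Nat.gcd q P) a‖ ^ 2 := by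
        rw [mul_sum, mul_sum, ← sum_add_distrib]
        apply sum_congr rfl
        intro q _
        rw [mul_sum, mul_sum, ← sum_add_distrib]
    _ ≤ _ := by
        have h1' : ∑ q ∈ Ico Q (2 * Q), ∑ a ∈ range q, ‖DF N b1 q (Nat.gcd q P) a‖ ^ 2 ≤
          C * ((N * VV Om y) ^ 2 / √K + Q * (N * VV Om y)) := h1
        linarith

/-- the sieve product up to a power -/
theorem VV_tail (k s : ℕ) (hk : 1 ≤ k) (hs : 1 ≤ s) : ∃ (C : ℝ) (x₀ : ℕ), 0 < C ∧ ∀ x : ℕ, x₀ ≤ x →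
    ∀ Om : ℕ → Finset ℕ, Adm k Om → VV Om (yy s (Nat.log 2 x)) ≤ C * VV Om x := by
  classical
  obtain ⟨c₁, c₂, hc1, hc2, hcz⟩ := Pool.Agent.H318R2.Cr.cz_bounds
  have hc20 : 0 < c₂ := hc1.trans_le hc2
  set i₀ : ℕ := 16 * s + 1 + 8 * s * (2 * k) with hi₀
  have hs0 : 0 < 8 * s := by omega
  have hsr : (0 : ℝ) < 16 * s := by
    have : (0 : ℝ) < s := by exact_mod_cast (by omega : 0 < s)
    linarith
  refine ⟨(c₂ * (16 * s) / c₁) ^ (2 * k), 2 ^ i₀, by positivity, fun x hx Om hOm => ?_⟩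
  have hN0 : x ≠ 0 := by
    have := Nat.one_le_two_pow (n := i₀)
    omega
  have a1 := Nat.pow_log_le_self 2 hN0
  have a2 := Nat.lt_pow_succ_log_self (b := 2) (by norm_num) x
  have a4 : i₀ ≤ Nat.log 2 x := Nat.le_log_of_pow_le (by norm_num) hx
  set i := Nat.log 2 x with hi
  set y := yy s i with hy
  have b1 : 2 * k ≤ i / (8 * s) := by
    rw [Nat.le_div_iff_mul_le hs0]
    have : (2 * k) * (8 * s) = 8 * s * (2 * k) := by ring
    omega
  have b2 : 2 * k ≤ y := by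
    rw [hy]
    unfold yy
    exact b1.trans (Nat.lt_two_pow_self).le
  have hyx : y ≤ x := by
    refine le_trans ?_ a1
    rw [hy]
    unfold yy
    exact Nat.pow_le_pow_right (by norm_num) (Nat.div_le_self _ _)
  have hxr : (1 : ℝ) < x := by
    have : 2 ^ 1 ≤ 2 ^ i₀ := Nat.pow_le_pow_right (by norm_num) (by omega)
    exact_mod_cast (by omega : 1 < x)
  have hlx : 0 < Real.log x := Real.log_pos hxr
  have b3 : Real.log x ≤ (16 * s) * Real.log y := by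
    have hlN : Real.log x ≤ ((i : ℝ) + 1) * Real.log 2 := by
      calc Real.log x ≤ Real.log ((2 : ℝ) ^ (i + 1)) := Real.log_le_log (by linarith) (by exact_mod_cast a2.le)
        _ = _ := by rw [Real.log_pow]; push_cast; ring
    have hl2 : 0 < Real.log 2 := Real.log_pos (by norm_num)
    have e1 : Real.log ((y : ℕ) : ℝ) = ((i / (8 * s) : ℕ) : ℝ) * Real.log 2 := by
      rw [hy]
      unfold yy
      push_cast
      rw [Real.log_pow]
    have e2 : i + 1 ≤ 16 * s * (i / (8 * s)) := by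
      have h5 := Nat.lt_div_mul_add (a := i) hs0
      have h6 : i / (8 * s) * (8 * s) = 8 * s * (i / (8 * s)) := by ring
      have h7 : 16 * s * (i / (8 * s)) = 2 * (8 * s * (i / (8 * s))) := by ring
      rw [h7]
      omega
    have e3 : ((i : ℝ) + 1) ≤ 16 * s * ((i / (8 * s) : ℕ) : ℝ) := by exact_mod_cast e2
    rw [e1]
    calc Real.log x ≤ ((i : ℝ) + 1) * Real.log 2 := hlN
      _ ≤ (16 * s * ((i / (8 * s) : ℕ) : ℝ)) * Real.log 2 := mul_le_mul_of_nonneg_right e3 hl2.le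
      _ = _ := by ring
  have hly : 0 < Real.log y := by
    by_contra hcon
    rw [not_lt] at hcon
    have := mul_nonpos_of_nonneg_of_nonpos hsr.le hcon
    linarith
  -- the products
  set T : Finset ℕ := PR x \ PR y with hT
  have hsub : PR y ⊆ PR x := by
    intro p hp
    obtain ⟨h1, h2⟩ := mem_PR.1 hp
    exact mem_PR.2 ⟨h1, h2.trans hyx⟩
  have hTm : ∀ p ∈ T, p.Prime ∧ y < p := by
    intro p hp
    rw [hT, Finset.mem_sdiff, mem_PR, mem_PR] at hp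
    refine ⟨hp.1.1, ?_⟩
    by_contra h
    exact hp.2 ⟨hp.1.1, not_lt.1 h⟩
  have hsplit : ∀ f : ℕ → ℝ, ∏ p ∈ PR x, f p = (∏ p ∈ T, f p) * ∏ p ∈ PR y, f p := by
    intro f
    rw [hT, prod_sdiff hsub]
  have hprod : (∏ p ∈ T, (1 - 1 / (p : ℝ))) ^ (2 * k) ≤ ∏ p ∈ T, (1 - ((Om p).card : ℝ) / p) := by
    rw [← prod_pow]
    apply Finset.prod_le_prod
    · intro p hp
      apply pow_nonneg
      rw [sub_nonneg, div_le_one (by exact_mod_cast (hTm p hp).1.pos)]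
      exact_mod_cast (hTm p hp).1.one_lt.le
    · intro p hp
      obtain ⟨hpp, hyp⟩ := hTm p hp
      obtain ⟨_, g1, g2⟩ := hOm p hpp
      have hp0 : (0 : ℝ) < p := by exact_mod_cast hpp.pos
      have g3 : ((Om p).card : ℝ) ≤ k := by exact_mod_cast g1
      have g4 : (2 * (k : ℝ)) ≤ p := by exact_mod_cast (by omega : 2 * k ≤ p)
      have g5 : (k : ℝ) / p ≤ 1 / 2 := by
        rw [div_le_div_iff₀ hp0 (by norm_num)]; linarith
      have g6 := one_sub_ge (show 0 ≤ (k : ℝ) / p by positivity) g5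
      have g7 : 1 - 1 / (p : ℝ) ≤ Real.exp (-(1 / (p : ℝ))) := by
        have := Real.add_one_le_exp (-(1 / (p : ℝ)))
        linarith
      have g8 : 0 ≤ 1 - 1 / (p : ℝ) := by
        rw [sub_nonneg, div_le_one hp0]; exact_mod_cast hpp.one_lt.le
      calc (1 - 1 / (p : ℝ)) ^ (2 * k) ≤ (Real.exp (-(1 / (p : ℝ)))) ^ (2 * k) := pow_le_pow_left₀ g8 g7 _
        _ = Real.exp (-(2 * (k / p))) := by
            rw [← Real.exp_nat_mul]
            congr 1
            push_cast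
            ring
        _ ≤ 1 - (k : ℝ) / p := g6
        _ ≤ 1 - ((Om p).card : ℝ) / p := by
            have := div_le_div_of_nonneg_right g3 hp0.le
            linarith
  have hVeq : ∀ z : ℕ, Pool.Agent.H318R2.Cr.V z = ∏ p ∈ PR z, (1 - 1 / (p : ℝ)) := by
    intro z
    unfold Pool.Agent.H318R2.Cr.V
    apply prod_congr _ (fun _ _ => rfl)
    ext p
    rw [Pool.Agent.H318R2.Cr.mem_Pz, mem_PR]
  have hVx := (hcz x (by
    have : 2 ^ 1 ≤ 2 ^ i₀ := Nat.pow_le_pow_right (by norm_num) (by omega)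
    omega)).1
  have hVy := (hcz y (by omega)).2
  rw [hVeq] at hVx hVy
  rw [hsplit] at hVx
  have hPy : 0 < ∏ p ∈ PR y, (1 - 1 / (p : ℝ)) := by
    rw [← hVeq]; exact Pool.Agent.H318R2.Cr.V_pos y
  set A : ℝ := ∏ p ∈ T, (1 - 1 / (p : ℝ)) with hA
  have hA0 : 0 ≤ A := by
    apply prod_nonneg
    intro p hp
    rw [sub_nonneg, div_le_one (by exact_mod_cast (hTm p hp).1.pos)]
    exact_mod_cast (hTm p hp).1.one_lt.le
  have hA1 : c₁ ≤ A * (c₂ * (16 * s)) := by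
    calc c₁ ≤ A * (∏ p ∈ PR y, (1 - 1 / (p : ℝ))) * Real.log x := hVx
      _ = A * ((∏ p ∈ PR y, (1 - 1 / (p : ℝ))) * Real.log x) := by ring
      _ ≤ A * ((∏ p ∈ PR y, (1 - 1 / (p : ℝ))) * ((16 * s) * Real.log y)) := by
          apply mul_le_mul_of_nonneg_left _ hA0
          exact mul_le_mul_of_nonneg_left b3 hPy.le
      _ = A * (((∏ p ∈ PR y, (1 - 1 / (p : ℝ))) * Real.log y) * (16 * s)) := by ring
      _ ≤ A * (c₂ * (16 * s)) := by
          apply mul_le_mul_of_nonneg_left _ hA0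
          exact mul_le_mul_of_nonneg_right hVy hsr.le
  have hA2 : 1 ≤ A * (c₂ * (16 * s) / c₁) := by
    rw [mul_div_assoc', le_div_iff₀ hc1]
    linarith
  have hA3 : 1 ≤ A ^ (2 * k) * (c₂ * (16 * s) / c₁) ^ (2 * k) := by
    rw [← mul_pow]
    exact one_le_pow₀ hA2
  have hVV : VV Om x = (∏ p ∈ T, (1 - ((Om p).card : ℝ) / p)) * VV Om y := hsplit _
  rw [hVV]
  have hVy0 := VV_pos hOm y
  calc VV Om y ≤ (A ^ (2 * k) * (c₂ * (16 * s) / c₁) ^ (2 * k)) * VV Om y :=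
        le_mul_of_one_le_left hVy0.le hA3
    _ = (c₂ * (16 * s) / c₁) ^ (2 * k) * (A ^ (2 * k) * VV Om y) := by ring
    _ ≤ (c₂ * (16 * s) / c₁) ^ (2 * k) * ((∏ p ∈ T, (1 - ((Om p).card : ℝ) / p)) * VV Om y) := by
        apply mul_le_mul_of_nonneg_left _ (by positivity)
        exact mul_le_mul_of_nonneg_right hprod hVy0.le

/-! ### polynomials -/

variable {r : ℕ}

open Classical in
/-- the zeros modulo `p` -/
noncomputable def omP (f : Fin r → ℤ[X]) (p : ℕ) : Finset ℕ :=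
  (range p).filter (fun n => ∃ i, (p : ℤ) ∣ (f i).eval (n : ℤ))

/-- no fixed prime divisor -/
def NoFix (f : Fin r → ℤ[X]) : Prop := ∀ p : ℕ, p.Prime → ∃ m : ℕ, ∀ i, ¬ (p : ℤ) ∣ (f i).eval (m : ℤ)

theorem eval_mod (f : ℤ[X]) (p n : ℕ) : (p : ℤ) ∣ f.eval ((n % p : ℕ) : ℤ) ↔ (p : ℤ) ∣ f.eval (n : ℤ) := by
  have h1 : (n : ℤ) - ((n % p : ℕ) : ℤ) ∣ f.eval (n : ℤ) - f.eval ((n % p : ℕ) : ℤ) := sub_dvd_eval_sub _ _ _
  have h2 : (p : ℤ) ∣ (n : ℤ) - ((n % p : ℕ) : ℤ) := by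
    push_cast
    exact Int.dvd_self_sub_emod
  have h3 := h2.trans h1
  constructor
  · intro h
    have := dvd_add h3 h
    rwa [sub_add_cancel] at this
  · intro h
    have := dvd_sub h h3
    rwa [sub_sub_cancel] at this

theorem mem_omP (f : Fin r → ℤ[X]) {p : ℕ} (hp : 0 < p) (n : ℕ) :
    n % p ∈ omP f p ↔ ∃ i, (p : ℤ) ∣ (f i).eval (n : ℤ) := by
  classical
  unfold omP
  rw [mem_filter, mem_range]
  constructor
  · rintro ⟨_, i, hi⟩
    exact ⟨i, (eval_mod (f i) p n).1 hi⟩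
  · rintro ⟨i, hi⟩
    exact ⟨Nat.mod_lt _ hp, i, (eval_mod (f i) p n).2 hi⟩

theorem adm_omP (f : Fin r → ℤ[X]) (hf : NoFix f) {D : ℕ} (hD : ∑ i, (f i).natDegree ≤ D) : Adm D (omP f) := by
  classical
  intro p hp
  have : Fact p.Prime := ⟨hp⟩
  refine ⟨filter_subset _ _, ?_, ?_⟩
  · -- the roots
    obtain ⟨m, hm⟩ := hf p hp
    have hne : ∀ i, (f i).map (Int.castRingHom (ZMod p)) ≠ 0 := by
      intro i h0
      apply hm i
      have h1 : ((f i).map (Int.castRingHom (ZMod p))).eval ((m : ℤ) : ZMod p) = 0 := by rw [h0]; simp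
      rw [← ZMod.intCast_zmod_eq_zero_iff_dvd]
      rw [Polynomial.eval_intCast_map] at h1
      simpa using h1
    have h2 : omP f p ⊆ (univ : Finset (Fin r)).biUnion (fun i =>
        (range p).filter (fun n : ℕ => (p : ℤ) ∣ (f i).eval (n : ℤ))) := by
      intro n hn
      unfold omP at hn
      rw [mem_filter] at hn
      obtain ⟨h3, i, hi⟩ := hn
      rw [mem_biUnion]
      exact ⟨i, mem_univ _, mem_filter.2 ⟨h3, hi⟩⟩
    refine (card_le_card h2).trans (card_biUnion_le.trans (le_trans (sum_le_sum fun i _ => ?_) hD))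
    have h4 : ((range p).filter (fun n : ℕ => (p : ℤ) ∣ (f i).eval (n : ℤ))).card ≤
        ((f i).map (Int.castRingHom (ZMod p))).roots.toFinset.card := by
      apply card_le_card_of_injOn (fun n : ℕ => (n : ZMod p))
      · intro n hn
        rw [mem_coe, mem_filter] at hn
        rw [mem_coe, Multiset.mem_toFinset, mem_roots (hne i), IsRoot.def]
        have h5 : ((f i).map (Int.castRingHom (ZMod p))).eval ((n : ℤ) : ZMod p) =
            (((f i).eval (n : ℤ) : ℤ) : ZMod p) := by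
          rw [Polynomial.eval_intCast_map]
          simp
        rw [Int.cast_natCast] at h5
        show ((f i).map (Int.castRingHom (ZMod p))).eval ((n : ZMod p)) = 0
        rw [h5, ZMod.intCast_zmod_eq_zero_iff_dvd]
        exact hn.2
      · intro a ha b hb hab
        rw [mem_coe, mem_filter, mem_range] at ha hb
        have h5 : ((a : ℕ) : ZMod p) = ((b : ℕ) : ZMod p) := hab
        rw [ZMod.natCast_eq_natCast_iff] at h5
        exact h5.eq_of_lt_of_lt ha.1 hb.1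
    refine h4.trans ((Multiset.toFinset_card_le _).trans ((card_roots' _).trans ?_))
    exact natDegree_map_le
  · obtain ⟨m, hm⟩ := hf p hp
    have h1 : omP f p ⊂ range p := by
      rw [ssubset_iff_of_subset (show omP f p ⊆ range p from filter_subset _ _)]
      refine ⟨m % p, mem_range.2 (Nat.mod_lt _ hp.pos), ?_⟩
      rw [mem_omP f hp.pos]
      rintro ⟨i, hi⟩
      exact hm i hi
    have := card_lt_card h1
    simpa using this

/-- the small values -/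
theorem small_values (f : Fin r → ℤ[X]) (hd : ∀ i, 1 ≤ (f i).natDegree) {D : ℕ}
    (hD : ∑ i, (f i).natDegree ≤ D) (y : ℕ) : ∃ Z : Finset ℕ, Z.card ≤ D * (2 * y + 1) ∧
      ∀ n : ℕ, n ∉ Z → ∀ i, y < ((f i).eval (n : ℤ)).natAbs := by
  classical
  have hne : ∀ i (v : ℤ), f i - C v ≠ 0 := by
    intro i v h
    have h1 : f i = C v := sub_eq_zero.1 h
    have := hd i
    rw [h1, natDegree_C] at this
    omega
  set Z : Finset ℕ := (univ : Finset (Fin r)).biUnion (fun i => (Icc (-(y : ℤ)) y).biUnion (fun v =>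
    (f i - C v).roots.toFinset.image Int.toNat)) with hZ
  refine ⟨Z, ?_, ?_⟩
  · have h1 : ∀ i : Fin r, ((Icc (-(y : ℤ)) y).biUnion (fun v =>
        (f i - C v).roots.toFinset.image Int.toNat)).card ≤ (2 * y + 1) * (f i).natDegree := by
      intro i
      refine (card_biUnion_le_card_mul _ _ (f i).natDegree ?_).trans (le_of_eq ?_)
      · intro v _
        refine card_image_le.trans ((Multiset.toFinset_card_le _).trans ((card_roots' _).trans ?_))
        exact natDegree_sub_C.le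
      · rw [Int.card_Icc]
        congr 1
        omega
    rw [hZ]
    refine card_biUnion_le.trans ((sum_le_sum fun i _ => h1 i).trans ?_)
    rw [← mul_sum, mul_comm]
    exact Nat.mul_le_mul_right _ hD
  · intro n hn i
    by_contra hcon
    rw [not_lt] at hcon
    apply hn
    rw [hZ, mem_biUnion]
    refine ⟨i, mem_univ _, ?_⟩
    rw [mem_biUnion]
    refine ⟨(f i).eval (n : ℤ), ?_, ?_⟩
    · rw [mem_Icc]
      omega
    · rw [mem_image]
      refine ⟨(n : ℤ), ?_, by simp⟩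
      rw [Multiset.mem_toFinset, mem_roots (hne i _), IsRoot.def]
      simp

/-- **The mean square law, uniformly in all polynomials.** -/
theorem pol_rel (D : ℕ) (hD1 : 1 ≤ D) : ∃ (C : ℝ) (x₀ : ℕ), 0 < C ∧ 2 ≤ x₀ ∧ ∀ x : ℕ, x₀ ≤ x →
    ∀ (r : ℕ) (f : Fin r → ℤ[X]), (∀ i, 1 ≤ (f i).natDegree) → ∑ i, (f i).natDegree ≤ D → NoFix f →
    ∀ b : ℕ → ℂ, (∀ n, b n ≠ 0 → ∀ i, ((f i).eval (n : ℤ)).natAbs.Prime) → (∀ n, ‖b n‖ ≤ 1) →
      ∀ K P : ℕ, 1 ≤ K → (∀ d, 1 ≤ d → d ≤ K → d ∣ P) → ∀ Q : ℕ, 1 ≤ Q →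
        ∑ q ∈ Ico Q (2 * Q), ∑ a ∈ range q, ‖DF x b q (Nat.gcd q P) a‖ ^ 2 ≤
          C * ((x * VV (omP f) x) ^ 2 / √K + Q * (x * VV (omP f) x)) := by
  classical
  obtain ⟨C1, hC1, s, hs1, h1⟩ := bdhZ D hD1
  obtain ⟨C2, x₁, hC2, hV⟩ := VV_tail D s hD1 hs1
  obtain ⟨i₁, hi₁⟩ := yy_small D hD1 s hs1 (ε := 1) one_pos
  obtain ⟨c, hc0, hVge⟩ := VV_ge D hD1
  -- the exceptions
  obtain ⟨i₃, hi₃⟩ := eventually_atTop.1 (poly_exp (4 * D) ((2 * ((3 * D : ℝ) ^ 2 / c)) ^ 2))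
  refine ⟨C1 * C2 ^ 2 + C1 * C2 + 2 * C2, max (max x₁ 4) (2 ^ (max (max i₁ i₃) (8 * s + 2))), by positivity, ?_, ?_⟩
  · exact le_trans (by norm_num) ((le_max_right x₁ 4).trans (le_max_left _ _))
  intro x hx r f hd hfD hfix b hb hb1 K P hK hKP Q hQ
  have hx1 : x₁ ≤ x := ((le_max_left _ _).trans (le_max_left _ _)).trans hx
  have hx4 : 4 ≤ x := ((le_max_right _ _).trans (le_max_left _ _)).trans hx
  have hx2 : 2 ^ (max (max i₁ i₃) (8 * s + 2)) ≤ x := (le_max_right _ _).trans hx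
  have a1 := Nat.pow_log_le_self 2 (show x ≠ 0 by omega)
  have a4 : max (max i₁ i₃) (8 * s + 2) ≤ Nat.log 2 x := Nat.le_log_of_pow_le (by norm_num) hx2
  set i := Nat.log 2 x with hi
  have hi8 : 8 * s + 2 ≤ i := (le_max_right _ _).trans a4
  have hii₃ : i₃ ≤ i := ((le_max_right _ _).trans (le_max_left _ _)).trans a4
  have hadm := adm_omP f hfix hfD
  set y := yy s i with hy
  obtain ⟨Z, hZc, hZ⟩ := small_values f hd hfD y
  have hmain := h1 y x (yy_two hs1 (by omega)) ((yy_pow hs1 (by omega)).trans a1) (omP f) hadm Z b (by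
    intro n hn hnZ p hp hmem
    obtain ⟨hpp, hpy⟩ := mem_PR.1 hp
    obtain ⟨j, hj⟩ := (mem_omP f hpp.pos n).1 hmem
    have hprime := hb n hn j
    have h3 : p ∣ ((f j).eval (n : ℤ)).natAbs := Int.natCast_dvd.1 hj
    have h4 : p = ((f j).eval (n : ℤ)).natAbs := (Nat.prime_dvd_prime_iff_eq hpp hprime).1 h3
    have h6 := hZ n hnZ j
    omega) hb1 K P hK hKP Q hQ
  refine hmain.trans ?_
  have hx0 : (0 : ℝ) < x := by exact_mod_cast (by omega : 0 < x)
  have hK0 : (0 : ℝ) < K := by exact_mod_cast hK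
  have hQ0 : (0 : ℝ) < Q := by exact_mod_cast hQ
  have hVy := VV_pos hadm y
  have hVx := VV_pos hadm x
  set U : ℝ := (x : ℝ) * VV (omP f) y with hU
  set E : ℝ := (x : ℝ) * VV (omP f) x with hE
  have hU0 : 0 < U := by positivity
  have hE0 : 0 < E := by positivity
  have hUE : U ≤ C2 * E := by
    calc U ≤ x * (C2 * VV (omP f) x) := mul_le_mul_of_nonneg_left (hV x hx1 _ hadm) hx0.le
      _ = _ := by ring
  have hz2 : (Z.card : ℝ) ^ 2 ≤ U := by
    have b1 : (Z.card : ℝ) ≤ 3 * D * y := by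
      have hy1 : 1 ≤ y := (yy_two hs1 (by omega)).trans' (by norm_num)
      have : Z.card ≤ 3 * D * y := by
        refine hZc.trans ?_
        nlinarith
      exact_mod_cast this
    have h5 := hVge (omP f) hadm i y (by omega) (by
      rw [hy]
      unfold yy
      exact Nat.pow_le_pow_right (by norm_num) (Nat.div_le_self _ _))
    have h6 := hi₃ i hii₃
    set Pw : ℝ := ((i : ℝ) + 1) ^ (2 * D) with hP
    have hP0 : 0 < Pw := by positivity
    have hD0 : (0 : ℝ) < D := by exact_mod_cast hD1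
    have h7 : (2 * ((3 * D : ℝ) ^ 2 / c)) ^ 2 * Pw ^ 2 ≤ 2 ^ i := by
      rw [hP, ← pow_mul]
      have : 2 * D * 2 = 4 * D := by ring
      rw [this]
      exact h6
    have h8 : ((y : ℕ) : ℝ) ^ 4 ≤ 2 ^ i := by
      have : y ^ 4 ≤ 2 ^ i := by
        rw [hy]
        unfold yy
        rw [← pow_mul]
        apply Nat.pow_le_pow_right (by norm_num)
        have h9 : i / (8 * s) ≤ i / 8 := Nat.div_le_div_left (by omega) (by norm_num)
        omega
      exact_mod_cast this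
    have h9 : (2 * ((3 * D : ℝ) ^ 2 / c)) * Pw * (y : ℝ) ^ 2 ≤ 2 ^ i := by
      have h10 : ((2 * ((3 * D : ℝ) ^ 2 / c)) * Pw * (y : ℝ) ^ 2) ^ 2 ≤ (2 ^ i) ^ 2 := by
        calc ((2 * ((3 * D : ℝ) ^ 2 / c)) * Pw * (y : ℝ) ^ 2) ^ 2 =
              ((2 * ((3 * D : ℝ) ^ 2 / c)) ^ 2 * Pw ^ 2) * (y : ℝ) ^ 4 := by ring
          _ ≤ 2 ^ i * 2 ^ i := mul_le_mul h7 h8 (by positivity) (by positivity)
          _ = _ := by ring
      exact (abs_le_of_sq_le_sq' h10 (by positivity)).2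
    have h11 : (2 : ℝ) ^ i ≤ x := by exact_mod_cast a1
    have h12 : (3 * D : ℝ) ^ 2 * (y : ℝ) ^ 2 ≤ 2 ^ i * (c / Pw) := by
      rw [mul_div_assoc', le_div_iff₀ hP0]
      have h13 : 0 ≤ (3 * D : ℝ) ^ 2 * Pw * (y : ℝ) ^ 2 := by positivity
      have h14 : (2 * ((3 * D : ℝ) ^ 2 / c)) * Pw * (y : ℝ) ^ 2 * c = 2 * ((3 * D : ℝ) ^ 2 * Pw * (y : ℝ) ^ 2) := by
        field_simp
      have h15 := mul_le_mul_of_nonneg_right h9 hc0.le
      rw [h14] at h15
      linarith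
    calc (Z.card : ℝ) ^ 2 ≤ (3 * D * y : ℝ) ^ 2 := pow_le_pow_left₀ (Nat.cast_nonneg _) b1 2
      _ = (3 * D : ℝ) ^ 2 * (y : ℝ) ^ 2 := by ring
      _ ≤ 2 ^ i * (c / Pw) := h12
      _ ≤ x * VV (omP f) y := mul_le_mul h11 h5 (by positivity) hx0.le
  have hsK : 0 < √(K : ℝ) := Real.sqrt_pos.2 hK0
  have t1 : U ^ 2 / √K ≤ C2 ^ 2 * (E ^ 2 / √K) := by
    rw [← mul_div_assoc]
    apply div_le_div_of_nonneg_right _ hsK.le
    calc U ^ 2 ≤ (C2 * E) ^ 2 := pow_le_pow_left₀ hU0.le hUE 2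
      _ = _ := by ring
  have t2 : Q * U ≤ C2 * (Q * E) := by
    calc Q * U ≤ Q * (C2 * E) := mul_le_mul_of_nonneg_left hUE hQ0.le
      _ = _ := by ring
  have t3 : 2 * Q * (Z.card : ℝ) ^ 2 ≤ 2 * (Q * U) := by
    calc 2 * Q * (Z.card : ℝ) ^ 2 ≤ 2 * Q * U := mul_le_mul_of_nonneg_left hz2 (by positivity)
      _ = _ := by ring
  have p1 : 0 ≤ E ^ 2 / √K := by positivity
  have p2 : 0 ≤ Q * E := by positivity
  calc C1 * (U ^ 2 / √K + Q * U) + 2 * Q * (Z.card : ℝ) ^ 2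
      ≤ C1 * (C2 ^ 2 * (E ^ 2 / √K) + C2 * (Q * E)) + 2 * (C2 * (Q * E)) := by
        have := mul_le_mul_of_nonneg_left (add_le_add t1 t2) hC1.le
        linarith
    _ ≤ _ := by
        have q1 : 0 ≤ C1 * C2 * (E ^ 2 / √K) := by positivity
        have q2 : 0 ≤ C1 * C2 ^ 2 * (Q * E) := by positivity
        have q3 : 0 ≤ 2 * C2 * (E ^ 2 / √K) := by positivity
        nlinarith

end Pool.Agent.H90.SK
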