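import Pool.Agent.H90.SK.Core

/-! # The large sieve for sifted sets at arbitrary well-spaced points: conclusion -/

set_option autoImplicit false

namespace Pool.Agent.H90.SK

open Finset Pool.Agent.Helper112 Pool.Agent.H90.ST

theorem one_sub_ge {x : ℝ} (h0 : 0 ≤ x) (h1 : x ≤ 1 / 2) : Real.exp (-(2 * x)) ≤ 1 - x := by
  rw [Real.exp_neg, inv_le_comm₀ (Real.exp_pos _) (by linarith)]
  have h2 := Real.add_one_le_exp (2 * x)
  refine le_trans ?_ h2
  rw [inv_eq_one_div, div_le_iff₀ (by linarith)]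
  nlinarith

theorem prod_few (k : ℕ) (hk : 1 ≤ k) : ∃ c : ℝ, 0 < c ∧ ∀ Om : ℕ → Finset ℕ, Adm k Om →
    ∀ (m : ℕ) (P : Finset ℕ), 3 ≤ m → P.card ≤ m → (∀ p ∈ P, p.Prime) →
      c / (Real.log m) ^ (2 * k) ≤ ∏ p ∈ P, (1 - ((Om p).card : ℝ) / p) := by
  classical
  obtain ⟨c, hc0, hc⟩ := prod_primes_ge
  have hk0 : (1 : ℝ) ≤ k := by exact_mod_cast hk
  refine ⟨(1 / (2 * (k : ℝ))) ^ (2 * k) * c ^ (2 * k), by positivity, ?_⟩
  intro Om hOm m P hm hPm hP
  have hlm : 0 < Real.log m := Real.log_pos (by exact_mod_cast (by omega : 1 < m))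
  have h1 := hc m P hm hPm hP
  have h2 : ∀ p ∈ P, (if p ≤ 2 * k then 1 / (2 * (k : ℝ)) else 1) * (1 - 1 / (p : ℝ)) ^ (2 * k) ≤
      1 - ((Om p).card : ℝ) / p := by
    intro p hp
    have hpp := hP p hp
    obtain ⟨_, a1, a2⟩ := hOm p hpp
    have hp2 : (2 : ℝ) ≤ p := by exact_mod_cast hpp.two_le
    have hp0 : (0 : ℝ) < p := by linarith
    have a3 : ((Om p).card : ℝ) ≤ k := by exact_mod_cast a1
    have a4 : ((Om p).card : ℝ) + 1 ≤ p := by exact_mod_cast a2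
    have a5 : 0 ≤ 1 - 1 / (p : ℝ) := by
      rw [sub_nonneg, div_le_one hp0]; linarith
    have a6 : 1 - 1 / (p : ℝ) ≤ 1 := by
      have : 0 ≤ 1 / (p : ℝ) := by positivity
      linarith
    have a7 : (1 - 1 / (p : ℝ)) ^ (2 * k) ≤ 1 := pow_le_one₀ a5 a6
    split_ifs with h
    · have b1 : (p : ℝ) ≤ 2 * k := by exact_mod_cast h
      have b2 : 1 / (2 * (k : ℝ)) ≤ 1 / p := one_div_le_one_div_of_le hp0 b1
      have b3 : 1 / (p : ℝ) ≤ 1 - ((Om p).card : ℝ) / p := by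
        rw [le_sub_iff_add_le, ← add_div, div_le_one hp0]
        linarith
      calc 1 / (2 * (k : ℝ)) * (1 - 1 / (p : ℝ)) ^ (2 * k) ≤ 1 / (2 * (k : ℝ)) * 1 :=
            mul_le_mul_of_nonneg_left a7 (by positivity)
        _ ≤ _ := by linarith
    · have b1 : 2 * (k : ℝ) ≤ p := by exact_mod_cast (by omega : 2 * k ≤ p)
      have b2 : (k : ℝ) / p ≤ 1 / 2 := by
        rw [div_le_div_iff₀ hp0 (by norm_num)]; linarith
      have b3 := one_sub_ge (x := (k : ℝ) / p) (by positivity) b2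
      have b4 : (1 - 1 / (p : ℝ)) ^ (2 * k) ≤ Real.exp (-(2 * ((k : ℝ) / p))) := by
        have c1 : 1 - 1 / (p : ℝ) ≤ Real.exp (-(1 / (p : ℝ))) := Real.one_sub_le_exp_neg _
        calc (1 - 1 / (p : ℝ)) ^ (2 * k) ≤ Real.exp (-(1 / (p : ℝ))) ^ (2 * k) :=
              pow_le_pow_left₀ a5 c1 _
          _ = _ := by
              rw [← Real.exp_nat_mul]
              congr 1
              push_cast
              ring
      have b5 : ((Om p).card : ℝ) / p ≤ k / p := div_le_div_of_nonneg_right a3 hp0.le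
      linarith
  have h3 : ∏ p ∈ P, ((if p ≤ 2 * k then 1 / (2 * (k : ℝ)) else 1) * (1 - 1 / (p : ℝ)) ^ (2 * k)) ≤
      ∏ p ∈ P, (1 - ((Om p).card : ℝ) / p) := by
    apply prod_le_prod _ h2
    intro p hp
    apply mul_nonneg
    · split_ifs <;> positivity
    · apply pow_nonneg
      rw [sub_nonneg, div_le_one (by exact_mod_cast (hP p hp).pos)]
      exact_mod_cast (hP p hp).one_lt.le
  refine le_trans ?_ h3
  rw [prod_mul_distrib, prod_pow, mul_div_assoc]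
  have h4 : (1 / (2 * (k : ℝ))) ^ (2 * k) ≤ ∏ p ∈ P, (if p ≤ 2 * k then 1 / (2 * (k : ℝ)) else 1) := by
    rw [prod_ite, prod_const_one, mul_one, prod_const]
    apply pow_le_pow_of_le_one (by positivity)
    · rw [div_le_one (by positivity)]; linarith
    · calc (P.filter (fun p => p ≤ 2 * k)).card ≤ (Icc 1 (2 * k)).card := by
            apply card_le_card
            intro p hp
            rw [mem_filter] at hp
            rw [mem_Icc]
            exact ⟨(hP p hp.1).pos, hp.2⟩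
        _ = 2 * k := by simp
  have h5 : c ^ (2 * k) / Real.log m ^ (2 * k) ≤ (∏ p ∈ P, (1 - 1 / (p : ℝ))) ^ (2 * k) := by
    rw [← div_pow]
    exact pow_le_pow_left₀ (by positivity) h1 _
  exact mul_le_mul h4 h5 (by positivity) (le_trans (by positivity) h4)

theorem split_VV {k : ℕ} {Om : ℕ → Finset ℕ} (hOm : Adm k Om) (y : ℕ) (P : Finset ℕ) :
    (∏ p ∈ PR y \ P, (1 + JJ Om p)) * VV Om y = ∏ p ∈ PR y ∩ P, (1 - ((Om p).card : ℝ) / p) := by
  classical
  unfold VV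
  have h1 : ∏ p ∈ PR y, (1 - ((Om p).card : ℝ) / p) =
      (∏ p ∈ PR y \ P, (1 - ((Om p).card : ℝ) / p)) * ∏ p ∈ PR y ∩ P, (1 - ((Om p).card : ℝ) / p) := by
    rw [← prod_union (disjoint_sdiff_inter _ _), sdiff_union_inter]
  rw [h1, ← mul_assoc, ← prod_mul_distrib]
  have h2 : ∏ p ∈ PR y \ P, ((1 + JJ Om p) * (1 - ((Om p).card : ℝ) / p)) = 1 := by
    apply prod_eq_one
    intro p hp
    exact one_add_JJ hOm (mem_PR.1 (mem_sdiff.1 hp).1).1
  rw [h2, one_mul]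

/-- the sifted integers up to `N` -/
def SF (Om : ℕ → Finset ℕ) (y N : ℕ) : Finset ℕ := (Icc 1 N).filter (fun n => ∀ p ∈ PR y, n % p ∉ Om p)

/-- the inequality before the bound for the number of the sifted integers -/
theorem pre (k : ℕ) (hk : 1 ≤ k) : ∃ C : ℝ, 0 < C ∧ ∃ s : ℕ, 1 ≤ s ∧ ∀ y N : ℕ, 2 ≤ y →
    2 * y ^ (4 * s) ≤ N → ∀ Om : ℕ → Finset ℕ, Adm k Om → ∀ (ι : Type) [DecidableEq ι] (R : Finset ι)
      (ξ : ι → ℝ), R.Nonempty → (∀ r ∈ R, ∀ s ∈ R, r ≠ s → lsSep N (ξ s - ξ r)) → ∀ b : ℕ → ℂ,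
      (∀ n, b n ≠ 0 → ∀ p ∈ PR y, n % p ∉ Om p) →
        ∑ r ∈ R, ‖TT N b (ξ r)‖ ^ 2 ≤
          C * Real.log (2 * R.card) ^ (2 * k) * (N * VV Om y) * ∑ n ∈ Icc 1 N, ‖b n‖ ^ 2 := by
  classical
  obtain ⟨c, hc0, hc⟩ := prod_few k hk
  obtain ⟨s, hs1, hs⟩ := rankin k hk
  refine ⟨24 * 2 ^ (2 * k) / c, by positivity, s, hs1, ?_⟩
  intro y N hy hyN Om hOm ι _ R ξ hR hsep b hb
  have hN1 : 1 ≤ N := by
    have : 1 ≤ y ^ (4 * s) := Nat.one_le_pow _ _ (by omega)
    omega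
  have hr1 : 1 ≤ R.card := card_pos.2 hR
  have hr1' : (1 : ℝ) ≤ R.card := by exact_mod_cast hr1
  obtain ⟨P, hPp, hPc, hcore⟩ := core R ξ N N y s N hN1 le_rfl (by rw [← pow_mul, mul_comm s 4]; exact hyN)
    hsep b hOm (hs y hy Om hOm) hb
  set m : ℕ := max 3 (R.card ^ 2) with hm
  have hm3 : 3 ≤ m := le_max_left _ _
  have hV := VV_pos hOm y
  have hlm : 0 < Real.log m := Real.log_pos (by exact_mod_cast (by omega : 1 < m))
  have hm2 : (m : ℝ) ≤ (2 * R.card) ^ 2 := by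
    have : m ≤ (2 * R.card) ^ 2 := by
      rw [hm, max_le_iff]
      constructor
      · nlinarith
      · nlinarith
    exact_mod_cast this
  set Y := Real.log (2 * R.card) with hY
  have hY0 : 0 < Y := Real.log_pos (by linarith)
  have hlm2 : Real.log m ≤ 2 * Y := by
    calc Real.log m ≤ Real.log ((2 * (R.card : ℝ)) ^ 2) :=
          Real.log_le_log (by exact_mod_cast (by omega : 0 < m)) hm2
      _ = _ := by rw [Real.log_pow, hY]; norm_num
  have h1 : c / (2 * Y) ^ (2 * k) / VV Om y ≤ ∏ p ∈ PR y \ P, (1 + JJ Om p) := by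
    rw [div_le_iff₀ hV, split_VV hOm]
    refine le_trans ?_ (hc Om hOm m (PR y ∩ P) hm3 ?_ ?_)
    · apply div_le_div_of_nonneg_left hc0.le (by positivity)
      exact pow_le_pow_left₀ hlm.le hlm2 _
    · exact (card_le_card inter_subset_right).trans (hPc.trans (le_max_right _ _))
    · intro p hp; exact (mem_PR.1 (mem_inter.1 hp).1).1
  set X := ∑ r ∈ R, ‖TT N b (ξ r)‖ ^ 2 with hX
  have hX0 : 0 ≤ X := sum_nonneg fun _ _ => by positivity
  set B := ∑ n ∈ Icc 1 N, ‖b n‖ ^ 2 with hB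
  have h2 : X * (1 / 2 * (c / (2 * Y) ^ (2 * k) / VV Om y)) ≤ 6 * ((N : ℝ) + N) * B := by
    refine le_trans ?_ hcore
    apply mul_le_mul_of_nonneg_left _ hX0
    linarith
  have h3 : 24 * 2 ^ (2 * k) / c * Y ^ (2 * k) * (N * VV Om y) * B =
      (6 * ((N : ℝ) + N) * B) / (1 / 2 * (c / (2 * Y) ^ (2 * k) / VV Om y)) := by
    rw [mul_pow]
    field_simp
    ring
  rw [h3, le_div_iff₀ (by positivity)]
  exact h2

/-- **The number of the sifted integers.** -/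
theorem count_SF (k : ℕ) (hk : 1 ≤ k) : ∃ C : ℝ, 0 < C ∧ ∃ s : ℕ, 1 ≤ s ∧ ∀ y N : ℕ, 2 ≤ y →
    2 * y ^ (4 * s) ≤ N → ∀ Om : ℕ → Finset ℕ, Adm k Om → ((SF Om y N).card : ℝ) ≤ C * (N * VV Om y) := by
  classical
  obtain ⟨C, hC0, s, hs1, h⟩ := pre k hk
  refine ⟨C * Real.log 2 ^ (2 * k), by have := Real.log_pos (show (1:ℝ) < 2 by norm_num); positivity, s, hs1, ?_⟩
  intro y N hy hyN Om hOm
  set b : ℕ → ℂ := fun n => if ∀ p ∈ PR y, n % p ∉ Om p then 1 else 0 with hb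
  have h1 := h y N hy hyN Om hOm Unit {()} (fun _ => 0) (singleton_nonempty _)
    (fun r _ s _ hrs => absurd (Subsingleton.elim r s) hrs) b (by
      intro n hn
      simp only [hb] at hn
      by_contra hcon
      rw [if_neg hcon] at hn
      exact hn rfl)
  rw [sum_singleton] at h1
  have e1 : TT N b 0 = ((SF Om y N).card : ℂ) := by
    unfold TT SF
    rw [card_filter]
    push_cast
    apply sum_congr rfl
    intro n _
    simp only [hb, mul_zero, ls_ee_zero, mul_one]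
  have e2 : ∑ n ∈ Icc 1 N, ‖b n‖ ^ 2 = ((SF Om y N).card : ℝ) := by
    unfold SF
    rw [card_filter]
    push_cast
    apply sum_congr rfl
    intro n _
    simp only [hb]
    split_ifs <;> simp
  rw [e1, e2] at h1
  have e3 : ‖((SF Om y N).card : ℂ)‖ = ((SF Om y N).card : ℝ) := by simp
  rw [e3] at h1
  rw [card_singleton, Nat.cast_one, mul_one] at h1
  rcases Nat.eq_zero_or_pos (SF Om y N).card with h0 | h0
  · rw [h0]
    have := VV_pos hOm y
    have h2 : 0 < Real.log 2 := Real.log_pos (by norm_num)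
    simp only [Nat.cast_zero]
    positivity
  · have h0' : (0 : ℝ) < ((SF Om y N).card : ℝ) := by exact_mod_cast h0
    have h2 : ((SF Om y N).card : ℝ) * ((SF Om y N).card : ℝ) ≤
        (C * Real.log 2 ^ (2 * k) * (N * VV Om y)) * ((SF Om y N).card : ℝ) := by
      calc ((SF Om y N).card : ℝ) * ((SF Om y N).card : ℝ) = ((SF Om y N).card : ℝ) ^ 2 := by ring
        _ ≤ _ := h1
    exact le_of_mul_le_mul_right h2 h0'

/-- **The large sieve for sifted sets at arbitrary well-spaced points.** -/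
theorem lsk (k : ℕ) (hk : 1 ≤ k) : ∃ C : ℝ, 0 < C ∧ ∃ s : ℕ, 1 ≤ s ∧ ∀ y N : ℕ, 2 ≤ y →
    2 * y ^ (4 * s) ≤ N → ∀ Om : ℕ → Finset ℕ, Adm k Om → ∀ (ι : Type) [DecidableEq ι] (R : Finset ι)
      (ξ : ι → ℝ), R.Nonempty → (∀ r ∈ R, ∀ s ∈ R, r ≠ s → lsSep N (ξ s - ξ r)) → ∀ b : ℕ → ℂ,
      (∀ n, b n ≠ 0 → ∀ p ∈ PR y, n % p ∉ Om p) → (∀ n, ‖b n‖ ≤ 1) →
        ∑ r ∈ R, ‖TT N b (ξ r)‖ ^ 2 ≤ C * Real.log (2 * R.card) ^ (2 * k) * (N * VV Om y) ^ 2 ∧
        ∑ n ∈ Icc 1 N, ‖b n‖ ^ 2 ≤ C * (N * VV Om y) := by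
  classical
  obtain ⟨C1, hC1, s1, hs1, h1⟩ := pre k hk
  obtain ⟨C2, hC2, s2, hs2, h2⟩ := count_SF k hk
  refine ⟨C1 * C2 + C2, by positivity, max s1 s2, le_trans hs1 (le_max_left _ _), ?_⟩
  intro y N hy hyN Om hOm ι _ R ξ hR hsep b hb hb1
  have hy1 : 2 * y ^ (4 * s1) ≤ N := by
    refine le_trans ?_ hyN
    apply Nat.mul_le_mul_left
    apply Nat.pow_le_pow_right (by omega)
    exact Nat.mul_le_mul_left _ (le_max_left _ _)
  have hy2 : 2 * y ^ (4 * s2) ≤ N := by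
    refine le_trans ?_ hyN
    apply Nat.mul_le_mul_left
    apply Nat.pow_le_pow_right (by omega)
    exact Nat.mul_le_mul_left _ (le_max_right _ _)
  have a1 := h1 y N hy hy1 Om hOm ι R ξ hR hsep b hb
  have a2 := h2 y N hy hy2 Om hOm
  have a3 : ∑ n ∈ Icc 1 N, ‖b n‖ ^ 2 ≤ ((SF Om y N).card : ℝ) := by
    unfold SF
    rw [card_filter]
    push_cast
    apply sum_le_sum
    intro n _
    split_ifs with h
    · have := hb1 n
      nlinarith [norm_nonneg (b n)]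
    · have : b n = 0 := by
        by_contra hn
        exact h (hb n hn)
      rw [this]; simp
  have hV := VV_pos hOm y
  have hr1' : (1 : ℝ) ≤ R.card := by exact_mod_cast (card_pos.2 hR)
  have hY0 : 0 < Real.log (2 * R.card) := Real.log_pos (by linarith)
  have a4 := a3.trans a2
  constructor
  · refine a1.trans ?_
    calc C1 * Real.log (2 * R.card) ^ (2 * k) * (N * VV Om y) * ∑ n ∈ Icc 1 N, ‖b n‖ ^ 2
        ≤ C1 * Real.log (2 * R.card) ^ (2 * k) * (N * VV Om y) * (C2 * (N * VV Om y)) :=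
          mul_le_mul_of_nonneg_left a4 (by positivity)
      _ = (C1 * C2) * Real.log (2 * R.card) ^ (2 * k) * (N * VV Om y) ^ 2 := by ring
      _ ≤ _ := by
          apply mul_le_mul_of_nonneg_right _ (by positivity)
          apply mul_le_mul_of_nonneg_right _ (by positivity)
          linarith
  · refine a4.trans ?_
    apply mul_le_mul_of_nonneg_right _ (by positivity)
    have : 0 < C1 * C2 := by positivity
    linarith

end Pool.Agent.H90.SK
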