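import Pool.Agent.H90.SK.Cell
import Pool.Graph.R_pool_sql_team_seeded_2aa45f1a.Results.MP_485179_nt.AlmostPrimeProgressions

/-! # The sieve data of a tuple -/

set_option autoImplicit false

namespace Pool.Agent.H90.SK

open Finset Filter Topology Pool.Agent.Helper112 Pool.Agent.H90.ST
open scoped ENNReal

open Pool.Agent.Results.MP_485179_nt.AlmostPrimeProgressions (nu loc 𝔖 w_TT adm_of_ne prim_TT card_TT VV_eq)
open Pool.Agent.H386R2.HL Pool.Agent.H387R2.Uni

/-- the classes `n` with a zero of `n + t` -/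
def omT (T : Finset ℕ) : ℕ → Finset ℕ :=
  Pool.Agent.Y840.PT.ZT (Pool.Agent.Results.MP_485179_nt.AlmostPrimeProgressions.TT T)

theorem mem_omT (T : Finset ℕ) {p : ℕ} (hp : 0 < p) (n : ℕ) : n % p ∈ omT T p ↔ ∃ t ∈ T, p ∣ n + t := by
  unfold omT
  rw [Pool.Agent.Y840.PT.mem_ZT _ hp]
  constructor
  · rintro ⟨L, hL, h⟩
    obtain ⟨t, ht, rfl⟩ := Pool.Agent.Results.MP_485179_nt.AlmostPrimeProgressions.mem_TT.1 hL
    exact ⟨t, ht, by simpa using h⟩
  · rintro ⟨t, ht, h⟩
    exact ⟨(1, t), Pool.Agent.Results.MP_485179_nt.AlmostPrimeProgressions.mem_TT.2 ⟨t, ht, rfl⟩,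
      by simpa using h⟩

theorem card_omT (T : Finset ℕ) {p : ℕ} (hp : p.Prime) :
    (omT T p).card = Pool.Agent.Results.MP_485179_nt.AlmostPrimeProgressions.nu T p := by
  unfold omT
  rw [Pool.Agent.Y840.PT.card_ZT, w_TT T hp]

theorem adm_omT {T : Finset ℕ} (h : 𝔖 T ≠ 0) {l : ℕ} (hl : T.card ≤ l) : Adm l (omT T) := by
  intro p hp
  refine ⟨filter_subset _ _, ?_, ?_⟩
  · rw [card_omT T hp]
    exact card_image_le.trans hl
  · rw [card_omT T hp]
    exact adm_of_ne h p hp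

theorem VV_omT (T : Finset ℕ) (y : ℕ) : VV (omT T) y = Pool.Agent.Q212.Sing.VT T y := by
  rw [← VV_eq]
  unfold VV Pool.Agent.Y843.HS.VV
  congr 1

theorem lf_ge (r : ℕ) (a : Fin r → ℕ) {p : ℕ} (hp : p.Prime) (hpr : r < p) :
    1 - (r : ℝ) ^ 2 * (1 / (p : ℝ) ^ 2) ≤ localFactor a p := by
  unfold localFactor
  have hp0 : (0 : ℝ) < p := by exact_mod_cast hp.pos
  have hp1 : (1 : ℝ) < p := by exact_mod_cast hp.one_lt
  have h1 : (r : ℝ) < p := by exact_mod_cast hpr
  have h2 : ((nu a p : ℕ) : ℝ) ≤ r := by exact_mod_cast nu_le_r a p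
  have h3 : 1 - (r : ℝ) / p ≤ 1 - ((nu a p : ℕ) : ℝ) / p := by
    have := div_le_div_of_nonneg_right h2 hp0.le
    linarith
  have h4 : (0 : ℝ) ≤ 1 - (r : ℝ) / p := by
    rw [sub_nonneg, div_le_one hp0]; exact h1.le
  have h5 : 1 + 1 / (p : ℝ) ≤ (1 - 1 / (p : ℝ))⁻¹ := by
    have h6 : 0 < 1 - 1 / (p : ℝ) := one_sub_pos hp
    rw [le_inv_comm₀ (by positivity) h6, inv_eq_one_div, le_div_iff₀ (by positivity)]
    have : (1 - 1 / (p : ℝ)) * (1 + 1 / p) = 1 - (1 / (p : ℝ)) ^ 2 := by ring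
    rw [this]
    have : 0 ≤ (1 / (p : ℝ)) ^ 2 := by positivity
    linarith
  have h7 : 1 + (r : ℝ) / p ≤ (1 - 1 / (p : ℝ))⁻¹ ^ r := by
    have h8 := one_add_mul_le_pow (show (-2 : ℝ) ≤ 1 / (p : ℝ) by
      have : 0 ≤ 1 / (p : ℝ) := by positivity
      linarith) r
    calc 1 + (r : ℝ) / p = 1 + (r : ℝ) * (1 / p) := by ring
      _ ≤ (1 + 1 / (p : ℝ)) ^ r := h8
      _ ≤ _ := pow_le_pow_left₀ (by positivity) h5 r
  calc 1 - (r : ℝ) ^ 2 * (1 / (p : ℝ) ^ 2) = (1 + (r : ℝ) / p) * (1 - (r : ℝ) / p) := by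
        field_simp
        ring
    _ ≤ (1 - 1 / (p : ℝ))⁻¹ ^ r * (1 - ((nu a p : ℕ) : ℝ) / p) :=
        mul_le_mul h7 h3 h4 (by
          have := one_le_inv hp
          positivity)

/-- the truncation of the singular series, without a restriction on the size of the shifts -/
theorem sy_le' (r : ℕ) (a : Fin r → ℕ) (ha : Function.Injective a) (y : ℕ)
    (hy1 : 1 ≤ y) (hyr : 4 * r ^ 2 ≤ y) : sy a y ≤ 2 * singularSeries a := by
  classical
  have hm := (multipliable_localFactor a ha).hasProd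
  unfold singularSeries
  set s0 : Finset Nat.Primes := (y + 1).primesBelow.preimage (fun p : Nat.Primes => (p : ℕ))
    Subtype.val_injective.injOn with hs0
  have hs0' : ∀ p : Nat.Primes, p ∈ s0 ↔ (p : ℕ) ≤ y := by
    intro p
    rw [hs0, mem_preimage, Nat.mem_primesBelow]
    constructor
    · rintro ⟨h, _⟩; omega
    · intro h; exact ⟨by omega, p.2⟩
  have key : sy a y / 2 ≤ ∏' p : Nat.Primes, localFactor a p := by
    refine ge_of_tendsto hm ?_
    filter_upwards [Filter.eventually_ge_atTop s0] with s hs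
    have hsplit : ∏ p ∈ s, localFactor a (p : ℕ) =
        (∏ p ∈ s0, localFactor a (p : ℕ)) * ∏ p ∈ s \ s0, localFactor a (p : ℕ) := by
      rw [mul_comm, prod_sdiff hs]
    rw [hsplit]
    have h1 : ∏ p ∈ s0, localFactor a (p : ℕ) = sy a y := by
      unfold sy
      rw [hs0]
      refine prod_preimage (fun p : Nat.Primes => (p : ℕ)) _ Subtype.val_injective.injOn
        (fun p : ℕ => localFactor a p) ?_
      intro p hp hp2
      exact absurd ⟨⟨p, Nat.prime_of_mem_primesBelow hp⟩, rfl⟩ hp2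
    rw [h1, div_eq_mul_inv]
    apply mul_le_mul_of_nonneg_left _ (sy_nonneg a y)
    have hlarge : ∀ p ∈ s \ s0, y < (p : ℕ) := by
      intro p hp
      have hp2 := (Finset.mem_sdiff.1 hp).2
      rw [hs0'] at hp2
      omega
    have hry : r ≤ y := by nlinarith [Nat.zero_le r]
    -- replace by minimum with one
    have h7 : ∏ p ∈ s \ s0, min 1 (localFactor a (p : ℕ)) ≤ ∏ p ∈ s \ s0, localFactor a (p : ℕ) := by
      apply Finset.prod_le_prod
      · intro p _
        exact le_min zero_le_one (localFactor_nonneg a p.2)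
      · intro p _
        exact min_le_right _ _
    refine le_trans ?_ h7
    have h8 := Pool.Agent.Q212.Sing.one_sub_sum_le (s \ s0) (fun p : Nat.Primes => min 1 (localFactor a (p : ℕ)))
      (fun p _ => le_min zero_le_one (localFactor_nonneg a p.2)) (fun p _ => min_le_left _ _)
    refine le_trans ?_ h8
    have hsum : ∑ p ∈ s \ s0, (1 - min 1 (localFactor a (p : ℕ))) ≤ 1 / 2 := by
      calc ∑ p ∈ s \ s0, (1 - min 1 (localFactor a (p : ℕ))) ≤
            ∑ p ∈ s \ s0, (r : ℝ) ^ 2 * (1 / ((p : ℕ) : ℝ) ^ 2) := by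
            apply sum_le_sum
            intro p hp
            have h2 := hlarge p hp
            have h3 := lf_ge r a p.2 (by omega)
            have h4 : 0 ≤ (r : ℝ) ^ 2 * (1 / ((p : ℕ) : ℝ) ^ 2) := by positivity
            rcases le_total 1 (localFactor a (p : ℕ)) with h | h
            · rw [min_eq_left h, sub_self]
              exact h4
            · rw [min_eq_right h]
              linarith
        _ = (r : ℝ) ^ 2 * ∑ p ∈ (s \ s0).image (fun p : Nat.Primes => (p : ℕ)), 1 / (p : ℝ) ^ 2 := by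
            rw [← mul_sum, sum_image]
            intro x _ z _ hxz
            exact Subtype.val_injective hxz
        _ ≤ (r : ℝ) ^ 2 * (2 / y) := by
            apply mul_le_mul_of_nonneg_left _ (by positivity)
            apply Pool.Agent.Q212.Sing.tail_sum y hy1
            intro p hp
            rw [mem_image] at hp
            obtain ⟨q, hq, rfl⟩ := hp
            exact hlarge q hq
        _ ≤ 1 / 2 := by
            have h5 : (0 : ℝ) < y := by exact_mod_cast hy1
            have h6 : (4 : ℝ) * (r : ℝ) ^ 2 ≤ y := by exact_mod_cast hyr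
            rw [mul_div_assoc', div_le_div_iff₀ h5 (by norm_num)]
            linarith
    have h10 : (2 : ℝ)⁻¹ = 1 / 2 := by norm_num
    rw [h10]
    linarith
  linarith

/-- **The sieve product and the singular series.** -/
theorem VV_le_S (r : ℕ) : ∃ C : ℝ, 0 < C ∧ ∀ y : ℕ, 4 * r ^ 2 + 2 ≤ y → ∀ T : Finset ℕ, T.card = r →
    VV (omT T) y ≤ C * 𝔖 T / Real.log y ^ r := by
  obtain ⟨c₁, c₂, h1, h2, h⟩ := Pool.Agent.H318R2.Cr.cz_bounds
  have h2' : 0 < c₂ := h1.trans_le h2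
  refine ⟨2 * c₂ ^ r, by positivity, fun y hy T hT => ?_⟩
  have hy2 : 2 ≤ y := by omega
  obtain ⟨h3, h4⟩ := h y hy2
  have hlog : 0 < Real.log y := Real.log_pos (by exact_mod_cast (by omega : 1 < y))
  have hV := Pool.Agent.H318R2.Cr.V_pos y
  have h6 := sy_le' _ (en T) (en_inj T) y (by omega) (by rw [hT]; omega)
  rw [CT_en] at h6
  have h7 := CT_nonneg T
  have hS0 := sy_nonneg (en T) y
  rw [VV_omT, Pool.Agent.Q212.Sing.VT_eq]
  obtain ⟨S, hS⟩ : ∃ S, S = sy (en T) y := ⟨_, rfl⟩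
  rw [← hS] at h6 hS0 ⊢
  rw [hT]
  have e2 : Pool.Agent.H318R2.Cr.V y ^ r * Real.log y ^ r ≤ c₂ ^ r := by
    rw [← mul_pow]
    exact pow_le_pow_left₀ (by positivity) h4 r
  have hl : 0 < Real.log y ^ r := by positivity
  have hVr : 0 < Pool.Agent.H318R2.Cr.V y ^ r := by positivity
  have e3 : 𝔖 T = CT T := rfl
  rw [le_div_iff₀ hl, e3]
  calc S * Pool.Agent.H318R2.Cr.V y ^ r * Real.log y ^ r =
      S * (Pool.Agent.H318R2.Cr.V y ^ r * Real.log y ^ r) := by ring
    _ ≤ S * c₂ ^ r := mul_le_mul_of_nonneg_left e2 hS0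
    _ ≤ (2 * CT T) * c₂ ^ r := mul_le_mul_of_nonneg_right h6 (by positivity)
    _ = _ := by ring

theorem S_nonneg (T : Finset ℕ) : 0 ≤ 𝔖 T := CT_nonneg T

end Pool.Agent.H90.SK
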