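import Pool.Agent.H90.SK.Tf
import Pool.Agent.H90.SK.Main
import Pool.Agent.H90.SK.Tup
import Pool.Graph.R_seed8.H373R2.T7.Crt
import Pool.Graph.R_seed8.Helper112.Arith

/-! # Explicit main terms in the residue classes to large moduli -/

set_option autoImplicit false

namespace Pool.Agent.H90.SK

open Finset

/-- the class `a` modulo `q` is not sieved out -/
def AD (Om : ℕ → Finset ℕ) (q a : ℕ) : Prop := ∀ p ∈ q.primeFactors, a % p ∉ Om p

open Classical in
/-- the number of the classes modulo `q` which are not sieved out -/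
noncomputable def ad (Om : ℕ → Finset ℕ) (q : ℕ) : ℕ := ((range q).filter (AD Om q)).card

open Classical in
/-- the weight of a class -/
noncomputable def mm (Om : ℕ → Finset ℕ) (q a : ℕ) : ℝ := if AD Om q a then 1 / (ad Om q : ℝ) else 0

theorem AD_mod {Om : ℕ → Finset ℕ} {q g : ℕ} (hg : q ∣ g) (a : ℕ) : AD Om q (a % g) ↔ AD Om q a := by
  unfold AD
  have : ∀ p ∈ q.primeFactors, a % g % p = a % p := fun p hp =>
    Nat.mod_mod_of_dvd a ((Nat.dvd_of_mem_primeFactors hp).trans hg)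
  constructor
  · intro h p hp
    rw [← this p hp]
    exact h p hp
  · intro h p hp
    rw [this p hp]
    exact h p hp

theorem AD_dvd {Om : ℕ → Finset ℕ} {q g : ℕ} (hq : 1 ≤ q) (hg : g ∣ q) {a : ℕ} (h : AD Om q a) : AD Om g a :=
  fun p hp => h p (Nat.primeFactors_mono hg (by omega) hp)

theorem mm_nonneg (Om : ℕ → Finset ℕ) (q a : ℕ) : 0 ≤ mm Om q a := by
  unfold mm
  split_ifs <;> positivity

theorem ad_eq {k : ℕ} {Om : ℕ → Finset ℕ} (h : Adm k Om) {q : ℕ} (hq : 1 ≤ q) :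
    (ad Om q : ℝ) = q * ∏ p ∈ q.primeFactors, (1 - ((Om p).card : ℝ) / p) := by
  classical
  have hS : ∀ p ∈ q.primeFactors, p.Prime := fun p hp => Nat.prime_of_mem_primeFactors hp
  set r : ℕ := ∏ p ∈ q.primeFactors, p with hr
  have hrq : r ∣ q := Nat.prod_primeFactors_dvd q
  have hr0 : 0 < r := Nat.pos_of_dvd_of_pos hrq (by omega)
  obtain ⟨m, hm⟩ := hrq
  have h1 := sum_modT r m (fun a => if AD Om q a then 1 else 0)
  have h2 : ∀ a ∈ range (r * m), (fun a => if AD Om q a then (1 : ℝ) else 0) (a % r) =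
      if AD Om q a then 1 else 0 := by
    intro a _
    have : AD Om q (a % r) ↔ AD Om q a := by
      unfold AD
      have e : ∀ p ∈ q.primeFactors, a % r % p = a % p := fun p hp =>
        Nat.mod_mod_of_dvd a (dvd_prod_of_mem (fun p => p) hp)
      constructor
      · intro h p hp
        rw [← e p hp]
        exact h p hp
      · intro h p hp
        rw [e p hp]
        exact h p hp
    simp only [this]
  rw [sum_congr rfl h2, ← hm] at h1
  have h3 : (ad Om q : ℝ) = ∑ a ∈ range q, if AD Om q a then (1 : ℝ) else 0 := by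
    unfold ad
    rw [← sum_filter, sum_const, nsmul_eq_mul, mul_one]
  rw [h3, h1]
  have h4 : ∑ a ∈ range r, (if AD Om q a then (1 : ℝ) else 0) = ∏ p ∈ q.primeFactors, ((p : ℝ) - (Om p).card) := by
    rw [← sum_filter, sum_const, nsmul_eq_mul, mul_one]
    have h5 := Pool.Agent.H373R2.T7.crt_aux (fun p b => b ∉ Om p) q.primeFactors hS 1 le_rfl
      (fun p hp hd => (hS p hp).one_lt.ne' (Nat.dvd_one.1 hd)) 0
    rw [one_mul] at h5
    have h6 : (range r).filter (fun a => AD Om q a) =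
        (range (∏ p ∈ q.primeFactors, p)).filter (fun n => n ≡ 0 [MOD 1] ∧ ∀ p ∈ q.primeFactors, n % p ∉ Om p) := by
      ext a
      rw [mem_filter, mem_filter]
      unfold AD
      constructor
      · rintro ⟨h7, h8⟩
        exact ⟨h7, Nat.modEq_one, h8⟩
      · rintro ⟨h7, _, h8⟩
        exact ⟨h7, h8⟩
    rw [h6, h5]
    push_cast
    apply prod_congr rfl
    intro p hp
    obtain ⟨h7, h8, h9⟩ := h p (hS p hp)
    have h10 : (range p).filter (fun b => b ∉ Om p) = range p \ Om p := by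
      ext b
      simp [mem_sdiff]
    rw [h10, card_sdiff_of_subset h7, card_range, Nat.cast_sub h9.le]
  rw [h4]
  have h5 : ∏ p ∈ q.primeFactors, ((p : ℝ) - (Om p).card) = r * ∏ p ∈ q.primeFactors, (1 - ((Om p).card : ℝ) / p) := by
    rw [hr]
    push_cast
    rw [← prod_mul_distrib]
    apply prod_congr rfl
    intro p hp
    have : (p : ℝ) ≠ 0 := by exact_mod_cast (hS p hp).ne_zero
    field_simp
  rw [h5]
  have h6 : (q : ℝ) = r * m := by exact_mod_cast hm
  rw [h6]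
  ring

theorem ad_pos {k : ℕ} {Om : ℕ → Finset ℕ} (h : Adm k Om) {q : ℕ} (hq : 1 ≤ q) : (0 : ℝ) < ad Om q := by
  rw [ad_eq h hq]
  apply mul_pos (by exact_mod_cast hq)
  exact prod_pos fun p hp => (fac_pos h (Nat.prime_of_mem_primeFactors hp))

theorem sum_mm_sq {k : ℕ} {Om : ℕ → Finset ℕ} (h : Adm k Om) {q : ℕ} (hq : 1 ≤ q) :
    ∑ a ∈ range q, mm Om q a ^ 2 = 1 / (ad Om q : ℝ) := by
  classical
  have h0 := ad_pos h hq
  have e : ∀ a ∈ range q, mm Om q a ^ 2 = if AD Om q a then (1 / (ad Om q : ℝ)) ^ 2 else 0 := by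
    intro a _
    unfold mm
    split_ifs <;> simp
  rw [sum_congr rfl e, ← sum_filter, sum_const, nsmul_eq_mul]
  have : (((range q).filter (fun a => AD Om q a)).card : ℝ) = ad Om q := by
    unfold ad
    congr
  rw [this]
  field_simp

theorem VQ {k : ℕ} {Om : ℕ → Finset ℕ} (h : Adm k Om) {q g : ℕ} (hq : 1 ≤ q) (hg : g ∣ q) :
    ∑ a ∈ range q, ((g / q : ℝ) * mm Om g (a % g) - mm Om q a) ^ 2 =
      1 / (ad Om q : ℝ) - (g / q : ℝ) / ad Om g := by
  classical
  have hg0 : 0 < g := Nat.pos_of_dvd_of_pos hg (by omega)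
  have hgr : (0 : ℝ) < g := by exact_mod_cast hg0
  have hqr : (0 : ℝ) < q := by exact_mod_cast hq
  have hg1 := ad_pos h hg0
  have hq1 := ad_pos h hq
  have e1 : ∑ a ∈ range q, mm Om g (a % g) ^ 2 = (q / g : ℝ) / ad Om g := by
    obtain ⟨m, rfl⟩ := hg
    have := sum_modT g m (fun a => mm Om g a ^ 2)
    rw [this, sum_mm_sq h hg0]
    push_cast
    field_simp
  have e2 : ∑ a ∈ range q, mm Om g (a % g) * mm Om q a = 1 / ad Om g := by
    have e : ∀ a ∈ range q, mm Om g (a % g) * mm Om q a =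
        if AD Om q a then (1 / (ad Om g : ℝ)) * (1 / (ad Om q : ℝ)) else 0 := by
      intro a _
      unfold mm
      by_cases h1 : AD Om q a
      · have h2 : AD Om g (a % g) := (AD_mod (dvd_refl g) a).2 (AD_dvd hq hg h1)
        rw [if_pos h1, if_pos h2, if_pos h1]
      · rw [if_neg h1, if_neg h1, mul_zero]
    rw [sum_congr rfl e, ← sum_filter, sum_const, nsmul_eq_mul]
    have : (((range q).filter (fun a => AD Om q a)).card : ℝ) = ad Om q := by
      unfold ad
      congr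
    rw [this]
    field_simp
  have e3 : ∑ a ∈ range q, ((g / q : ℝ) * mm Om g (a % g) - mm Om q a) ^ 2 =
      (g / q : ℝ) ^ 2 * ∑ a ∈ range q, mm Om g (a % g) ^ 2 - 2 * (g / q : ℝ) * ∑ a ∈ range q, mm Om g (a % g) * mm Om q a +
        ∑ a ∈ range q, mm Om q a ^ 2 := by
    rw [mul_sum, mul_sum, ← sum_sub_distrib, ← sum_add_distrib]
    apply sum_congr rfl
    intro a _
    ring
  rw [e3, e1, e2, sum_mm_sq h hq]
  field_simp
  ring

theorem one_sub_prod_le {ι : Type} (s : Finset ι) (x : ι → ℝ) (h0 : ∀ i ∈ s, 0 ≤ x i) (h1 : ∀ i ∈ s, x i ≤ 1) :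
    1 - ∏ i ∈ s, (1 - x i) ≤ ∑ i ∈ s, x i := by
  classical
  induction s using Finset.induction_on with
  | empty => simp
  | insert j s hj ih =>
    rw [prod_insert hj, sum_insert hj]
    have h2 := ih (fun i hi => h0 i (mem_insert_of_mem hi)) (fun i hi => h1 i (mem_insert_of_mem hi))
    have h3 := h0 j (mem_insert_self _ _)
    have h4 := h1 j (mem_insert_self _ _)
    have h5 : ∏ i ∈ s, (1 - x i) ≤ 1 := by
      apply prod_le_one
      · intro i hi
        linarith [h1 i (mem_insert_of_mem hi)]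
      · intro i hi
        linarith [h0 i (mem_insert_of_mem hi)]
    have h6 : 0 ≤ ∏ i ∈ s, (1 - x i) := prod_nonneg fun i hi => by linarith [h1 i (mem_insert_of_mem hi)]
    nlinarith

theorem inv_fac_le {k : ℕ} (hk : 1 ≤ k) {Om : ℕ → Finset ℕ} (h : Adm k Om) {p : ℕ} (hp : p.Prime) :
    (1 - ((Om p).card : ℝ) / p)⁻¹ ≤ 1 + (4 * k ^ 2 : ℕ) / (p : ℝ) := by
  obtain ⟨_, h1, h2⟩ := h p hp
  have hp0 : (0 : ℝ) < p := by exact_mod_cast hp.pos
  have hk1 : (1 : ℝ) ≤ k := by exact_mod_cast hk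
  have h3 : ((Om p).card : ℝ) ≤ k := by exact_mod_cast h1
  have h4 : ((Om p).card : ℝ) + 1 ≤ p := by exact_mod_cast h2
  have hpos : (0 : ℝ) < p - (Om p).card := by linarith
  have e : (1 - ((Om p).card : ℝ) / p)⁻¹ = p / (p - (Om p).card) := by
    rw [one_sub_div hp0.ne', inv_div]
  have e2 : (1 : ℝ) + (4 * k ^ 2 : ℕ) / (p : ℝ) = (p + 4 * k ^ 2) / p := by
    push_cast
    field_simp
  rw [e, e2, div_le_div_iff₀ hpos hp0]
  have h5 : (0 : ℝ) ≤ ((Om p).card : ℝ) := Nat.cast_nonneg _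
  by_cases h6 : (p : ℝ) ≤ 2 * k
  · nlinarith
  · push Not at h6
    have a1 : ((Om p).card : ℝ) * (p + 4 * k ^ 2) ≤ k * (p + 4 * k ^ 2) :=
      mul_le_mul_of_nonneg_right h3 (by positivity)
    have a2 : 2 * (k : ℝ) ^ 2 * (2 * k) ≤ 2 * k ^ 2 * p := mul_le_mul_of_nonneg_left h6.le (by positivity)
    have a3 : (k : ℝ) * p * 1 ≤ k * p * k := mul_le_mul_of_nonneg_left hk1 (by positivity)
    nlinarith

theorem prod_le_sum (A B : ℕ) (hAB : A ≤ 2 ^ B) (r : ℕ) (hr : r ≠ 0) :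
    ∏ p ∈ r.primeFactors, (1 + (A : ℝ) / p) ≤ ∑ e ∈ r.divisors, ((e.divisors.card : ℝ) ^ B / e) := by
  classical
  rw [Finset.prod_one_add]
  have hinj : Set.InjOn (fun s : Finset ℕ => ∏ p ∈ s, p) (r.primeFactors.powerset : Set (Finset ℕ)) := by
    intro s hs t ht hst
    simp only [Finset.coe_powerset, Set.mem_preimage, Set.mem_powerset_iff, Finset.coe_subset] at hs ht
    have h1 := Nat.primeFactors_prod (s := s) (fun p hp => Nat.prime_of_mem_primeFactors (hs hp))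
    have h2 := Nat.primeFactors_prod (s := t) (fun p hp => Nat.prime_of_mem_primeFactors (ht hp))
    simp only at hst
    rw [← h1, ← h2, hst]
  have hterm : ∀ s ∈ r.primeFactors.powerset, ∏ p ∈ s, ((A : ℝ) / (p : ℝ)) ≤
      (((∏ p ∈ s, p).divisors.card : ℝ) ^ B / ((∏ p ∈ s, p : ℕ) : ℝ)) := by
    intro s hs
    rw [Finset.mem_powerset] at hs
    have hpr : ∀ p ∈ s, p.Prime := fun p hp => Nat.prime_of_mem_primeFactors (hs hp)
    rw [Finset.prod_div_distrib, Finset.prod_const]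
    push_cast
    apply div_le_div_of_nonneg_right _ (Finset.prod_nonneg fun p _ => by positivity)
    have hne : (∏ p ∈ s, p) ≠ 0 := Finset.prod_ne_zero_iff.mpr (fun p hp => (hpr p hp).ne_zero)
    have hcard : 2 ^ s.card ≤ (∏ p ∈ s, p).divisors.card := by
      rw [Nat.card_divisors hne, Nat.primeFactors_prod hpr]
      rw [← Finset.prod_const]
      apply Finset.prod_le_prod'
      intro p hp
      have : 1 ≤ (∏ p ∈ s, p).factorization p := by
        rw [← Nat.Prime.dvd_iff_one_le_factorization (hpr p hp) hne]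
        exact Finset.dvd_prod_of_mem _ hp
      omega
    have hcard' : (2:ℝ) ^ s.card ≤ ((∏ p ∈ s, p).divisors.card : ℝ) := by exact_mod_cast hcard
    have hAB' : (A : ℝ) ≤ 2 ^ B := by exact_mod_cast hAB
    calc (A:ℝ) ^ s.card ≤ (2 ^ B) ^ s.card := pow_le_pow_left₀ (by positivity) hAB' _
      _ = ((2:ℝ) ^ s.card) ^ B := by rw [← pow_mul, mul_comm, pow_mul]
      _ ≤ _ := pow_le_pow_left₀ (by positivity) hcard' B
  refine (Finset.sum_le_sum hterm).trans ?_
  have e := Finset.sum_image (s := r.primeFactors.powerset) (g := fun s : Finset ℕ => ∏ p ∈ s, p)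
    (f := fun e : ℕ => ((e.divisors.card : ℝ) ^ B / (e : ℝ))) hinj
  rw [← e]
  apply Finset.sum_le_sum_of_subset_of_nonneg
  · intro e he
    rw [Finset.mem_image] at he
    obtain ⟨s, hs, rfl⟩ := he
    rw [Finset.mem_powerset] at hs
    rw [Nat.mem_divisors]
    refine ⟨?_, hr⟩
    exact (Finset.prod_dvd_prod_of_subset _ _ _ hs).trans (Nat.prod_primeFactors_dvd r)
  · intro e _ _; positivity

theorem sum_tau (B : ℕ) : ∃ D : ℝ, 0 < D ∧ ∀ Y : ℕ, ∑ e ∈ Icc 1 Y, (e.divisors.card : ℝ) ^ B / (e : ℝ) ^ 2 ≤ D := by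
  obtain ⟨C, hC0, hC⟩ := Pool.Agent.Helper112.divisor_bound (1 / (2 * ((B : ℝ) + 1))) (by positivity)
  have hsum : Summable (fun e : ℕ => C ^ (B + 1) * (1 / (e:ℝ) ^ (3/2 : ℝ))) :=
    (Real.summable_one_div_nat_rpow.mpr (by norm_num)).mul_left _
  refine ⟨∑' e : ℕ, C ^ (B + 1) * (1 / (e:ℝ) ^ (3/2 : ℝ)) + 1,
    by have : 0 ≤ ∑' e : ℕ, C ^ (B + 1) * (1 / (e:ℝ) ^ (3/2 : ℝ)) := tsum_nonneg (fun e => by positivity)
       linarith, fun Y => ?_⟩
  have h1 : ∑ e ∈ Icc 1 Y, (e.divisors.card : ℝ) ^ B / (e : ℝ) ^ 2 ≤ ∑ e ∈ Icc 1 Y, C ^ (B + 1) * (1 / (e:ℝ) ^ (3/2 : ℝ)) := by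
    apply sum_le_sum
    intro e he
    rw [mem_Icc] at he
    have he0 : (0 : ℝ) < e := by exact_mod_cast (by omega : 0 < e)
    have hd : (1 : ℝ) ≤ (e.divisors.card : ℝ) := by
      have : 0 < e.divisors.card := card_pos.2 ⟨1, Nat.one_mem_divisors.2 (by omega)⟩
      exact_mod_cast this
    have h2 := hC e he.1
    have h3 : (e.divisors.card : ℝ) ^ B ≤ (e.divisors.card : ℝ) ^ (B + 1) := pow_le_pow_right₀ hd (by omega)
    have h4 := pow_le_pow_left₀ (by positivity) h2 (B + 1)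
    rw [mul_pow, ← Real.rpow_natCast ((e:ℝ) ^ (1 / (2 * ((B : ℝ) + 1)))) (B + 1), ← Real.rpow_mul he0.le] at h4
    have h5 : 1 / (2 * ((B : ℝ) + 1)) * ((B + 1 : ℕ) : ℝ) = 1 / 2 := by
      push_cast
      field_simp
    rw [h5] at h4
    have h6 : (e : ℝ) ^ 2 = (e:ℝ) ^ (1/2:ℝ) * (e:ℝ) ^ (3/2:ℝ) := by
      rw [← Real.rpow_add he0, ← Real.rpow_natCast]; norm_num
    rw [h6, div_le_iff₀ (by positivity)]
    have h8 : C ^ (B + 1) * (1 / (e:ℝ) ^ (3/2 : ℝ)) * ((e:ℝ) ^ (1/2:ℝ) * (e:ℝ) ^ (3/2:ℝ)) = C ^ (B + 1) * (e:ℝ) ^ (1/2:ℝ) := by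
      field_simp
    rw [h8]
    exact h3.trans h4
  have h2 := hsum.sum_le_tsum (Icc 1 Y) (fun e _ => by positivity)
  linarith

theorem mult_sum (Q m : ℕ) (hm : 1 ≤ m) :
    ∑ q ∈ (Ico Q (2 * Q)).filter (fun q => m ∣ q), (1 / (q : ℝ)) ≤ 3 / m := by
  have hm0 : (0 : ℝ) < m := by exact_mod_cast hm
  by_cases hQ : Q = 0
  · subst hQ
    simp
    positivity
  have hQ0 : (0 : ℝ) < Q := by exact_mod_cast Nat.pos_of_ne_zero hQ
  by_cases hmQ : 2 * Q ≤ m
  · rw [sum_eq_zero]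
    · positivity
    · intro q hq
      rw [mem_filter, mem_Ico] at hq
      have := Nat.le_of_dvd (by omega) hq.2
      omega
  push Not at hmQ
  have hcard : ((Ico Q (2 * Q)).filter (fun q => m ∣ q)).card ≤ Q / m + 1 := by
    have e : (Ico Q (2 * Q)).filter (fun q => m ∣ q) ⊆ (Ioc 0 (2 * Q - 1)).filter (fun q => m ∣ q) \ (Ioc 0 (Q - 1)).filter (fun q => m ∣ q) := by
      intro q hq
      rw [mem_filter, mem_Ico] at hq
      rw [mem_sdiff, mem_filter, mem_filter, mem_Ioc, mem_Ioc]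
      refine ⟨⟨by omega, hq.2⟩, fun h => by omega⟩
    have e2 : (Ioc 0 (Q - 1)).filter (fun q => m ∣ q) ⊆ (Ioc 0 (2 * Q - 1)).filter (fun q => m ∣ q) := by
      apply filter_subset_filter
      apply Ioc_subset_Ioc_right
      omega
    have e3 := card_le_card e
    rw [card_sdiff_of_subset e2, Nat.Ioc_filter_dvd_card_eq_div, Nat.Ioc_filter_dvd_card_eq_div] at e3
    refine e3.trans ?_
    have h1 : (2 * Q - 1) / m ≤ (Q - 1) / m + (Q / m + 1) := by
      have h2 : 2 * Q - 1 = (Q - 1) + Q := by omega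
      rw [h2, Nat.div_le_iff_le_mul_add_pred (by omega)]
      have h3 := Nat.div_add_mod (Q - 1) m
      have h4 := Nat.div_add_mod Q m
      have h5 := Nat.mod_lt (Q - 1) (show 0 < m by omega)
      have h6 := Nat.mod_lt Q (show 0 < m by omega)
      have h7 : m * ((Q - 1) / m + (Q / m + 1)) = m * ((Q - 1) / m) + m * (Q / m) + m := by ring
      rw [h7]
      omega
    rw [Nat.sub_le_iff_le_add]
    linarith
  have hcard' : (((Ico Q (2 * Q)).filter (fun q => m ∣ q)).card : ℝ) ≤ 3 * Q / m := by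
    have h1 : (((Ico Q (2 * Q)).filter (fun q => m ∣ q)).card : ℝ) ≤ ((Q / m : ℕ) : ℝ) + 1 := by exact_mod_cast hcard
    have h2 : ((Q / m : ℕ) : ℝ) ≤ (Q : ℝ) / m := Nat.cast_div_le
    have h3 : (1 : ℝ) ≤ 2 * Q / m := by
      rw [le_div_iff₀ hm0]
      have : (m : ℝ) ≤ 2 * Q := by exact_mod_cast hmQ.le
      linarith
    calc _ ≤ (Q : ℝ) / m + 2 * Q / m := by linarith
      _ = _ := by ring
  calc ∑ q ∈ (Ico Q (2 * Q)).filter (fun q => m ∣ q), (1 / (q : ℝ)) ≤
        ∑ q ∈ (Ico Q (2 * Q)).filter (fun q => m ∣ q), (1 / (Q : ℝ)) := by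
        apply sum_le_sum
        intro q hq
        rw [mem_filter, mem_Ico] at hq
        apply one_div_le_one_div_of_le hQ0
        exact_mod_cast hq.1.1
    _ = (((Ico Q (2 * Q)).filter (fun q => m ∣ q)).card : ℝ) * (1 / Q) := by rw [sum_const, nsmul_eq_mul]
    _ ≤ 3 * Q / m * (1 / Q) := mul_le_mul_of_nonneg_right hcard' (by positivity)
    _ = 3 / m := by field_simp

/-- the products over the prime factors -/
noncomputable def HH (A q : ℕ) : ℝ := ∏ p ∈ q.primeFactors, (1 + (A : ℝ) / p)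

theorem HH_pos (A q : ℕ) : 0 < HH A q := prod_pos fun _ _ => by positivity

theorem inv_ad {k : ℕ} (hk : 1 ≤ k) {Om : ℕ → Finset ℕ} (h : Adm k Om) {q : ℕ} (hq : 1 ≤ q) :
    1 / (ad Om q : ℝ) ≤ 1 / q * HH (4 * k ^ 2) q := by
  have hq0 : (0 : ℝ) < q := by exact_mod_cast hq
  rw [ad_eq h hq, one_div, mul_inv, ← prod_inv_distrib, one_div]
  apply mul_le_mul_of_nonneg_left _ (by positivity)
  unfold HH
  apply prod_le_prod
  · intro p hp
    exact (inv_pos.2 (fac_pos h (Nat.prime_of_mem_primeFactors hp))).le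
  · intro p hp
    exact inv_fac_le hk h (Nat.prime_of_mem_primeFactors hp)

theorem HH_split (A : ℕ) {q p : ℕ} (hq : 1 ≤ q) (hp : p ∈ q.primeFactors) :
    HH A q ≤ (1 + A) * HH A (q / p) := by
  have hpp := Nat.prime_of_mem_primeFactors hp
  have hpq := Nat.dvd_of_mem_primeFactors hp
  obtain ⟨m, rfl⟩ := hpq
  have hm : m ≠ 0 := by
    rintro rfl
    simp at hq
  rw [Nat.mul_div_cancel_left m hpp.pos]
  unfold HH
  rw [Nat.primeFactors_mul hpp.ne_zero hm, hpp.primeFactors]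
  have hA : (1 : ℝ) + A / p ≤ 1 + A := by
    have : (1 : ℝ) ≤ p := by exact_mod_cast hpp.one_le
    have h1 : (A : ℝ) / p ≤ A := div_le_self (Nat.cast_nonneg _) this
    linarith
  have hpos : (0 : ℝ) ≤ ∏ p ∈ m.primeFactors, (1 + (A : ℝ) / p) := prod_nonneg fun _ _ => by positivity
  by_cases h : p ∈ m.primeFactors
  · have e : {p} ∪ m.primeFactors = m.primeFactors := by
      rw [union_eq_right, singleton_subset_iff]
      exact h
    rw [e]
    have : (0 : ℝ) ≤ A := Nat.cast_nonneg _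
    nlinarith
  · rw [prod_union (by rw [disjoint_singleton_left]; exact h), prod_singleton]
    exact mul_le_mul_of_nonneg_right hA hpos

theorem VQ_sum (k : ℕ) (hk : 1 ≤ k) : ∃ C : ℝ, 0 < C ∧ ∀ Om : ℕ → Finset ℕ, Adm k Om → ∀ K P Q : ℕ, 1 ≤ K →
    (∀ d, 1 ≤ d → d ≤ K → d ∣ P) → 1 ≤ Q →
    ∑ q ∈ Ico Q (2 * Q), ∑ a ∈ range q,
      ((Nat.gcd q P / q : ℝ) * mm Om (Nat.gcd q P) (a % Nat.gcd q P) - mm Om q a) ^ 2 ≤ C / K := by
  classical
  set A : ℕ := 4 * k ^ 2 with hA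
  have hAB : A ≤ 2 ^ A := Nat.lt_two_pow_self.le
  obtain ⟨D, hD0, hD⟩ := sum_tau A
  refine ⟨k * (1 + A) * 3 * 2 * D, by positivity, ?_⟩
  intro Om h K P Q hK hKP hQ
  have hQ0 : (0 : ℝ) < Q := by exact_mod_cast hQ
  have hK0 : (0 : ℝ) < K := by exact_mod_cast hK
  set PP : Finset ℕ := (PR (2 * Q)).filter (fun p => K < p) with hPP
  -- one modulus
  have hone : ∀ q ∈ Ico Q (2 * Q), ∑ a ∈ range q,
      ((Nat.gcd q P / q : ℝ) * mm Om (Nat.gcd q P) (a % Nat.gcd q P) - mm Om q a) ^ 2 ≤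
      ∑ p ∈ PP, ∑ e ∈ Icc 1 (2 * Q), if e * p ∣ q then
        ((k : ℝ) / p * (1 + A) * ((e.divisors.card : ℝ) ^ A / e)) * (1 / (q : ℝ)) else 0 := by
    intro q hq
    rw [mem_Ico] at hq
    have hq1 : 1 ≤ q := by omega
    have hq0 : (0 : ℝ) < q := by exact_mod_cast hq1
    set g := Nat.gcd q P with hg
    have hgq : g ∣ q := Nat.gcd_dvd_left q P
    have hg0 : 0 < g := Nat.pos_of_dvd_of_pos hgq (by omega)
    have hgr : (0 : ℝ) < g := by exact_mod_cast hg0
    rw [VQ h hq1 hgq]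
    have hsub : g.primeFactors ⊆ q.primeFactors := Nat.primeFactors_mono hgq (by omega)
    have hadq := ad_pos h hq1
    have hadg := ad_pos h hg0
    -- the ratio
    have hρ : (g / q : ℝ) / ad Om g = (1 / (ad Om q : ℝ)) * ∏ p ∈ q.primeFactors \ g.primeFactors, (1 - ((Om p).card : ℝ) / p) := by
      rw [ad_eq h hq1, ad_eq h hg0, ← prod_sdiff hsub]
      have n1 : ∏ p ∈ g.primeFactors, (1 - ((Om p).card : ℝ) / p) ≠ 0 :=
        (prod_pos fun p hp => (fac_pos h (Nat.prime_of_mem_primeFactors hp))).ne'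
      have n2 : ∏ p ∈ q.primeFactors \ g.primeFactors, (1 - ((Om p).card : ℝ) / p) ≠ 0 :=
        (prod_pos fun p hp => (fac_pos h (Nat.prime_of_mem_primeFactors (mem_sdiff.1 hp).1))).ne'
      field_simp
    rw [hρ]
    have h1 : 1 / (ad Om q : ℝ) - (1 / (ad Om q : ℝ)) * ∏ p ∈ q.primeFactors \ g.primeFactors, (1 - ((Om p).card : ℝ) / p) =
        (1 / (ad Om q : ℝ)) * (1 - ∏ p ∈ q.primeFactors \ g.primeFactors, (1 - ((Om p).card : ℝ) / p)) := by ring
    rw [h1]
    have h2 := one_sub_prod_le (q.primeFactors \ g.primeFactors) (fun p => ((Om p).card : ℝ) / p)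
      (fun p _ => by positivity) (fun p hp => by
        have := fac_pos h (Nat.prime_of_mem_primeFactors (mem_sdiff.1 hp).1)
        linarith)
    have h3 : ∑ p ∈ q.primeFactors \ g.primeFactors, ((Om p).card : ℝ) / p ≤ ∑ p ∈ q.primeFactors.filter (fun p => K < p), (k : ℝ) / p := by
      have h4 : q.primeFactors \ g.primeFactors ⊆ q.primeFactors.filter (fun p => K < p) := by
        intro p hp
        rw [mem_sdiff] at hp
        rw [mem_filter]
        refine ⟨hp.1, ?_⟩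
        by_contra hcon
        apply hp.2
        have hpp := Nat.prime_of_mem_primeFactors hp.1
        rw [Nat.mem_primeFactors]
        refine ⟨hpp, ?_, by omega⟩
        exact Nat.dvd_gcd (Nat.dvd_of_mem_primeFactors hp.1) (hKP p hpp.pos (by omega))
      refine (sum_le_sum fun p hp => ?_).trans (sum_le_sum_of_subset_of_nonneg h4 fun _ _ _ => by positivity)
      apply div_le_div_of_nonneg_right _ (Nat.cast_nonneg _)
      exact_mod_cast (h p (Nat.prime_of_mem_primeFactors (mem_sdiff.1 hp).1)).2.1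
    have h5 : (1 / (ad Om q : ℝ)) * (1 - ∏ p ∈ q.primeFactors \ g.primeFactors, (1 - ((Om p).card : ℝ) / p)) ≤
        (1 / q * HH A q) * ∑ p ∈ q.primeFactors.filter (fun p => K < p), (k : ℝ) / p := by
      apply mul_le_mul (inv_ad hk h hq1) (h2.trans h3)
      · rw [sub_nonneg]
        apply prod_le_one
        · intro p hp
          exact (fac_pos h (Nat.prime_of_mem_primeFactors (mem_sdiff.1 hp).1)).le
        · intro p hp
          have : (0 : ℝ) ≤ ((Om p).card : ℝ) / p := by positivity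
          linarith
      · have := HH_pos A q
        positivity
    refine h5.trans ?_
    rw [mul_sum]
    have h6 : ∑ p ∈ q.primeFactors.filter (fun p => K < p), 1 / (q : ℝ) * HH A q * ((k : ℝ) / p) ≤
        ∑ p ∈ q.primeFactors.filter (fun p => K < p), ∑ e ∈ Icc 1 (2 * Q), if e * p ∣ q then
          ((k : ℝ) / p * (1 + A) * ((e.divisors.card : ℝ) ^ A / e)) * (1 / (q : ℝ)) else 0 := by
      apply sum_le_sum
      intro p hp
      rw [mem_filter] at hp
      have hpp := Nat.prime_of_mem_primeFactors hp.1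
      have hpd := Nat.dvd_of_mem_primeFactors hp.1
      have hqp : q / p ≠ 0 := (Nat.div_pos (Nat.le_of_dvd (by omega) hpd) hpp.pos).ne'
      have h7 := prod_le_sum A A hAB (q / p) hqp
      have h8 : HH A q ≤ (1 + A) * ∑ e ∈ (q / p).divisors, ((e.divisors.card : ℝ) ^ A / e) :=
        (HH_split A hq1 hp.1).trans (mul_le_mul_of_nonneg_left h7 (by positivity))
      have h9 : ∑ e ∈ (q / p).divisors, ((e.divisors.card : ℝ) ^ A / e) ≤
          ∑ e ∈ Icc 1 (2 * Q), if e * p ∣ q then ((e.divisors.card : ℝ) ^ A / e) else 0 := by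
        rw [← sum_filter]
        apply sum_le_sum_of_subset_of_nonneg
        · intro e he
          rw [Nat.mem_divisors] at he
          have he0 : 0 < e := Nat.pos_of_dvd_of_pos he.1 (Nat.pos_of_ne_zero he.2)
          rw [mem_filter, mem_Icc]
          refine ⟨⟨he0, ?_⟩, ?_⟩
          · exact (Nat.le_of_dvd (Nat.pos_of_ne_zero he.2) he.1).trans ((Nat.div_le_self q p).trans (by omega))
          · have := Nat.mul_dvd_mul_right he.1 p
            rwa [Nat.div_mul_cancel hpd] at this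
        · intro e _ _
          positivity
      calc 1 / (q : ℝ) * HH A q * ((k : ℝ) / p) ≤ 1 / (q : ℝ) * ((1 + A) * ∑ e ∈ Icc 1 (2 * Q), if e * p ∣ q then ((e.divisors.card : ℝ) ^ A / e) else 0) * ((k : ℝ) / p) := by
            apply mul_le_mul_of_nonneg_right _ (by positivity)
            apply mul_le_mul_of_nonneg_left _ (by positivity)
            exact h8.trans (mul_le_mul_of_nonneg_left h9 (by positivity))
        _ = _ := by
            rw [mul_sum, mul_sum, sum_mul]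
            apply sum_congr rfl
            intro e _
            split_ifs
            · ring
            · ring
    refine h6.trans ?_
    apply sum_le_sum_of_subset_of_nonneg
    · intro p hp
      rw [mem_filter] at hp
      rw [hPP, mem_filter, mem_PR]
      exact ⟨⟨Nat.prime_of_mem_primeFactors hp.1, (Nat.le_of_mem_primeFactors hp.1).trans (by omega)⟩, hp.2⟩
    · intro p _ _
      apply sum_nonneg
      intro e _
      split_ifs <;> positivity
  refine (sum_le_sum hone).trans ?_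
  rw [sum_comm]
  have htwo : ∀ p ∈ PP, ∑ q ∈ Ico Q (2 * Q), ∑ e ∈ Icc 1 (2 * Q), (if e * p ∣ q then
      ((k : ℝ) / p * (1 + A) * ((e.divisors.card : ℝ) ^ A / e)) * (1 / (q : ℝ)) else 0) ≤
      (k * (1 + A) * 3 * D) * (1 / (p : ℝ) ^ 2) := by
    intro p hp
    rw [hPP, mem_filter, mem_PR] at hp
    have hp0 : (0 : ℝ) < p := by exact_mod_cast hp.1.1.pos
    rw [sum_comm]
    have h1 : ∀ e ∈ Icc 1 (2 * Q), ∑ q ∈ Ico Q (2 * Q), (if e * p ∣ q then
        ((k : ℝ) / p * (1 + A) * ((e.divisors.card : ℝ) ^ A / e)) * (1 / (q : ℝ)) else 0) ≤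
        (k * (1 + A) * 3 * (1 / (p : ℝ) ^ 2)) * ((e.divisors.card : ℝ) ^ A / (e : ℝ) ^ 2) := by
      intro e he
      rw [mem_Icc] at he
      have he0 : (0 : ℝ) < e := by exact_mod_cast (by omega : 0 < e)
      rw [← sum_filter, ← mul_sum]
      have h2 := mult_sum Q (e * p) (Nat.mul_pos (by omega) hp.1.1.pos)
      calc _ ≤ ((k : ℝ) / p * (1 + A) * ((e.divisors.card : ℝ) ^ A / e)) * (3 / ((e * p : ℕ) : ℝ)) :=
            mul_le_mul_of_nonneg_left h2 (by positivity)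
        _ = _ := by
            push_cast
            field_simp
    refine (sum_le_sum h1).trans ?_
    rw [← mul_sum]
    calc _ ≤ (k * (1 + A) * 3 * (1 / (p : ℝ) ^ 2)) * D := mul_le_mul_of_nonneg_left (hD _) (by positivity)
      _ = _ := by ring
  refine (sum_le_sum htwo).trans ?_
  rw [← mul_sum]
  have hthree : ∑ p ∈ PP, (1 : ℝ) / (p : ℝ) ^ 2 ≤ 2 / (K : ℝ) := by
    apply Pool.Agent.Q212.Sing.tail_sum K hK
    intro p hp
    rw [hPP, mem_filter] at hp
    exact hp.2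
  calc _ ≤ (k * (1 + A) * 3 * D) * (2 / K) := mul_le_mul_of_nonneg_left hthree (by positivity)
    _ = _ := by ring

/-- **From small moduli to large moduli, with explicit main terms.** -/
theorem explicit {Om : ℕ → Finset ℕ} (cnt : ℕ → ℕ → ℝ) (hmod : ∀ g a, cnt g a = cnt g (a % g))
    {P Q : ℕ} (hP : 1 ≤ P) (hQ : 1 ≤ Q) (R η V : ℝ)
    (hV : ∑ q ∈ Ico Q (2 * Q), ∑ a ∈ range q,
      ((Nat.gcd q P / q : ℝ) * mm Om (Nat.gcd q P) (a % Nat.gcd q P) - mm Om q a) ^ 2 ≤ V)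
    (hfix : ∀ g, 1 ≤ g → g ∣ P → ∀ a, a < g → |cnt g a - R * mm Om g a| ≤ η) :
    ∑ q ∈ Ico Q (2 * Q), ∑ a ∈ range q, (cnt q a - R * mm Om q a) ^ 2 ≤
      3 * relT cnt P Q + 3 * ((P : ℝ) ^ 2 * η ^ 2) + 3 * (R ^ 2 * V) := by
  have hQ0 : (0 : ℝ) < Q := by exact_mod_cast hQ
  have h1 : ∀ q ∈ Ico Q (2 * Q), ∀ a ∈ range q, (cnt q a - R * mm Om q a) ^ 2 ≤
      3 * (cnt q a - (Nat.gcd q P / q : ℝ) * cnt (Nat.gcd q P) a) ^ 2 + 3 * ((P : ℝ) / q * η) ^ 2 +
        3 * (R ^ 2 * ((Nat.gcd q P / q : ℝ) * mm Om (Nat.gcd q P) (a % Nat.gcd q P) - mm Om q a) ^ 2) := by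
    intro q hq a _
    rw [mem_Ico] at hq
    have hq1 : 1 ≤ q := by omega
    have hq0 : (0 : ℝ) < q := by exact_mod_cast hq1
    set g := Nat.gcd q P with hg
    have hg1 : 1 ≤ g := Nat.gcd_pos_of_pos_right q hP
    have hgP : g ≤ P := Nat.le_of_dvd hP (Nat.gcd_dvd_right q P)
    have e1 := hfix g hg1 (Nat.gcd_dvd_right q P) (a % g) (Nat.mod_lt _ hg1)
    rw [← hmod] at e1
    have e2 : |(g / q : ℝ) * (cnt g a - R * mm Om g (a % g))| ≤ (P : ℝ) / q * η := by
      rw [abs_mul, abs_of_nonneg (by positivity)]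
      apply mul_le_mul _ e1 (abs_nonneg _) (by positivity)
      apply div_le_div_of_nonneg_right _ hq0.le
      exact_mod_cast hgP
    have e3 : ((g / q : ℝ) * (cnt g a - R * mm Om g (a % g))) ^ 2 ≤ ((P : ℝ) / q * η) ^ 2 := by
      rw [← sq_abs]
      exact pow_le_pow_left₀ (abs_nonneg _) e2 2
    obtain ⟨x, hx⟩ : ∃ x, x = cnt q a - (g / q : ℝ) * cnt g a := ⟨_, rfl⟩
    obtain ⟨y, hy⟩ : ∃ y, y = (g / q : ℝ) * (cnt g a - R * mm Om g (a % g)) := ⟨_, rfl⟩
    obtain ⟨z, hz⟩ : ∃ z, z = (g / q : ℝ) * mm Om g (a % g) - mm Om q a := ⟨_, rfl⟩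
    have e4 : cnt q a - R * mm Om q a = x + y + R * z := by
      rw [hx, hy, hz]
      ring
    rw [e4, ← hx, ← hz]
    rw [← hy] at e3
    have e5 : R ^ 2 * z ^ 2 = (R * z) ^ 2 := by ring
    rw [e5]
    nlinarith [sq_nonneg (x - y), sq_nonneg (x - R * z), sq_nonneg (y - R * z)]
  have h2 : ∑ q ∈ Ico Q (2 * Q), ∑ a ∈ range q, ((P : ℝ) / q * η) ^ 2 ≤ (P : ℝ) ^ 2 * η ^ 2 := by
    have h3 : ∀ q ∈ Ico Q (2 * Q), ∑ a ∈ range q, ((P : ℝ) / q * η) ^ 2 ≤ (P : ℝ) ^ 2 * η ^ 2 * (1 / Q) := by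
      intro q hq
      rw [mem_Ico] at hq
      have hq0 : (0 : ℝ) < q := by exact_mod_cast (by omega : 0 < q)
      rw [sum_const, card_range, nsmul_eq_mul]
      have : (q : ℝ) * ((P : ℝ) / q * η) ^ 2 = (P : ℝ) ^ 2 * η ^ 2 * (1 / q) := by
        field_simp
      rw [this]
      apply mul_le_mul_of_nonneg_left _ (by positivity)
      apply one_div_le_one_div_of_le hQ0
      exact_mod_cast hq.1
    refine (sum_le_sum h3).trans ?_
    rw [sum_const, Nat.card_Ico, nsmul_eq_mul]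
    have : ((2 * Q - Q : ℕ) : ℝ) = Q := by
      have : 2 * Q - Q = Q := by omega
      rw [this]
    rw [this]
    apply le_of_eq
    field_simp
  calc _ ≤ ∑ q ∈ Ico Q (2 * Q), ∑ a ∈ range q,
        (3 * (cnt q a - (Nat.gcd q P / q : ℝ) * cnt (Nat.gcd q P) a) ^ 2 + 3 * ((P : ℝ) / q * η) ^ 2 +
        3 * (R ^ 2 * ((Nat.gcd q P / q : ℝ) * mm Om (Nat.gcd q P) (a % Nat.gcd q P) - mm Om q a) ^ 2)) :=
        sum_le_sum fun q hq => sum_le_sum fun a ha => h1 q hq a ha
    _ = 3 * relT cnt P Q + 3 * (∑ q ∈ Ico Q (2 * Q), ∑ a ∈ range q, ((P : ℝ) / q * η) ^ 2) +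
        3 * (R ^ 2 * ∑ q ∈ Ico Q (2 * Q), ∑ a ∈ range q,
          ((Nat.gcd q P / q : ℝ) * mm Om (Nat.gcd q P) (a % Nat.gcd q P) - mm Om q a) ^ 2) := by
        unfold relT
        simp only [sum_add_distrib, mul_sum]
    _ ≤ _ := by
        have h4 := mul_le_mul_of_nonneg_left hV (sq_nonneg R)
        linarith

end Pool.Agent.H90.SK
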