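import Pool.Agent.H90.ST.Jor

/-! # Rotations: general filters -/

set_option autoImplicit false

namespace Pool.Agent.H90.SK

open Finset Filter Topology Pool.Agent.Helper112 MeasureTheory Pool.Agent.H90.ST
open scoped ENNReal

variable {Θ : Type} {F : Filter Θ}

/-- the functional -/
noncomputable def LG (M : Θ → Finset ℕ) (α : ℝ) (G : C(UnitAddCircle, ℂ)) (θ : Θ) : ℂ :=
  ∑ m ∈ M θ, (G ((m * α : ℝ) : UnitAddCircle) - ∫ y, G y)

theorem LG_add (M : Θ → Finset ℕ) (α : ℝ) (G G' : C(UnitAddCircle, ℂ)) (θ : Θ) :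
    LG M α (G + G') θ = LG M α G θ + LG M α G' θ := by
  unfold LG
  rw [← sum_add_distrib]
  refine sum_congr rfl fun v _ => ?_
  have : ∫ y, (G + G') y = (∫ y, G y) + ∫ y, G' y := by
    simp only [ContinuousMap.add_apply]
    exact integral_add (G.continuous.integrable_of_hasCompactSupport (HasCompactSupport.of_compactSpace _))
      (G'.continuous.integrable_of_hasCompactSupport (HasCompactSupport.of_compactSpace _))
  rw [this, ContinuousMap.add_apply]
  ring

theorem LG_smul (M : Θ → Finset ℕ) (α : ℝ) (c : ℂ) (G : C(UnitAddCircle, ℂ)) (θ : Θ) :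
    LG M α (c • G) θ = c * LG M α G θ := by
  unfold LG
  rw [mul_sum]
  refine sum_congr rfl fun v _ => ?_
  have : ∫ y, (c • G) y = c * ∫ y, G y := by
    simp only [ContinuousMap.smul_apply, smul_eq_mul]
    exact integral_const_mul _ _
  rw [this, ContinuousMap.smul_apply, smul_eq_mul]
  ring

theorem LG_zero (M : Θ → Finset ℕ) (α : ℝ) (θ : Θ) : LG M α 0 θ = 0 := by
  have h := LG_add M α 0 0 θ
  rw [add_zero] at h
  exact left_eq_add.1 h

theorem norm_LG (M : Θ → Finset ℕ) (α : ℝ) (G : C(UnitAddCircle, ℂ)) (θ : Θ) :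
    ‖LG M α G θ‖ ≤ 2 * ‖G‖ * (M θ).card := by
  unfold LG
  rw [mul_comm _ ((M θ).card : ℝ), ← nsmul_eq_mul, ← sum_const]
  refine norm_sum_le_of_le _ fun v _ => ?_
  have h1 : ‖∫ y, G y‖ ≤ ‖G‖ := by
    have := norm_integral_le_of_norm_le_const (μ := (volume : Measure UnitAddCircle))
      (Eventually.of_forall fun y => G.norm_coe_le_norm y)
    rw [measureReal_def, UnitAddCircle.measure_univ] at this
    simpa using this
  refine (norm_sub_le _ _).trans ?_
  have := G.norm_coe_le_norm ((v * α : ℝ) : UnitAddCircle)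
  linarith

theorem closedG {M : Θ → Finset ℕ} {c : Θ → ℝ} {W : ℝ} (hW : 0 ≤ W)
    (hc : ∀ᶠ θ in F, 0 < c θ ∧ ((M θ).card : ℝ) ≤ W * c θ) {α : ℝ} {f : C(UnitAddCircle, ℂ)}
    (hf : f ∈ closure {f | Tendsto (fun θ => LG M α f θ / (c θ : ℂ)) F (𝓝 0)}) :
    Tendsto (fun θ => LG M α f θ / (c θ : ℂ)) F (𝓝 0) := by
  rw [Metric.tendsto_nhds]
  intro ε hε
  obtain ⟨f', hf', hd⟩ := Metric.mem_closure_iff.1 hf (ε / (4 * (W + 1))) (by positivity)
  have h1 : Tendsto (fun θ => LG M α f' θ / (c θ : ℂ)) F (𝓝 0) := hf'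
  have h2 := (Metric.tendsto_nhds.1 h1 (ε / 2) (by positivity))
  filter_upwards [h2, hc] with θ h3 h4
  rw [dist_zero_right] at h3 ⊢
  have h6 : LG M α f θ = LG M α (f - f') θ + LG M α f' θ := by
    rw [← LG_add, sub_add_cancel]
  have h7 : ‖LG M α (f - f') θ / (c θ : ℂ)‖ ≤ ε / 2 := by
    rw [norm_div, Complex.norm_real, Real.norm_of_nonneg h4.1.le, div_le_iff₀ h4.1]
    refine (norm_LG _ _ _ _).trans ?_
    rw [dist_eq_norm] at hd
    have hcc := h4.1
    have hW1 : 0 < W + 1 := by linarith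
    calc 2 * ‖f - f'‖ * (M θ).card ≤ 2 * (ε / (4 * (W + 1))) * (W * c θ) := by
          apply mul_le_mul _ h4.2 (Nat.cast_nonneg _) (by positivity)
          exact mul_le_mul_of_nonneg_left hd.le (by norm_num)
      _ = ε / 2 * c θ * (W / (W + 1)) := by field_simp; ring
      _ ≤ ε / 2 * c θ * 1 := by
          apply mul_le_mul_of_nonneg_left _ (by positivity)
          rw [div_le_one hW1]; linarith
      _ = ε / 2 * c θ := by ring
  rw [h6, add_div]
  calc _ ≤ _ := norm_add_le _ _
    _ < ε / 2 + ε / 2 := by linarith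
    _ = ε := by ring

/-- **All continuous functions on the circle from the characters.** -/
theorem circG {M : Θ → Finset ℕ} {c : Θ → ℝ} {W : ℝ} (hW : 0 ≤ W)
    (hc : ∀ᶠ θ in F, 0 < c θ ∧ ((M θ).card : ℝ) ≤ W * c θ) {α : ℝ}
    (h : ∀ k : ℤ, k ≠ 0 → Tendsto (fun θ => (∑ m ∈ M θ, ee (m * (k * α))) / (c θ : ℂ)) F (𝓝 0))
    (G : C(UnitAddCircle, ℂ)) : Tendsto (fun θ => LG M α G θ / (c θ : ℂ)) F (𝓝 0) := by
  classical
  set S : Submodule ℂ C(UnitAddCircle, ℂ) :=
    { carrier := {G | Tendsto (fun θ => LG M α G θ / (c θ : ℂ)) F (𝓝 0)}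
      add_mem' := by
        intro f f' hf hf'
        have h := Tendsto.add hf hf'
        rw [add_zero] at h
        refine h.congr fun x => ?_
        rw [LG_add, add_div]
      zero_mem' := by
        show Tendsto _ _ _
        simp only [LG_zero, zero_div]
        exact tendsto_const_nhds
      smul_mem' := by
        intro c f hf
        have h := Tendsto.const_mul c hf
        rw [mul_zero] at h
        refine h.congr fun x => ?_
        rw [LG_smul, mul_div_assoc] } with hS
  have htop : S = ⊤ := by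
    rw [eq_top_iff, ← span_fourier_closure_eq_top (T := 1)]
    refine Submodule.topologicalClosure_minimal _ ?_ ?_
    swap
    · exact isClosed_of_closure_subset fun f hf => closedG hW hc hf
    rw [Submodule.span_le]
    rintro _ ⟨k, rfl⟩
    show Tendsto (fun θ => LG M α (fourier k) θ / (c θ : ℂ)) F (𝓝 0)
    by_cases hk : k = 0
    · have h0 : ∀ x, LG M α (fourier k) x = 0 := by
        intro x
        unfold LG
        refine sum_eq_zero fun v _ => ?_
        rw [hk]
        have : ∫ y : UnitAddCircle, fourier 0 y = 1 := by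
          simp only [fourier_zero]
          rw [integral_const, measureReal_def, UnitAddCircle.measure_univ]
          simp
        rw [this, fourier_zero, sub_self]
      simp only [h0, zero_div]
      exact tendsto_const_nhds
    · refine (h k hk).congr fun x => ?_
      congr 1
      unfold LG
      refine sum_congr rfl fun v _ => ?_
      rw [integral_fourier hk, sub_zero]
      rw [fourier_coe_apply]
      unfold ee
      congr 1
      push_cast
      ring
  have : G ∈ S := by rw [htop]; exact Submodule.mem_top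
  exact this

/-- **Subsets with boundary of measure zero.** -/
theorem jordanG {M : Θ → Finset ℕ} {c : Θ → ℝ} {W : ℝ} (hW : 0 ≤ W)
    (hc : ∀ᶠ θ in F, 0 < c θ ∧ ((M θ).card : ℝ) ≤ W * c θ) {α : ℝ}
    (h : ∀ G : C(UnitAddCircle, ℂ), Tendsto (fun θ => LG M α G θ / (c θ : ℂ)) F (𝓝 0))
    {A : Set UnitAddCircle} [DecidablePred (fun m : ℕ => ((m * α : ℝ) : UnitAddCircle) ∈ A)]
    (hA : volume (frontier A) = 0) :
    Tendsto (fun θ => ((((M θ).filter (fun m : ℕ => ((m * α : ℝ) : UnitAddCircle) ∈ A)).card : ℝ) -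
      (volume A).toReal * (M θ).card) / c θ) F (𝓝 0) := by
  classical
  rw [Metric.tendsto_nhds]
  intro ε hε
  set δ : ℝ := ε / (8 * (W + 1)) with hδ
  have hδ0 : 0 < δ := by positivity
  obtain ⟨f, hf0, hf1, hf2⟩ := majorant A hδ0
  obtain ⟨f', hf0', hf1', hf2'⟩ := majorant Aᶜ hδ0
  obtain ⟨e1, e2⟩ := vol_closure hA
  rw [e1] at hf2
  rw [e2] at hf2'
  set s : ℝ := (volume A).toReal with hs
  have hfi : Integrable (fun y => f y) (volume : Measure UnitAddCircle) :=
    f.continuous.integrable_of_hasCompactSupport (HasCompactSupport.of_compactSpace _)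
  have hfi' : Integrable (fun y => f' y) (volume : Measure UnitAddCircle) :=
    f'.continuous.integrable_of_hasCompactSupport (HasCompactSupport.of_compactSpace _)
  filter_upwards [Metric.tendsto_nhds.1 (h (cpl f)) (ε / 2) (by positivity),
    Metric.tendsto_nhds.1 (h (cpl f')) (ε / 2) (by positivity), hc] with θ g1 g2 g3
  have hcc := g3.1
  rw [dist_zero_right, norm_div, Complex.norm_real, Real.norm_of_nonneg hcc.le, div_lt_iff₀ hcc] at g1 g2
  rw [dist_zero_right, norm_div, Real.norm_of_nonneg hcc.le, div_lt_iff₀ hcc, Real.norm_eq_abs]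
  -- the sums of the majorants
  have key : ∀ (g : C(UnitAddCircle, ℝ)), LG M α (cpl g) θ = ((∑ m ∈ M θ,
      (g ((m * α : ℝ) : UnitAddCircle)) - (∫ y, g y) * (M θ).card : ℝ) : ℂ) := by
    intro g
    unfold LG
    rw [integral_cpl, sum_sub_distrib, sum_const, nsmul_eq_mul]
    push_cast
    have : ∀ m : ℕ, cpl g ((m * α : ℝ) : UnitAddCircle) = ((g ((m * α : ℝ) : UnitAddCircle) : ℝ) : ℂ) :=
      fun _ => rfl
    simp only [this]
    ring
  rw [key, Complex.norm_real, Real.norm_eq_abs] at g1 g2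
  have a1 := (abs_lt.1 g1).2
  have a2 := (abs_lt.1 g2).2
  set n : ℝ := ((M θ).card : ℝ) with hn
  have hn0 : 0 ≤ n := Nat.cast_nonneg _
  have b1 : (((M θ).filter (fun m : ℕ => ((m * α : ℝ) : UnitAddCircle) ∈ A)).card : ℝ) ≤
      ∑ m ∈ M θ, (f ((m * α : ℝ) : UnitAddCircle)) := by
    rw [card_filter]
    push_cast
    apply sum_le_sum
    intro m _
    split_ifs with h5
    · rw [hf1 _ h5]
    · exact hf0 _
  have b2 : n - (((M θ).filter (fun m : ℕ => ((m * α : ℝ) : UnitAddCircle) ∈ A)).card : ℝ) ≤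
      ∑ m ∈ M θ, (f' ((m * α : ℝ) : UnitAddCircle)) := by
    rw [card_filter, hn, card_eq_sum_ones]
    push_cast
    rw [← sum_sub_distrib]
    apply sum_le_sum
    intro m _
    split_ifs with h5
    · rw [sub_self]; exact hf0' _
    · rw [hf1' _ h5]; norm_num
  have hδn : δ * n ≤ ε / 8 * c θ := by
    calc δ * n ≤ δ * (W * c θ) := mul_le_mul_of_nonneg_left g3.2 hδ0.le
      _ = ε / 8 * c θ * (W / (W + 1)) := by
          rw [hδ]
          have hW1 : 0 < W + 1 := by linarith
          field_simp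
      _ ≤ ε / 8 * c θ * 1 := by
          apply mul_le_mul_of_nonneg_left _ (by positivity)
          rw [div_le_one (by linarith)]; linarith
      _ = _ := by ring
  have c1 : (∫ y, f y) * n ≤ s * n + δ * n := by
    have := mul_le_mul_of_nonneg_right hf2 hn0
    linarith
  have c2 : (∫ y, f' y) * n ≤ (1 - s) * n + δ * n := by
    have := mul_le_mul_of_nonneg_right hf2' hn0
    linarith
  have hec : 0 < ε * c θ := by positivity
  rw [abs_lt]
  constructor
  · linarith
  · linarith

/-! ### the measure of the Beatty set -/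

theorem volume_arc {ℓ : ℝ} (h0 : 0 ≤ ℓ) (h1 : ℓ ≤ 1) : volume (arc ℓ) = ENNReal.ofReal ℓ := by
  have hmp := UnitAddCircle.measurePreserving_mk 0
  have hmeas : NullMeasurableSet (arc ℓ) (volume : Measure UnitAddCircle) := by
    have h2 : IsOpen ((fun s : ℝ => (s : UnitAddCircle)) '' Set.Ioo 0 ℓ) :=
      QuotientAddGroup.isOpenMap_coe _ isOpen_Ioo
    by_cases h3 : 0 < ℓ
    · have h4 : arc ℓ = ((fun s : ℝ => (s : UnitAddCircle)) '' Set.Ioo 0 ℓ) ∪ {((0 : ℝ) : UnitAddCircle)} := by
        unfold arc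
        rw [← Set.Ioo_insert_left h3, Set.image_insert_eq, Set.union_singleton]
      rw [h4]
      exact (h2.measurableSet.union (Set.finite_singleton _).measurableSet).nullMeasurableSet
    · have h5 : ℓ = 0 := le_antisymm (not_lt.1 h3) h0
      have h4 : arc ℓ = ∅ := by unfold arc; rw [h5, Set.Ico_self, Set.image_empty]
      rw [h4]
      exact nullMeasurableSet_empty
  rw [← hmp.measure_preimage hmeas, Measure.restrict_apply₀']
  · have h2 : volume (((fun s : ℝ => (s : UnitAddCircle)) ⁻¹' arc ℓ) ∩ Set.Ioc (0 : ℝ) (0 + 1)) =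
        volume (Set.Ioo (0 : ℝ) ℓ) := by
      apply measure_congr
      rw [ae_eq_set]
      constructor
      · apply measure_mono_null (t := {ℓ, 1}) _ ((Set.toFinite _).measure_zero _)
        rintro x ⟨⟨hx1, hx2, hx3⟩, hx4⟩
        rw [zero_add] at hx3
        rw [Set.mem_insert_iff, Set.mem_singleton_iff]
        by_contra hcon
        rw [not_or] at hcon
        apply hx4
        obtain ⟨y, hy, hyx⟩ := hx1
        have hx5 : x < 1 := lt_of_le_of_ne hx3 hcon.2
        have : y = x := by
          have e := (AddCircle.coe_eq_coe_iff_of_mem_Ico (p := (1 : ℝ)) (a := 0)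
            (hx := ⟨hy.1, by rw [zero_add]; linarith [hy.2]⟩)
            (hy := ⟨hx2.le, by rw [zero_add]; exact hx5⟩)).1 hyx
          exact e
        rw [this] at hy
        exact ⟨hx2, hy.2⟩
      · have : Set.Ioo (0 : ℝ) ℓ \ (((fun s : ℝ => (s : UnitAddCircle)) ⁻¹' arc ℓ) ∩ Set.Ioc (0 : ℝ) (0 + 1)) = ∅ := by
          rw [Set.sdiff_eq_empty]
          rintro x ⟨hx1, hx2⟩
          refine ⟨⟨x, ⟨hx1.le, hx2⟩, rfl⟩, hx1, by rw [zero_add]; linarith⟩
        rw [this, measure_empty]
    rw [h2, Real.volume_Ioo, sub_zero]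
  · exact measurableSet_Ioc.nullMeasurableSet

theorem volume_beattySet {α : ℝ} (hα : 1 < α) (γ : ℝ) :
    (volume (beattySet α γ)).toReal = 1 / α := by
  have hpos : 0 < α := by linarith
  unfold beattySet
  have h1 : MeasurePreserving (Homeomorph.subLeft ((γ / α : ℝ) : UnitAddCircle))
      (volume : Measure UnitAddCircle) volume := by
    have h := (volume : Measure UnitAddCircle).measurePreserving_sub_left ((γ / α : ℝ) : UnitAddCircle)
    have e : (⇑(Homeomorph.subLeft ((γ / α : ℝ) : UnitAddCircle)) : UnitAddCircle → UnitAddCircle) =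
        fun t => ((γ / α : ℝ) : UnitAddCircle) - t := by
      funext t
      rw [Homeomorph.subLeft_apply]
    rw [e]
    exact h
  have h2 : NullMeasurableSet (arc (1 / α)) (volume : Measure UnitAddCircle) := by
    have h3 : (0 : ℝ) < 1 / α := by positivity
    have h2 : IsOpen ((fun s : ℝ => (s : UnitAddCircle)) '' Set.Ioo 0 (1 / α)) :=
      QuotientAddGroup.isOpenMap_coe _ isOpen_Ioo
    have h4 : arc (1 / α) = ((fun s : ℝ => (s : UnitAddCircle)) '' Set.Ioo 0 (1 / α)) ∪
        {((0 : ℝ) : UnitAddCircle)} := by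
      unfold arc
      rw [← Set.Ioo_insert_left h3, Set.image_insert_eq, Set.union_singleton]
    rw [h4]
    exact (h2.measurableSet.union (Set.finite_singleton _).measurableSet).nullMeasurableSet
  rw [h1.measure_preimage h2, volume_arc (by positivity)
    (by rw [div_le_one hpos]; exact hα.le), ENNReal.toReal_ofReal (by positivity)]

end Pool.Agent.H90.SK
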