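import Pool.Agent.H90.SK.Tup
import Pool.Agent.H90.SK.Circ

/-! # Prime tuples with shifts up to a power of `x`: the exceptional rotations -/

set_option autoImplicit false

namespace Pool.Agent.H90.SK

open Finset Filter Topology Pool.Agent.Helper112 Pool.Agent.H90.ST
open scoped ENNReal

open Pool.Agent.Results.MP_485179_nt.AlmostPrimeProgressions (𝔖)

/-- the sets `S D` consist of `n` such that `n` and all `n + d`, `d ∈ D`, are primes -/
def Fam (S : Finset ℕ → Set ℕ) : Prop := ∀ (D : Finset ℕ) (n : ℕ), n ∈ S D → ∀ t ∈ ({0} ∪ D : Finset ℕ), (n + t).Prime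

open Classical in
/-- the coefficients -/
noncomputable def bS (S : Finset ℕ → Set ℕ) (D : Finset ℕ) (n : ℕ) : ℂ := if n ∈ S D then 1 else 0

/-- the coefficients beyond `y` -/
noncomputable def bSy (S : Finset ℕ → Set ℕ) (D : Finset ℕ) (y n : ℕ) : ℂ := if y < n then bS S D n else 0

theorem norm_bS (S : Finset ℕ → Set ℕ) (D : Finset ℕ) (n : ℕ) : ‖bS S D n‖ ≤ 1 := by
  unfold bS; split_ifs <;> simp

theorem norm_bSy (S : Finset ℕ → Set ℕ) (D : Finset ℕ) (y n : ℕ) : ‖bSy S D y n‖ ≤ 1 := by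
  unfold bSy; split_ifs
  · exact norm_bS S D n
  · simp

theorem supp_bSy {S : Finset ℕ → Set ℕ} (hS : Fam S) (D : Finset ℕ) (y n : ℕ) (hn : bSy S D y n ≠ 0) :
    ∀ p ∈ PR y, n % p ∉ omT ({0} ∪ D) p := by
  classical
  intro p hp hmem
  obtain ⟨hpp, hpy⟩ := mem_PR.1 hp
  unfold bSy at hn
  split_ifs at hn with h
  · unfold bS at hn
    have hnS : n ∈ S D := by
      by_contra hcon
      rw [if_neg hcon] at hn
      exact hn rfl
    obtain ⟨t, ht, hd⟩ := (mem_omT _ hpp.pos n).1 hmem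
    have h1 := hS D n hnS t ht
    have h2 := (Nat.prime_dvd_prime_iff_eq hpp h1).1 hd
    omega
  · exact hn rfl

theorem TT_trunc (S : Finset ℕ → Set ℕ) (D : Finset ℕ) (y N : ℕ) (x : ℝ) :
    ‖TT N (bS S D) x - TT N (bSy S D y) x‖ ≤ y := by
  have h1 : TT N (bS S D) x - TT N (bSy S D y) x = TT N (fun n => if y < n then 0 else bS S D n) x := by
    unfold TT
    rw [← sum_sub_distrib]
    apply sum_congr rfl
    intro n _
    unfold bSy
    by_cases h : y < n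
    · simp only [if_pos h]; ring
    · simp only [if_neg h]; ring
  rw [h1]
  apply sum_norm_le'
  · intro n
    split_ifs
    · simp
    · exact norm_bS S D n
  · intro n hn
    rw [if_pos hn]
where
  sum_norm_le' {N y : ℕ} {b : ℕ → ℂ} {x : ℝ} (hb1 : ∀ n, ‖b n‖ ≤ 1) (hb : ∀ n, y < n → b n = 0) :
      ‖TT N b x‖ ≤ y := by
    classical
    unfold TT
    calc ‖∑ n ∈ Icc 1 N, b n * ee (n * x)‖ ≤ ∑ n ∈ Icc 1 N, ‖b n * ee (n * x)‖ := norm_sum_le _ _
      _ ≤ ∑ n ∈ Icc 1 N, (if n ≤ y then (1 : ℝ) else 0) := by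
          apply sum_le_sum
          intro n _
          rw [norm_mul, Pool.Agent.Helper112.ls_norm_ee, mul_one]
          split_ifs with h
          · exact hb1 n
          · rw [hb n (by omega), norm_zero]
      _ = (((Icc 1 N).filter (fun n => n ≤ y)).card : ℝ) := by
          rw [← sum_filter, sum_const, nsmul_eq_mul, mul_one]
      _ ≤ ((Icc 1 y).card : ℝ) := by
          norm_cast
          apply card_le_card
          intro n hn
          rw [mem_filter, mem_Icc] at hn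
          rw [mem_Icc]
          omega
      _ = y := by simp

/-- changing the length -/
theorem TT_len (N N' : ℕ) (b : ℕ → ℂ) (hb1 : ∀ n, ‖b n‖ ≤ 1) (h : N' ≤ N) (x : ℝ) :
    ‖TT N b x - TT N' b x‖ ≤ ((N - N' : ℕ) : ℝ) := by
  classical
  have h1 : TT N b x - TT N' b x = ∑ n ∈ Ioc N' N, b n * ee (n * x) := by
    unfold TT
    rw [sub_eq_iff_eq_add, ← sum_union]
    · congr 1
      ext n
      simp only [mem_union, mem_Ioc, mem_Icc]
      omega
    · rw [disjoint_left]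
      intro n hn1 hn2
      rw [mem_Ioc] at hn1
      rw [mem_Icc] at hn2
      omega
  rw [h1]
  have h2 : ‖∑ n ∈ Ioc N' N, b n * ee (n * x)‖ ≤ ∑ n ∈ Ioc N' N, (1 : ℝ) := by
    refine norm_sum_le_of_le _ fun n _ => ?_
    rw [norm_mul, ls_norm_ee, mul_one]
    exact hb1 n
  refine h2.trans (le_of_eq ?_)
  rw [sum_const, Nat.card_Ioc, nsmul_eq_mul, mul_one]

theorem VV_ge (k : ℕ) (hk : 1 ≤ k) : ∃ c : ℝ, 0 < c ∧ ∀ Om : ℕ → Finset ℕ, Adm k Om → ∀ i y : ℕ, 1 ≤ i →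
    y ≤ 2 ^ i → c / ((i : ℝ) + 1) ^ (2 * k) ≤ VV Om y := by
  obtain ⟨c, hc0, hc⟩ := prod_few k hk
  refine ⟨c, hc0, fun Om hOm i y hi hy => ?_⟩
  have h1 := hc Om hOm (max 3 y) (PR y) (le_max_left _ _) (by
    refine le_trans ?_ (le_max_right _ _)
    unfold PR
    refine (card_filter_le _ _).trans ?_
    simp) (fun p hp => (mem_PR.1 hp).1)
  have h1' : c / Real.log ((max 3 y : ℕ) : ℝ) ^ (2 * k) ≤ VV Om y := h1
  refine le_trans ?_ h1'
  have h3 : (0 : ℝ) < Real.log ((max 3 y : ℕ) : ℝ) := by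
    apply Real.log_pos
    have : 3 ≤ max 3 y := le_max_left _ _
    exact_mod_cast (by omega : 1 < max 3 y)
  apply div_le_div_of_nonneg_left hc0.le (by positivity)
  apply pow_le_pow_left₀ h3.le
  have h4 : ((max 3 y : ℕ) : ℝ) ≤ 2 ^ (i + 1) := by
    have : max 3 y ≤ 2 ^ (i + 1) := by
      apply max_le
      · calc 3 ≤ 2 ^ 2 := by norm_num
          _ ≤ 2 ^ (i + 1) := Nat.pow_le_pow_right (by norm_num) (by omega)
      · exact hy.trans (Nat.pow_le_pow_right (by norm_num) (by omega))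
    exact_mod_cast this
  have h5 : (0 : ℝ) < ((max 3 y : ℕ) : ℝ) := by
    have : 3 ≤ max 3 y := le_max_left _ _
    exact_mod_cast (by omega : 0 < max 3 y)
  calc Real.log ((max 3 y : ℕ) : ℝ) ≤ Real.log ((2 : ℝ) ^ (i + 1)) := Real.log_le_log h5 h4
    _ = ((i : ℝ) + 1) * Real.log 2 := by rw [Real.log_pow]; push_cast; ring
    _ ≤ ((i : ℝ) + 1) * 1 := by
        apply mul_le_mul_of_nonneg_left _ (by positivity)
        have := Real.log_two_lt_d9
        linarith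
    _ = _ := by ring

/-- the level of the sieve at the scale `2 ^ i` -/
def yy (s i : ℕ) : ℕ := 2 ^ (i / (8 * s))

theorem yy_pow {s i : ℕ} (_hs : 1 ≤ s) (hi : 2 ≤ i) : 2 * yy s i ^ (4 * s) ≤ 2 ^ i := by
  unfold yy
  rw [← pow_mul, ← pow_succ']
  apply Nat.pow_le_pow_right (by norm_num)
  have h1 : i / (8 * s) * (8 * s) ≤ i := Nat.div_mul_le_self _ _
  have h2 : i / (8 * s) * (4 * s) * 2 = i / (8 * s) * (8 * s) := by ring
  omega

theorem yy_two {s i : ℕ} (hs : 1 ≤ s) (hi : 8 * s ≤ i) : 2 ≤ yy s i := by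
  unfold yy
  calc 2 = 2 ^ 1 := rfl
    _ ≤ _ := Nat.pow_le_pow_right (by norm_num) ((Nat.one_le_div_iff (by omega)).2 hi)

/-- the number of the grid points at the scale `2 ^ i` -/
def tt (K i : ℕ) : ℕ := K * Nat.log 2 (i + 1)

theorem two_tt_le (K i : ℕ) : 2 ^ tt K i ≤ (i + 1) ^ K := by
  unfold tt
  rw [mul_comm, pow_mul]
  exact Nat.pow_le_pow_left (Nat.pow_log_le_self 2 (by omega)) K

theorem two_tt_ge (K i : ℕ) : (i + 1) ^ K ≤ 2 ^ K * 2 ^ tt K i := by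
  unfold tt
  rw [mul_comm K, pow_mul, ← mul_pow]
  apply Nat.pow_le_pow_left
  have := Nat.lt_pow_succ_log_self (b := 2) (by norm_num) (i + 1)
  rw [pow_succ] at this
  omega

theorem poly_exp (K : ℕ) (A : ℝ) : ∀ᶠ i : ℕ in atTop, A * ((i : ℝ) + 1) ^ K ≤ 2 ^ i := by
  have h1 : Tendsto (fun n : ℕ => (n : ℝ) ^ K / 2 ^ n) atTop (𝓝 0) :=
    tendsto_pow_const_div_const_pow_of_one_lt K (by norm_num)
  have h2 := h1.comp (tendsto_add_atTop_nat 1)
  have h3 := h2.eventually (gt_mem_nhds (show (0 : ℝ) < 1 / (2 * (|A| + 1)) by positivity))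
  filter_upwards [h3] with i hi
  simp only [Function.comp] at hi
  rw [div_lt_div_iff₀ (by positivity) (by positivity), pow_succ] at hi
  push_cast at hi
  have h4 : A * ((i : ℝ) + 1) ^ K ≤ (|A| + 1) * ((i : ℝ) + 1) ^ K := by
    apply mul_le_mul_of_nonneg_right _ (by positivity)
    have := le_abs_self A
    linarith
  nlinarith

/-- large values at the scale `2 ^ i` -/
def Lev (S : Finset ℕ → Set ℕ) (s k : ℕ) (η ε : ℝ) (i : ℕ) (α : ℝ) : Prop :=
  ∃ N : ℕ, 2 ^ i ≤ N ∧ N < 2 ^ (i + 1) ∧ ∃ D : Finset ℕ, D.card = k ∧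
    (∀ d ∈ D, 1 ≤ d ∧ (d : ℝ) ≤ (2 : ℝ) ^ (((i : ℝ) + 1) * η)) ∧ 𝔖 ({0} ∪ D) ≠ 0 ∧
    ε * (N * VV (omT ({0} ∪ D)) (yy s i)) ≤ ‖TT N (bS S D) α‖

theorem card_zero_union {k : ℕ} {D : Finset ℕ} (hD : D.card = k) (h0 : ∀ d ∈ D, 1 ≤ d) :
    ({0} ∪ D : Finset ℕ).card = k + 1 := by
  have : (0 : ℕ) ∉ D := fun h => by have := h0 0 h; omega
  rw [card_union_of_disjoint (by simpa using this), hD, card_singleton, add_comm]

/-- **The dimension of the exceptional set.** -/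
theorem dim_Lev (k : ℕ) : ∃ s : ℕ, 1 ≤ s ∧ (∃ C : ℝ, 0 < C ∧ ∀ y N : ℕ, 2 ≤ y →
    2 * y ^ (4 * s) ≤ N → ∀ Om : ℕ → Finset ℕ, Adm (k + 1) Om → ∀ b : ℕ → ℂ,
      (∀ n, b n ≠ 0 → ∀ p ∈ PR y, n % p ∉ Om p) → (∀ n, ‖b n‖ ≤ 1) →
        ∑ n ∈ Icc 1 N, ‖b n‖ ^ 2 ≤ C * (N * VV Om y)) ∧
    ∀ S : Finset ℕ → Set ℕ, Fam S → ∀ η ε D₀ : ℝ, 0 < η → 0 < ε → k * η < D₀ →
      dimH {α : ℝ | ∃ᶠ i in atTop, Lev S s k η ε i α} ≤ ENNReal.ofReal D₀ := by
  classical
  obtain ⟨s, hs, hcnt, hfew⟩ := few_set (k + 1) (by omega)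
  obtain ⟨c, hc0, hV⟩ := VV_ge (k + 1) (by omega)
  refine ⟨s, hs, hcnt, fun S hS η ε D₀ hη hε hD₀ => ?_⟩
  obtain ⟨B, hB⟩ := hfew (ε / 2) (by positivity)
  set K : ℕ := 2 * (k + 1) + 1 with hK
  -- the eventual inequalities
  have ev1 := poly_exp (2 * K) 1
  obtain ⟨i₁, hi₁⟩ := exists_nat_gt (2 ^ K * 4 / (ε * c))
  obtain ⟨i₂, hi₂⟩ := eventually_atTop.1 ev1
  set i₀ : ℕ := max (max i₁ i₂) (8 * s + 2) with hi₀
  have hD0 : 0 < D₀ := lt_of_le_of_lt (by positivity) hD₀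
  -- the grid
  set NN : ℕ → ℕ → ℕ := fun i j => 2 ^ i + j * 2 ^ (i - tt K i) with hNN
  set hh : ℕ → ℕ := fun i => ⌊(2 : ℝ) ^ (((i : ℝ) + 1) * η)⌋₊ with hhh
  set DD : ℕ → Finset (Finset ℕ) := fun i =>
    ((Icc 1 (hh i)).powersetCard k).filter (fun D => 𝔖 ({0} ∪ D) ≠ 0) with hDD
  set Lv : ℕ → ℕ → Finset ℕ → ℝ := fun i j D =>
    ε / 2 * ((NN i j : ℕ) * VV (omT ({0} ∪ D)) (yy s i)) with hLv
  set Sx : ℕ → Finset (ℕ × ℕ) := fun i => if i₀ ≤ i then
    (range (2 ^ tt K i)).biUnion (fun j => (DD i).biUnion (fun D =>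
      (cellsL (NN i j) (bSy S D (yy s i)) (Lv i j D)).image (fun e => (NN i j, e)))) else ∅ with hSx
  have hNN1 : ∀ i j, 2 ^ i ≤ NN i j := fun i j => by simp only [hNN]; omega
  have hDcard : ∀ i, ∀ D ∈ DD i, ({0} ∪ D : Finset ℕ).card = k + 1 := by
    intro i D hD
    simp only [hDD] at hD
    rw [mem_filter, mem_powersetCard] at hD
    apply card_zero_union hD.1.2
    intro d hd
    exact (mem_Icc.1 (hD.1.1 hd)).1
  have hadm : ∀ i, ∀ D ∈ DD i, Adm (k + 1) (omT ({0} ∪ D)) := by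
    intro i D hD
    have hD' := hD
    simp only [hDD] at hD'
    rw [mem_filter] at hD'
    exact adm_omT hD'.2 (hDcard i D hD).le
  have hScard : ∀ i, ((Sx i).card : ℝ) ≤ ((i : ℝ) + 1) ^ K * ((2 : ℝ) ^ (((i : ℝ) + 1) * η)) ^ k *
      ((1 + (B + B) : ℕ) : ℝ) := by
    intro i
    by_cases hi : i₀ ≤ i
    swap
    · simp only [hSx]
      rw [if_neg hi, card_empty, Nat.cast_zero]
      positivity
    have hi8 : 8 * s + 2 ≤ i := (le_max_right _ _).trans hi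
    have h1 : (Sx i).card ≤ 2 ^ tt K i * ((DD i).card * (1 + (B + B))) := by
      simp only [hSx]
      rw [if_pos hi]
      refine (card_biUnion_le_card_mul _ _ ((DD i).card * (1 + (B + B))) ?_).trans
        (by rw [card_range])
      intro j _
      refine card_biUnion_le_card_mul _ _ (1 + (B + B)) ?_
      intro D hD
      refine card_image_le.trans ?_
      have h2N : 1 ≤ NN i j := le_trans (Nat.one_le_two_pow) (hNN1 i j)
      refine cells_le h2N _ _ B ?_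
      intro J ξ hsep hlarge
      exact hB (yy s i) (NN i j) (yy_two hs (by omega)) ((yy_pow hs (by omega)).trans (hNN1 i j))
        (omT ({0} ∪ D)) (hadm i D hD) (bSy S D (yy s i)) (supp_bSy hS D _) (norm_bSy S D _) J ξ hsep hlarge
    have h2 : ((DD i).card : ℝ) ≤ ((2 : ℝ) ^ (((i : ℝ) + 1) * η)) ^ k := by
      have h3 : (DD i).card ≤ (hh i) ^ k := by
        simp only [hDD]
        refine (card_filter_le _ _).trans ?_
        rw [card_powersetCard, Nat.card_Icc, Nat.add_sub_cancel]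
        exact Nat.choose_le_pow _ _
      calc ((DD i).card : ℝ) ≤ ((hh i : ℕ) : ℝ) ^ k := by exact_mod_cast h3
        _ ≤ _ := pow_le_pow_left₀ (Nat.cast_nonneg _) (Nat.floor_le (by positivity)) k
    have h4 : ((2 ^ tt K i : ℕ) : ℝ) ≤ ((i : ℝ) + 1) ^ K := by exact_mod_cast two_tt_le K i
    calc ((Sx i).card : ℝ) ≤ ((2 ^ tt K i * ((DD i).card * (1 + (B + B))) : ℕ) : ℝ) := by exact_mod_cast h1
      _ = ((2 ^ tt K i : ℕ) : ℝ) * ((DD i).card : ℝ) * ((1 + (B + B) : ℕ) : ℝ) := by push_cast; ring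
      _ ≤ _ := by
          apply mul_le_mul_of_nonneg_right _ (Nat.cast_nonneg _)
          exact mul_le_mul h4 h2 (Nat.cast_nonneg _) (by positivity)
  have hsum : Summable fun i => ((Sx i).card : ℝ) * (1 / ((2 ^ i : ℕ) : ℝ)) ^ D₀ := by
    set r : ℝ := (2 : ℝ) ^ (k * η - D₀) with hr
    have hr0 : 0 < r := by positivity
    have hr1 : r < 1 := Real.rpow_lt_one_of_one_lt_of_neg (by norm_num) (by linarith)
    have h1 : Summable fun n : ℕ => ((n : ℝ)) ^ K * r ^ n :=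
      summable_pow_mul_geometric_of_norm_lt_one K (by rw [Real.norm_of_nonneg hr0.le]; exact hr1)
    have h2 := (summable_nat_add_iff 1).2 h1
    refine Summable.of_nonneg_of_le (fun i => by positivity) (fun i => ?_)
      (h2.mul_left ((2 : ℝ) ^ D₀ * ((1 + (B + B) : ℕ) : ℝ)))
    have e1 : (1 / ((2 ^ i : ℕ) : ℝ)) ^ D₀ = (2 : ℝ) ^ (-(i * D₀)) := by
      push_cast
      rw [one_div, Real.inv_rpow (by positivity), ← Real.rpow_natCast, ← Real.rpow_mul (by norm_num),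
        Real.rpow_neg (by norm_num)]
    have e2 : ((2 : ℝ) ^ (((i : ℝ) + 1) * η)) ^ k * (2 : ℝ) ^ (-(i * D₀)) = (2 : ℝ) ^ D₀ * r ^ (i + 1) := by
      rw [hr, ← Real.rpow_natCast ((2 : ℝ) ^ (((i : ℝ) + 1) * η)), ← Real.rpow_mul (by norm_num),
        ← Real.rpow_natCast ((2 : ℝ) ^ (k * η - D₀)), ← Real.rpow_mul (by norm_num),
        ← Real.rpow_add (by norm_num), ← Real.rpow_add (by norm_num)]
      congr 1
      push_cast
      ring
    calc ((Sx i).card : ℝ) * (1 / ((2 ^ i : ℕ) : ℝ)) ^ D₀ ≤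
          (((i : ℝ) + 1) ^ K * ((2 : ℝ) ^ (((i : ℝ) + 1) * η)) ^ k * ((1 + (B + B) : ℕ) : ℝ)) *
            (1 / ((2 ^ i : ℕ) : ℝ)) ^ D₀ := mul_le_mul_of_nonneg_right (hScard i) (by positivity)
      _ = ((i : ℝ) + 1) ^ K * ((1 + (B + B) : ℕ) : ℝ) *
          (((2 : ℝ) ^ (((i : ℝ) + 1) * η)) ^ k * (2 : ℝ) ^ (-(i * D₀))) := by rw [e1]; ring
      _ = _ := by rw [e2]; push_cast; ring
  -- the limsup set
  apply dim_periodic
  · intro α hα
    refine Filter.Frequently.mono hα ?_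
    rintro i ⟨N, h1, h2, D, h3, h4, h5, h6⟩
    refine ⟨N, h1, h2, D, h3, h4, h5, h6.trans (le_of_eq ?_)⟩
    conv_lhs => rw [← Int.fract_add_floor α]
    rw [TT_add_int]
  refine (dimH_mono ?_).trans (dim_cells Sx (fun i => 2 ^ i) (fun i => Nat.one_le_two_pow) ?_ hD0 hsum)
  swap
  · intro i z hz
    simp only [hSx] at hz
    split_ifs at hz with h
    · rw [mem_biUnion] at hz
      obtain ⟨j, _, hz⟩ := hz
      rw [mem_biUnion] at hz
      obtain ⟨D, _, hz⟩ := hz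
      rw [mem_image] at hz
      obtain ⟨e, _, rfl⟩ := hz
      exact hNN1 i j
    · simp at hz
  rintro α ⟨hα, hα0, hα1⟩
  refine (hα.and_eventually (eventually_ge_atTop i₀)).mono ?_
  rintro i ⟨⟨N, hN1, hN2, D, hDk, hDη, hDS, hbig⟩, hi⟩
  have hi8 : 8 * s + 2 ≤ i := (le_max_right _ _).trans hi
  have hii₁ : i₁ ≤ i := ((le_max_left _ _).trans (le_max_left _ _)).trans hi
  have hii₂ : i₂ ≤ i := ((le_max_right _ _).trans (le_max_left _ _)).trans hi
  have hDmem : D ∈ DD i := by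
    simp only [hDD]
    rw [mem_filter, mem_powersetCard]
    refine ⟨⟨?_, hDk⟩, hDS⟩
    intro d hd
    rw [mem_Icc]
    exact ⟨(hDη d hd).1, Nat.le_floor (hDη d hd).2⟩
  -- the inequalities at `i`
  have q1 : (1 : ℝ) * ((i : ℝ) + 1) ^ (2 * K) ≤ 2 ^ i := hi₂ i hii₂
  have htt : 2 * tt K i ≤ i := by
    have h1 : 2 ^ (2 * tt K i) ≤ 2 ^ i := by
      have h2 : (2 ^ tt K i) ^ 2 ≤ ((i + 1) ^ K) ^ 2 := Nat.pow_le_pow_left (two_tt_le K i) 2
      rw [← pow_mul, ← pow_mul, mul_comm (tt K i), mul_comm K] at h2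
      refine h2.trans ?_
      have : ((i : ℝ) + 1) ^ (2 * K) ≤ 2 ^ i := by linarith
      exact_mod_cast this
    exact (Nat.pow_le_pow_iff_right (by norm_num)).1 h1
  set H : ℕ := 2 ^ (i - tt K i) with hH
  have hHt : 2 ^ tt K i * H = 2 ^ i := by
    rw [hH, ← pow_add]; congr 1; omega
  have hyH : yy s i ≤ H := by
    rw [hH]
    unfold yy
    apply Nat.pow_le_pow_right (by norm_num)
    have h1 : i / (8 * s) ≤ i / 8 := Nat.div_le_div_left (by omega) (by norm_num)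
    omega
  have hHpos : 0 < H := by rw [hH]; positivity
  have hadmD := hadm i D hDmem
  have hVi : c / ((i : ℝ) + 1) ^ (2 * (k + 1)) ≤ VV (omT ({0} ∪ D)) (yy s i) :=
    hV _ hadmD i (yy s i) (by omega) (by
      unfold yy
      exact Nat.pow_le_pow_right (by norm_num) (Nat.div_le_self _ _))
  set V : ℝ := VV (omT ({0} ∪ D)) (yy s i) with hVdef
  have hV0 : 0 < V := VV_pos hadmD _
  have hi1 : (0 : ℝ) < (i : ℝ) + 1 := by positivity
  have q2 : 2 * (H : ℝ) ≤ ε / 2 * (2 ^ i * V) := by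
    have h1 : (((i : ℝ) + 1) ^ K) ≤ 2 ^ K * 2 ^ tt K i := by exact_mod_cast two_tt_ge K i
    have h2 : (2 : ℝ) ^ tt K i * H = 2 ^ i := by exact_mod_cast hHt
    have h3 : 2 ^ K * 4 / (ε * c) < (i : ℝ) + 1 := by
      have : (i₁ : ℝ) ≤ i := by exact_mod_cast hii₁
      linarith
    rw [div_lt_iff₀ (by positivity)] at h3
    have h4 : c ≤ V * ((i : ℝ) + 1) ^ (2 * (k + 1)) := by
      rwa [div_le_iff₀ (by positivity)] at hVi
    have h5 : ((i : ℝ) + 1) ^ K = ((i : ℝ) + 1) ^ (2 * (k + 1)) * ((i : ℝ) + 1) := by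
      rw [hK, pow_succ]
    have hHr : (0 : ℝ) < H := by exact_mod_cast hHpos
    set P : ℝ := ((i : ℝ) + 1) ^ (2 * (k + 1)) with hP
    have hP0 : 0 < P := by positivity
    -- 2 ^ K * 4 < (i+1) ε c ≤ (i + 1) ε V P
    have h6 : (2 : ℝ) ^ K * 4 ≤ ε * V * (((i : ℝ) + 1) ^ K) := by
      calc (2 : ℝ) ^ K * 4 ≤ ((i : ℝ) + 1) * (ε * c) := h3.le
        _ ≤ ((i : ℝ) + 1) * (ε * (V * P)) := by
            apply mul_le_mul_of_nonneg_left _ hi1.le
            exact mul_le_mul_of_nonneg_left h4 hε.le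
        _ = ε * V * (((i : ℝ) + 1) ^ K) := by rw [h5]; ring
    have h7 : (2 : ℝ) ^ K * 4 ≤ ε * V * (2 ^ K * 2 ^ tt K i) :=
      h6.trans (mul_le_mul_of_nonneg_left h1 (by positivity))
    have h8 : (4 : ℝ) ≤ ε * V * 2 ^ tt K i := by
      have : (2 : ℝ) ^ K * 4 ≤ 2 ^ K * (ε * V * 2 ^ tt K i) := by
        calc _ ≤ _ := h7
          _ = _ := by ring
      exact le_of_mul_le_mul_left this (by positivity)
    calc 2 * (H : ℝ) = 4 * H / 2 := by ring
      _ ≤ (ε * V * 2 ^ tt K i) * H / 2 := by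
          apply div_le_div_of_nonneg_right _ (by norm_num)
          exact mul_le_mul_of_nonneg_right h8 hHr.le
      _ = ε / 2 * ((2 ^ tt K i * H) * V) := by ring
      _ = _ := by rw [h2]
  -- the grid point
  set j : ℕ := (N - 2 ^ i) / H with hj
  have hjt : j < 2 ^ tt K i := by
    rw [hj, Nat.div_lt_iff_lt_mul hHpos, hHt]
    rw [pow_succ] at hN2
    omega
  set N' : ℕ := NN i j with hN'
  have hN'eq : N' = 2 ^ i + j * H := rfl
  have hmod := Nat.div_add_mod (N - 2 ^ i) H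
  have hlt := Nat.mod_lt (N - 2 ^ i) (show H > 0 by omega)
  have hjH : H * ((N - 2 ^ i) / H) = j * H := by rw [hj]; ring
  have hN'N : N' ≤ N := by omega
  have hNN' : N - N' ≤ H := by omega
  have hlen := TT_len N N' (bSy S D (yy s i)) (norm_bSy S D _) hN'N α
  have htr := TT_trunc S D (yy s i) N α
  have hlarge : Lv i j D ≤ ‖TT N' (bSy S D (yy s i)) α‖ := by
    have h1 : ‖TT N (bS S D) α‖ ≤ ‖TT N (bS S D) α - TT N (bSy S D (yy s i)) α‖ +
        ‖TT N (bSy S D (yy s i)) α - TT N' (bSy S D (yy s i)) α‖ + ‖TT N' (bSy S D (yy s i)) α‖ := by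
      have e : TT N (bS S D) α = (TT N (bS S D) α - TT N (bSy S D (yy s i)) α) +
        (TT N (bSy S D (yy s i)) α - TT N' (bSy S D (yy s i)) α) + TT N' (bSy S D (yy s i)) α := by ring
      calc ‖TT N (bS S D) α‖ = ‖(TT N (bS S D) α - TT N (bSy S D (yy s i)) α) +
        (TT N (bSy S D (yy s i)) α - TT N' (bSy S D (yy s i)) α) + TT N' (bSy S D (yy s i)) α‖ := by rw [← e]
        _ ≤ _ := norm_add₃_le
    have h2 : ((yy s i : ℕ) : ℝ) ≤ H := by exact_mod_cast hyH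
    have h3 : ((N - N' : ℕ) : ℝ) ≤ H := by exact_mod_cast hNN'
    have h4 : ε / 2 * ((2 : ℝ) ^ i * V) ≤ ε / 2 * (N * V) := by
      apply mul_le_mul_of_nonneg_left _ (by positivity)
      apply mul_le_mul_of_nonneg_right _ hV0.le
      exact_mod_cast hN1
    have h5 : ε / 2 * (N' * V) ≤ ε / 2 * (N * V) := by
      apply mul_le_mul_of_nonneg_left _ (by positivity)
      apply mul_le_mul_of_nonneg_right _ hV0.le
      exact_mod_cast hN'N
    have h6 : Lv i j D = ε / 2 * (N' * V) := rfl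
    rw [h6]
    have h7 : ε * (N * V) ≤ ‖TT N (bS S D) α‖ := hbig
    have h8 : ε * (N * V) = ε / 2 * (N * V) + ε / 2 * (N * V) := by ring
    linarith
  obtain ⟨e, he1, he2, he3⟩ := cell_mem (le_trans Nat.one_le_two_pow (hNN1 i j)) hα0 hα1 hlarge
  refine ⟨(N', e), ?_, he2, he3⟩
  simp only [hSx]
  rw [if_pos hi, mem_biUnion]
  refine ⟨j, mem_range.2 hjt, ?_⟩
  rw [mem_biUnion]
  exact ⟨D, hDmem, mem_image.2 ⟨e, he1, rfl⟩⟩

end Pool.Agent.H90.SK
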