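import Pool.Agent.H90.SK.Bdh

/-! # The equivalence of the law in fixed classes and of the mean square laws -/

set_option autoImplicit false

namespace Pool.Agent.H90.SK

open Finset Filter Topology

theorem sum_modT (g m : ℕ) (F : ℕ → ℝ) :
    ∑ a ∈ range (g * m), F (a % g) = m * ∑ a ∈ range g, F a := by
  induction m with
  | zero => simp
  | succ m ih =>
    rw [mul_add, mul_one, sum_range_add, ih]
    have : ∑ x ∈ range g, F ((g * m + x) % g) = ∑ a ∈ range g, F a := by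
      apply sum_congr rfl
      intro a ha
      rw [Nat.mul_add_mod, Nat.mod_eq_of_lt (mem_range.1 ha)]
    rw [this]
    push_cast
    ring

theorem fiberT {q₀ g q : ℕ} (h1 : q₀ ∣ g) (h2 : g ∣ q) (hq : 1 ≤ q) (a₀ : ℕ) (h : ℕ → ℝ) :
    ∑ a ∈ (range q).filter (fun a => a ≡ a₀ [MOD q₀]), h (a % g) =
      ((q : ℝ) / g) * ∑ a ∈ (range g).filter (fun a => a ≡ a₀ [MOD q₀]), h a := by
  obtain ⟨m, rfl⟩ := h2
  have hg : 0 < g := Nat.pos_of_ne_zero (by rintro rfl; simp at hq)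
  have hg0 : (g : ℝ) ≠ 0 := by positivity
  have h3 := sum_modT g m (fun a => if a ≡ a₀ [MOD q₀] then h a else 0)
  rw [sum_filter, sum_filter]
  have h4 : ∀ a ∈ range (g * m), (if a ≡ a₀ [MOD q₀] then h (a % g) else 0) =
      (fun a => if a ≡ a₀ [MOD q₀] then h a else 0) (a % g) := by
    intro a _
    have : a % g ≡ a₀ [MOD q₀] ↔ a ≡ a₀ [MOD q₀] := by
      have h5 : a % g ≡ a [MOD q₀] := (Nat.mod_modEq a g).of_dvd h1
      exact ⟨fun h => h5.symm.trans h, fun h => h5.trans h⟩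
    simp only [this]
  rw [sum_congr rfl h4, h3]
  push_cast
  field_simp

theorem card_classT {q₀ q : ℕ} (h1 : q₀ ∣ q) (hq : 1 ≤ q) {a₀ : ℕ} (ha : a₀ < q₀) :
    (((range q).filter (fun a => a ≡ a₀ [MOD q₀])).card : ℝ) = (q : ℝ) / q₀ := by
  have h2 := fiberT (dvd_refl q₀) h1 hq a₀ (fun _ => 1)
  rw [sum_const, nsmul_eq_mul, mul_one] at h2
  rw [h2]
  have h3 : (range q₀).filter (fun a => a ≡ a₀ [MOD q₀]) = {a₀} := by
    ext a
    rw [mem_filter, mem_range, mem_singleton]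
    constructor
    · rintro ⟨h4, h5⟩
      exact h5.eq_of_lt_of_lt h4 ha
    · rintro rfl
      exact ⟨ha, rfl⟩
  rw [h3, sum_singleton, mul_one]

/-- the mean square deviation from the main terms modulo `gcd(q, P)` -/
noncomputable def devT (cnt mn : ℕ → ℕ → ℝ) (P Q : ℕ) : ℝ :=
  ∑ q ∈ Ico Q (2 * Q), ∑ a ∈ range q, (cnt q a - (Nat.gcd q P / q : ℝ) * mn (Nat.gcd q P) (a % Nat.gcd q P)) ^ 2

/-- the relative mean square deviation -/
noncomputable def relT (cnt : ℕ → ℕ → ℝ) (P Q : ℕ) : ℝ :=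
  ∑ q ∈ Ico Q (2 * Q), ∑ a ∈ range q, (cnt q a - (Nat.gcd q P / q : ℝ) * cnt (Nat.gcd q P) a) ^ 2

section

variable {F : Filter ℕ} {E : ℕ → ℝ} {cnt mn : ℕ → ℕ → ℕ → ℝ}

theorem tf_large (hE : Tendsto E F atTop)
    (hmod : ∀ N g a, cnt N g a = cnt N g (a % g))
    (hrel : ∀ ε : ℝ, 0 < ε → ∃ (P₀ : ℕ) (δ : ℝ), 1 ≤ P₀ ∧ 0 < δ ∧ ∀ᶠ N in F, ∀ P : ℕ, 1 ≤ P → P₀ ∣ P →
      ∀ Q : ℕ, 1 ≤ Q → (Q : ℝ) ≤ δ * E N → relT (cnt N) P Q ≤ ε * E N ^ 2)
    (h : ∀ q a : ℕ, 1 ≤ q → a < q → Tendsto (fun N => (cnt N q a - mn N q a) / E N) F (𝓝 0)) :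
    ∀ ε : ℝ, 0 < ε → ∃ (P₀ : ℕ) (δ : ℝ), 1 ≤ P₀ ∧ 0 < δ ∧ ∀ P : ℕ, 1 ≤ P → P₀ ∣ P → ∀ᶠ N in F,
      ∀ Q : ℕ, 1 ≤ Q → (Q : ℝ) ≤ δ * E N → devT (cnt N) (mn N) P Q ≤ ε * E N ^ 2 := by
  intro ε hε
  obtain ⟨P₀, δ, hP₀, hδ, hrel⟩ := hrel (ε / 4) (by positivity)
  refine ⟨P₀, δ, hP₀, hδ, fun P hP hPP => ?_⟩
  have hP0 : (0 : ℝ) < P := by exact_mod_cast hP
  set η : ℝ := √(ε / 4) / P with hη
  have hη0 : 0 < η := by positivity
  have hfix : ∀ᶠ N in F, ∀ g ∈ Icc 1 P, ∀ a ∈ range g, |(cnt N g a - mn N g a) / E N| ≤ η := by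
    rw [eventually_all_finset]
    intro g hg
    rw [eventually_all_finset]
    intro a ha
    rw [mem_Icc] at hg
    rw [mem_range] at ha
    have := (h g a hg.1 ha)
    rw [Metric.tendsto_nhds] at this
    filter_upwards [this η hη0] with x hx
    rw [dist_zero_right, Real.norm_eq_abs] at hx
    exact hx.le
  filter_upwards [hrel, hfix, hE.eventually_gt_atTop 0] with N hx1 hx2 hX Q hQ hQx
  have h1 := hx1 P hP hPP Q hQ hQx
  have hQ0 : (0 : ℝ) < Q := by exact_mod_cast hQ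
  have h2 : ∀ q ∈ Ico Q (2 * Q), ∀ a ∈ range q,
      (cnt N q a - (Nat.gcd q P / q : ℝ) * mn N (Nat.gcd q P) (a % Nat.gcd q P)) ^ 2 ≤
        2 * (cnt N q a - (Nat.gcd q P / q : ℝ) * cnt N (Nat.gcd q P) a) ^ 2 +
          2 * ((P : ℝ) / q * (η * E N)) ^ 2 := by
    intro q hq a _
    rw [mem_Ico] at hq
    have hq1 : 1 ≤ q := by omega
    have hq0 : (0 : ℝ) < q := by exact_mod_cast hq1
    set g := Nat.gcd q P with hg
    have hg1 : 1 ≤ g := Nat.gcd_pos_of_pos_right q hP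
    have hgP : g ≤ P := Nat.le_of_dvd hP (Nat.gcd_dvd_right q P)
    have e1 : cnt N g a = cnt N g (a % g) := hmod N g a
    have e2 := hx2 g (mem_Icc.2 ⟨hg1, hgP⟩) (a % g) (mem_range.2 (Nat.mod_lt _ hg1))
    have e3 : |cnt N g a - mn N g (a % g)| ≤ η * E N := by
      rw [abs_div, abs_of_pos hX, div_le_iff₀ hX] at e2
      rw [e1]
      exact e2
    have e4 : |(g / q : ℝ) * (cnt N g a - mn N g (a % g))| ≤ (P : ℝ) / q * (η * E N) := by
      rw [abs_mul, abs_of_nonneg (by positivity)]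
      apply mul_le_mul _ e3 (abs_nonneg _) (by positivity)
      apply div_le_div_of_nonneg_right _ hq0.le
      exact_mod_cast hgP
    have e5 : ((g / q : ℝ) * (cnt N g a - mn N g (a % g))) ^ 2 ≤ ((P : ℝ) / q * (η * E N)) ^ 2 := by
      rw [← sq_abs]
      exact pow_le_pow_left₀ (abs_nonneg _) e4 2
    have e6 : cnt N q a - (g / q : ℝ) * mn N g (a % g) =
        (cnt N q a - (g / q : ℝ) * cnt N g a) + (g / q : ℝ) * (cnt N g a - mn N g (a % g)) := by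
      ring
    rw [e6]
    nlinarith [sq_nonneg ((cnt N q a - (g / q : ℝ) * cnt N g a) - (g / q : ℝ) * (cnt N g a - mn N g (a % g)))]
  have h3 : ∑ q ∈ Ico Q (2 * Q), ∑ a ∈ range q, ((P : ℝ) / q * (η * E N)) ^ 2 ≤ ε / 4 * E N ^ 2 := by
    have h4 : ∀ q ∈ Ico Q (2 * Q), ∑ a ∈ range q, ((P : ℝ) / q * (η * E N)) ^ 2 ≤
        1 / (Q : ℝ) * (ε / 4 * E N ^ 2) := by
      intro q hq
      rw [mem_Ico] at hq
      have hq0 : (0 : ℝ) < q := by exact_mod_cast (by omega : 0 < q)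
      rw [sum_const, card_range, nsmul_eq_mul]
      have e1 : (q : ℝ) * ((P : ℝ) / q * (η * E N)) ^ 2 = 1 / (q : ℝ) * (ε / 4 * E N ^ 2) := by
        rw [hη]
        have : √(ε / 4) ^ 2 = ε / 4 := Real.sq_sqrt (by positivity)
        field_simp
        rw [this]
        ring
      rw [e1]
      apply mul_le_mul_of_nonneg_right _ (by positivity)
      apply one_div_le_one_div_of_le hQ0
      exact_mod_cast hq.1
    refine (sum_le_sum h4).trans ?_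
    rw [sum_const, nsmul_eq_mul, Nat.card_Ico]
    have : ((2 * Q - Q : ℕ) : ℝ) = Q := by
      congr 1
      omega
    rw [this]
    apply le_of_eq
    field_simp
  unfold relT at h1
  unfold devT
  calc ∑ q ∈ Ico Q (2 * Q), ∑ a ∈ range q,
        (cnt N q a - (Nat.gcd q P / q : ℝ) * mn N (Nat.gcd q P) (a % Nat.gcd q P)) ^ 2
      ≤ ∑ q ∈ Ico Q (2 * Q), ∑ a ∈ range q,
        (2 * (cnt N q a - (Nat.gcd q P / q : ℝ) * cnt N (Nat.gcd q P) a) ^ 2 +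
          2 * ((P : ℝ) / q * (η * E N)) ^ 2) :=
        sum_le_sum fun q hq => sum_le_sum fun a ha => h2 q hq a ha
    _ = 2 * ∑ q ∈ Ico Q (2 * Q), ∑ a ∈ range q,
          (cnt N q a - (Nat.gcd q P / q : ℝ) * cnt N (Nat.gcd q P) a) ^ 2 +
        2 * ∑ q ∈ Ico Q (2 * Q), ∑ a ∈ range q, ((P : ℝ) / q * (η * E N)) ^ 2 := by
        rw [mul_sum, mul_sum, ← sum_add_distrib]
        apply sum_congr rfl
        intro q _
        rw [mul_sum, mul_sum, ← sum_add_distrib]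
    _ ≤ _ := by linarith

theorem tf_one (hE : Tendsto E F atTop)
    (h : ∀ ε : ℝ, 0 < ε → ∃ (P₀ : ℕ) (δ : ℝ), 1 ≤ P₀ ∧ 0 < δ ∧ ∀ P : ℕ, 1 ≤ P → P₀ ∣ P → ∀ᶠ N in F,
      ∀ Q : ℕ, 1 ≤ Q → (Q : ℝ) ≤ δ * E N → devT (cnt N) (mn N) P Q ≤ ε * E N ^ 2) :
    ∃ Q : ℕ → ℕ, Tendsto Q F atTop ∧ ∀ ε : ℝ, 0 < ε → ∃ P₀ : ℕ, 1 ≤ P₀ ∧ ∀ P : ℕ, 1 ≤ P → P₀ ∣ P →
      ∀ᶠ N in F, devT (cnt N) (mn N) P (Q N) ≤ ε * E N ^ 2 := by
  have hsq : Tendsto (fun N => √(E N)) F atTop := Real.tendsto_sqrt_atTop.comp hE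
  refine ⟨fun N => ⌊√(E N)⌋₊, tendsto_nat_floor_atTop.comp hsq, ?_⟩
  intro ε hε
  obtain ⟨P₀, δ, hP₀, hδ, h1⟩ := h ε hε
  refine ⟨P₀, hP₀, fun P hP hPP => ?_⟩
  filter_upwards [h1 P hP hPP, hsq.eventually_ge_atTop (max 1 (1 / δ)), hE.eventually_gt_atTop 0] with N e1 e2 e3
  apply e1
  · exact Nat.le_floor (by simpa using (le_max_left _ _).trans e2)
  · have a1 : (⌊√(E N)⌋₊ : ℝ) ≤ √(E N) := Nat.floor_le (Real.sqrt_nonneg _)
    have a2 : 1 ≤ δ * √(E N) := by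
      have := (le_max_right 1 (1 / δ)).trans e2
      rw [div_le_iff₀ hδ] at this
      linarith
    have a3 : √(E N) * √(E N) = E N := Real.mul_self_sqrt e3.le
    have a4 := Real.sqrt_nonneg (E N)
    calc (⌊√(E N)⌋₊ : ℝ) ≤ 1 * √(E N) := by rw [one_mul]; exact a1
      _ ≤ (δ * √(E N)) * √(E N) := mul_le_mul_of_nonneg_right a2 a4
      _ = δ * E N := by rw [mul_assoc, a3]

theorem tf_fixed (hE : Tendsto E F atTop)
    (hsplit : ∀ N q₀ q a₀, q₀ ∣ q → 1 ≤ q →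
      cnt N q₀ a₀ = ∑ a ∈ (range q).filter (fun a => a ≡ a₀ [MOD q₀]), cnt N q a)
    (hmn : ∀ N q₀ q a₀, 1 ≤ q → q₀ ∣ q → a₀ < q₀ →
      mn N q₀ a₀ = ∑ b ∈ (range q).filter (fun b => b ≡ a₀ [MOD q₀]), mn N q b)
    (h : ∃ Q : ℕ → ℕ, Tendsto Q F atTop ∧ ∀ ε : ℝ, 0 < ε → ∃ P₀ : ℕ, 1 ≤ P₀ ∧ ∀ P : ℕ, 1 ≤ P → P₀ ∣ P →
      ∀ᶠ N in F, devT (cnt N) (mn N) P (Q N) ≤ ε * E N ^ 2) :
    ∀ q a : ℕ, 1 ≤ q → a < q → Tendsto (fun N => (cnt N q a - mn N q a) / E N) F (𝓝 0) := by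
  obtain ⟨Q, hQ, h1⟩ := h
  intro q₀ a₀ hq₀ ha₀
  rw [Metric.tendsto_nhds]
  intro η hη
  obtain ⟨P₀, hP₀, h2⟩ := h1 (η ^ 2 / 16) (by positivity)
  set P : ℕ := P₀ * q₀ with hPdef
  have hP1 : 1 ≤ P := Nat.mul_pos hP₀ hq₀
  have hq₀r : (0 : ℝ) < q₀ := by exact_mod_cast hq₀
  filter_upwards [h2 P hP1 ⟨q₀, rfl⟩, hQ.eventually (eventually_ge_atTop (2 * q₀)),
    hE.eventually_gt_atTop 0] with x e1 e2 hX
  set M : ℕ := Q x / q₀ with hM
  have hM2 : 2 ≤ M := (Nat.le_div_iff_mul_le hq₀).2 e2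
  have hMQ : M * q₀ ≤ Q x := Nat.div_mul_le_self _ _
  have hMQ2 : Q x < (M + 1) * q₀ := by
    have := Nat.lt_div_mul_add (a := Q x) hq₀
    rw [← hM] at this
    linarith
  set D : ℝ := cnt x q₀ a₀ - mn x q₀ a₀ with hD
  -- one modulus
  have key : ∀ j : ℕ, 1 ≤ j → D ^ 2 ≤ j * ∑ a ∈ range (q₀ * j),
      (cnt x (q₀ * j) a - (Nat.gcd (q₀ * j) P / ((q₀ * j : ℕ) : ℝ)) *
        mn x (Nat.gcd (q₀ * j) P) (a % Nat.gcd (q₀ * j) P)) ^ 2 := by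
    intro j hj
    set q := q₀ * j with hq
    have hq1 : 1 ≤ q := Nat.mul_pos hq₀ hj
    have hq0 : (0 : ℝ) < q := by exact_mod_cast hq1
    have hd1 : q₀ ∣ q := ⟨j, rfl⟩
    set g := Nat.gcd q P with hg
    have hg1 : 1 ≤ g := Nat.gcd_pos_of_pos_right q hP1
    have hg0 : (0 : ℝ) < g := by exact_mod_cast hg1
    have hgd : q₀ ∣ g := Nat.dvd_gcd hd1 ⟨P₀, by rw [hPdef]; ring⟩
    have hgq : g ∣ q := Nat.gcd_dvd_left q P
    set e : ℕ → ℝ := fun a => cnt x q a - (g / (q : ℝ)) * mn x g (a % g) with he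
    have k1 : D = ∑ a ∈ (range q).filter (fun a => a ≡ a₀ [MOD q₀]), e a := by
      rw [he, sum_sub_distrib, ← hsplit x q₀ q a₀ hd1 hq1, hD]
      congr 1
      rw [← mul_sum, fiberT hgd hgq hq1 a₀ (fun a => mn x g a), ← hmn x q₀ g a₀ hg1 hgd ha₀]
      field_simp
    have k2 : D ^ 2 ≤ (((range q).filter (fun a => a ≡ a₀ [MOD q₀])).card : ℝ) *
        ∑ a ∈ (range q).filter (fun a => a ≡ a₀ [MOD q₀]), e a ^ 2 := by
      rw [k1]
      exact sq_sum_le_card_mul_sum_sq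
    rw [card_classT hd1 hq1 ha₀] at k2
    have k3 : (q : ℝ) / q₀ = j := by
      rw [hq]; push_cast; field_simp
    rw [k3] at k2
    refine k2.trans ?_
    apply mul_le_mul_of_nonneg_left _ (Nat.cast_nonneg j)
    exact sum_le_sum_of_subset_of_nonneg (filter_subset _ _) (fun _ _ _ => by positivity)
  -- the sum over the moduli
  set EE : ℕ → ℝ := fun q => ∑ a ∈ range q,
      (cnt x q a - (Nat.gcd q P / (q : ℝ)) * mn x (Nat.gcd q P) (a % Nat.gcd q P)) ^ 2 with hEE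
  have hE0 : ∀ q, 0 ≤ EE q := fun q => sum_nonneg fun _ _ => by positivity
  have k4 : ∑ j ∈ Ico (M + 1) (2 * M), EE (q₀ * j) ≤ devT (cnt x) (mn x) P (Q x) := by
    unfold devT
    have : ∑ j ∈ Ico (M + 1) (2 * M), EE (q₀ * j) = ∑ q ∈ (Ico (M + 1) (2 * M)).image (fun j => q₀ * j), EE q := by
      rw [sum_image]
      intro a _ b _ hab
      exact Nat.eq_of_mul_eq_mul_left hq₀ hab
    rw [this]
    apply sum_le_sum_of_subset_of_nonneg
    · intro q hq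
      rw [mem_image] at hq
      obtain ⟨j, hj, rfl⟩ := hq
      rw [mem_Ico] at hj ⊢
      constructor
      · have : (M + 1) * q₀ ≤ j * q₀ := Nat.mul_le_mul_right _ hj.1
        nlinarith
      · have : j * q₀ < 2 * M * q₀ := Nat.mul_lt_mul_of_pos_right hj.2 hq₀
        nlinarith
    · intro q _ _
      exact hE0 q
  have k5 : ∀ j ∈ Ico (M + 1) (2 * M), D ^ 2 / (2 * M) ≤ EE (q₀ * j) := by
    intro j hj
    rw [mem_Ico] at hj
    have hj1 : 1 ≤ j := by omega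
    have := key j hj1
    have hM0 : (0 : ℝ) < 2 * M := by
      have : (0 : ℝ) < M := by exact_mod_cast (by omega : 0 < M)
      linarith
    rw [div_le_iff₀ hM0]
    have hjM : (j : ℝ) ≤ 2 * M := by exact_mod_cast hj.2.le
    calc D ^ 2 ≤ j * EE (q₀ * j) := this
      _ ≤ 2 * M * EE (q₀ * j) := mul_le_mul_of_nonneg_right hjM (hE0 _)
      _ = _ := by ring
  have k6 := sum_le_sum k5
  rw [sum_const, nsmul_eq_mul, Nat.card_Ico] at k6
  have k7 : D ^ 2 / 4 ≤ ((2 * M - (M + 1) : ℕ) : ℝ) * (D ^ 2 / (2 * M)) := by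
    have hM0 : (0 : ℝ) < M := by exact_mod_cast (by omega : 0 < M)
    have : ((2 * M - (M + 1) : ℕ) : ℝ) = M - 1 := by
      have h5 : 2 * M - (M + 1) = M - 1 := by omega
      rw [h5, Nat.cast_sub (by omega)]
      simp
    rw [this]
    have hM2' : (2 : ℝ) ≤ M := by exact_mod_cast hM2
    rw [mul_div_assoc', div_le_div_iff₀ (by norm_num) (by positivity)]
    nlinarith [sq_nonneg D, mul_nonneg (sq_nonneg D) (by linarith : (0 : ℝ) ≤ M - 2)]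
  have k8 : D ^ 2 ≤ (η / 2 * E x) ^ 2 := by
    have : D ^ 2 / 4 ≤ η ^ 2 / 16 * E x ^ 2 := (k7.trans (k6.trans k4)).trans e1
    calc D ^ 2 ≤ 4 * (η ^ 2 / 16 * E x ^ 2) := by linarith
      _ = _ := by ring
  have k9 : |D| ≤ η / 2 * E x := abs_le_of_sq_le_sq k8 (by positivity)
  rw [dist_zero_right, Real.norm_eq_abs, abs_div, abs_of_pos hX, div_lt_iff₀ hX]
  have : 0 < η * E x := by positivity
  linarith

end

end Pool.Agent.H90.SK
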