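import Pool.Agent.H90.SK.Main

/-! # Residue classes to large moduli -/

set_option autoImplicit false

namespace Pool.Agent.H90.SK

open Finset Pool.Agent.Helper112 Pool.Agent.H90.ST

/-- the sum over a residue class -/
noncomputable def cls (N : ℕ) (b : ℕ → ℂ) (q a : ℕ) : ℂ :=
  ∑ n ∈ (Icc 1 N).filter (fun n => n ≡ a [MOD q]), b n

/-- the frequencies modulo `q` which are not frequencies modulo `g` -/
def BB (q g : ℕ) : Finset ℕ := (range q).filter (fun k => ¬ q ∣ k * g)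

theorem low_freq {q g : ℕ} (hq : 1 ≤ q) (hg : g ∣ q) (t : ℤ) :
    ∑ k ∈ (range q).filter (fun k => q ∣ k * g), ee (t * k / q) = if (g : ℤ) ∣ t then (g : ℂ) else 0 := by
  classical
  obtain ⟨m, hm⟩ := hg
  have hg1 : 1 ≤ g := by
    rcases Nat.eq_zero_or_pos g with h | h
    · rw [h, zero_mul] at hm; omega
    · exact h
  have hm1 : 1 ≤ m := by
    rcases Nat.eq_zero_or_pos m with h | h
    · rw [h, mul_zero] at hm; omega
    · exact h
  rw [← Pool.Agent.Q37.BV.ee_sum hg1 t]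
  have himg : (range q).filter (fun k => q ∣ k * g) = (range g).image (fun j => j * m) := by
    ext k
    simp only [mem_filter, mem_range, mem_image]
    constructor
    · rintro ⟨h1, h2⟩
      have h3 : m ∣ k := by
        rw [hm] at h2
        have : g * m ∣ g * k := by rw [mul_comm g k]; exact h2
        exact Nat.dvd_of_mul_dvd_mul_left hg1 this
      obtain ⟨j, rfl⟩ := h3
      refine ⟨j, ?_, by ring⟩
      rw [hm, mul_comm] at h1
      exact lt_of_mul_lt_mul_right h1 (Nat.zero_le m)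
    · rintro ⟨j, h1, rfl⟩
      refine ⟨?_, ?_⟩
      · rw [hm]
        exact Nat.mul_lt_mul_of_pos_right h1 hm1
      · rw [hm]
        exact ⟨j, by ring⟩
  rw [himg, sum_image]
  · apply sum_congr rfl
    intro j _
    congr 1
    rw [hm]
    have a1 : (g : ℝ) ≠ 0 := by positivity
    have a2 : (m : ℝ) ≠ 0 := by positivity
    push_cast
    field_simp
  · intro x _ y _ hxy
    exact Nat.eq_of_mul_eq_mul_right hm1 hxy

theorem diff_eq {q g : ℕ} (hq : 1 ≤ q) (hg : g ∣ q) (N : ℕ) (b : ℕ → ℂ) (a : ℕ) :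
    cls N b q a - ((g : ℂ) / q) * cls N b g a =
      (1 / (q : ℂ)) * ∑ k ∈ BB q g, TT N b ((k : ℝ) / q) * ee (((-1 * k : ℤ) : ℝ) * a / q) := by
  classical
  have hq0 : (q : ℂ) ≠ 0 := by exact_mod_cast (by omega : q ≠ 0)
  have h1 : ∀ n : ℕ, (1 / (q : ℂ)) * ∑ k ∈ BB q g, ee ((((n : ℤ) - a : ℤ) : ℝ) * k / q) =
      (if n ≡ a [MOD q] then 1 else 0) - ((g : ℂ) / q) * (if n ≡ a [MOD g] then 1 else 0) := by
    intro n
    have h2 := Pool.Agent.Q37.BV.ee_sum hq ((n : ℤ) - a)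
    have h3 := low_freq hq hg ((n : ℤ) - a)
    have h4 : ∑ k ∈ range q, ee ((((n : ℤ) - a : ℤ) : ℝ) * k / q) =
        ∑ k ∈ (range q).filter (fun k => q ∣ k * g), ee ((((n : ℤ) - a : ℤ) : ℝ) * k / q) +
        ∑ k ∈ BB q g, ee ((((n : ℤ) - a : ℤ) : ℝ) * k / q) :=
      (sum_filter_add_sum_filter_not _ _ _).symm
    have h5 : ∑ k ∈ BB q g, ee ((((n : ℤ) - a : ℤ) : ℝ) * k / q) =
        (if (q : ℤ) ∣ ((n : ℤ) - a) then (q : ℂ) else 0) - (if (g : ℤ) ∣ ((n : ℤ) - a) then (g : ℂ) else 0) := by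
      rw [← h2, ← h3, h4]
      ring
    rw [h5]
    have h6 : ∀ m : ℕ, ((m : ℤ) ∣ ((n : ℤ) - a)) ↔ n ≡ a [MOD m] := by
      intro m
      rw [Nat.ModEq.comm, Nat.modEq_iff_dvd]
    simp only [h6]
    split_ifs <;> field_simp <;> ring
  have h7 : (1 / (q : ℂ)) * ∑ k ∈ BB q g, TT N b ((k : ℝ) / q) * ee (((-1 * k : ℤ) : ℝ) * a / q) =
      ∑ n ∈ Icc 1 N, b n * ((1 / (q : ℂ)) * ∑ k ∈ BB q g, ee ((((n : ℤ) - a : ℤ) : ℝ) * k / q)) := by
    unfold TT
    simp_rw [sum_mul, mul_sum]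
    rw [sum_comm]
    apply sum_congr rfl
    intro n _
    apply sum_congr rfl
    intro k _
    have e1 : ee ((((n : ℤ) - a : ℤ) : ℝ) * k / q) = ee (n * ((k : ℝ) / q)) * ee (((-1 * k : ℤ) : ℝ) * a / q) := by
      rw [← ls_ee_add]
      congr 1
      push_cast
      ring
    rw [e1]
    ring
  rw [h7]
  unfold cls
  rw [sum_filter, sum_filter, mul_sum, ← sum_sub_distrib]
  apply sum_congr rfl
  intro n _
  rw [h1]
  split_ifs <;> ring

theorem diff_sum {q g : ℕ} (hq : 1 ≤ q) (hg : g ∣ q) (N : ℕ) (b : ℕ → ℂ) :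
    ∑ a ∈ range q, ‖cls N b q a - ((g : ℂ) / q) * cls N b g a‖ ^ 2 =
      1 / (q : ℝ) * ∑ k ∈ BB q g, ‖TT N b ((k : ℝ) / q)‖ ^ 2 := by
  have hq0 : (0 : ℝ) < q := by exact_mod_cast hq
  have h1 := dual hq (s := -1) (Or.inr rfl) (BB q g) (fun k hk => mem_range.1 (mem_filter.1 hk).1)
    (fun k => TT N b ((k : ℝ) / q))
  have h2 : ∀ a ∈ range q, ‖cls N b q a - ((g : ℂ) / q) * cls N b g a‖ ^ 2 =
      (1 / (q : ℝ)) ^ 2 * ‖∑ k ∈ BB q g, TT N b ((k : ℝ) / q) * ee (((-1 * k : ℤ) : ℝ) * a / q)‖ ^ 2 := by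
    intro a _
    rw [diff_eq hq hg, norm_mul, mul_pow]
    congr 2
    simp
  rw [sum_congr rfl h2, ← mul_sum, h1]
  field_simp

theorem sum_frac {Q : ℕ} (hQ : 1 ≤ Q) {g : ℝ → ℝ} (hg : ∀ x, 0 ≤ g x) :
    ∑ q ∈ Ico Q (2 * Q), 1 / (q : ℝ) * ∑ k ∈ Ico 1 q, g ((k : ℝ) / q) ≤
      ∑ d ∈ Icc 2 (2 * Q), 3 / (d : ℝ) * ∑ h ∈ Ico 1 d with h.Coprime d, g ((h : ℝ) / d) := by
  have hQ1 : (0 : ℝ) < Q := by exact_mod_cast hQ
  set A : ℕ → ℝ := fun d => ∑ h ∈ Ico 1 d with h.Coprime d, g ((h : ℝ) / d) with hA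
  have hA0 : ∀ d, 0 ≤ A d := fun d => sum_nonneg fun _ _ => hg _
  have s2 : ∑ q ∈ Ico Q (2 * Q), 1 / (q : ℝ) * ∑ k ∈ Ico 1 q, g ((k : ℝ) / q) ≤
      ∑ q ∈ Ico Q (2 * Q), ∑ d ∈ Icc 2 (2 * Q), (if d ∣ q then 1 / (Q : ℝ) * A d else 0) := by
    apply sum_le_sum
    intro q hq
    rw [mem_Ico] at hq
    have hq1 : 1 ≤ q := by omega
    calc 1 / (q : ℝ) * ∑ k ∈ Ico 1 q, g ((k : ℝ) / q)
        ≤ 1 / Q * ∑ d ∈ Icc 2 (2 * Q) with d ∣ q, A d := by
          apply mul_le_mul _ (Pool.Agent.Q37.BV.regroup hq1 (by omega) hg) (sum_nonneg fun _ _ => hg _) (by positivity)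
          apply one_div_le_one_div_of_le hQ1
          exact_mod_cast hq.1
      _ = ∑ d ∈ Icc 2 (2 * Q), (if d ∣ q then 1 / (Q : ℝ) * A d else 0) := by
          rw [mul_sum, sum_filter]
  refine s2.trans ?_
  rw [sum_comm]
  apply sum_le_sum
  intro d hd
  rw [mem_Icc] at hd
  have hd1 : (0 : ℝ) < d := by exact_mod_cast (by omega : 0 < d)
  rw [← sum_filter, sum_const, nsmul_eq_mul]
  calc (#{q ∈ Ico Q (2 * Q) | d ∣ q} : ℝ) * (1 / (Q : ℝ) * A d) ≤ (3 * Q / d) * (1 / (Q : ℝ) * A d) :=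
        mul_le_mul_of_nonneg_right (Pool.Agent.Q37.BV.count_mult (by omega)) (mul_nonneg (by positivity) (hA0 d))
    _ = 3 / (d : ℝ) * A d := by field_simp

/-- the sum over the reduced fractions with denominator `d` -/
noncomputable def FD (N : ℕ) (b : ℕ → ℂ) (d : ℕ) : ℝ :=
  ∑ h ∈ (Ico 1 d).filter (fun h => h.Coprime d), ‖TT N b ((h : ℝ) / d)‖ ^ 2

theorem FD_nonneg (N : ℕ) (b : ℕ → ℂ) (d : ℕ) : 0 ≤ FD N b d := sum_nonneg fun _ _ => by positivity

/-- reduction to reduced fractions with large denominators -/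
theorem reduce {K P Q : ℕ} (hKP : ∀ d, 1 ≤ d → d ≤ K → d ∣ P) (hQ : 1 ≤ Q) (N : ℕ)
    (b : ℕ → ℂ) :
    ∑ q ∈ Ico Q (2 * Q), ∑ a ∈ range q,
        ‖cls N b q a - ((Nat.gcd q P : ℂ) / q) * cls N b (Nat.gcd q P) a‖ ^ 2 ≤
      ∑ d ∈ Icc (K + 1) (2 * Q), 3 / (d : ℝ) * FD N b d := by
  classical
  set G : ℝ → ℝ := fun x => if ∃ c : ℤ, x * P = c then 0 else ‖TT N b x‖ ^ 2 with hG
  have hG0 : ∀ x, 0 ≤ G x := by
    intro x
    simp only [hG]
    split_ifs
    · exact le_rfl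
    · positivity
  have key : ∀ q k : ℕ, 1 ≤ q → ((∃ c : ℤ, (k : ℝ) / q * P = c) ↔ q ∣ k * P) := by
    intro q k hq
    have hq0 : (q : ℝ) ≠ 0 := by exact_mod_cast (by omega : q ≠ 0)
    constructor
    · rintro ⟨c, hc⟩
      have h1 : (k : ℝ) * P = q * c := by field_simp at hc; linarith
      have h2 : (k : ℤ) * P = q * c := by exact_mod_cast h1
      have h3 : (q : ℤ) ∣ (k : ℤ) * P := ⟨c, h2⟩
      exact_mod_cast h3
    · rintro ⟨c, hc⟩
      refine ⟨c, ?_⟩
      have h1 : (k : ℝ) * P = q * c := by exact_mod_cast hc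
      rw [div_mul_eq_mul_div, h1, mul_div_cancel_left₀ _ hq0]
      simp
  have key2 : ∀ q k : ℕ, (q ∣ k * P ↔ q ∣ k * Nat.gcd q P) := by
    intro q k
    rw [← Nat.gcd_mul_left k q P, Nat.dvd_gcd_iff]
    constructor
    · intro h; exact ⟨Dvd.intro_left k rfl, h⟩
    · intro h; exact h.2
  have h1 : ∀ q ∈ Ico Q (2 * Q), ∑ a ∈ range q,
        ‖cls N b q a - ((Nat.gcd q P : ℂ) / q) * cls N b (Nat.gcd q P) a‖ ^ 2 =
      1 / (q : ℝ) * ∑ k ∈ Ico 1 q, G ((k : ℝ) / q) := by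
    intro q hq
    rw [mem_Ico] at hq
    have hq1 : 1 ≤ q := by omega
    rw [diff_sum hq1 (Nat.gcd_dvd_left q P)]
    congr 1
    unfold BB
    rw [sum_filter, range_eq_Ico, sum_eq_sum_Ico_succ_bot (by omega)]
    rw [if_neg (by simp), zero_add]
    apply sum_congr (by norm_num)
    intro k _
    simp only [hG, key q k hq1, key2]
    by_cases h : q ∣ k * Nat.gcd q P
    · rw [if_neg (not_not.2 h), if_pos h]
    · rw [if_pos h, if_neg h]
  rw [sum_congr rfl h1]
  refine (sum_frac hQ hG0).trans ?_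
  have h2 : ∀ d ∈ Icc 2 (2 * Q), 3 / (d : ℝ) * ∑ h ∈ Ico 1 d with h.Coprime d, G ((h : ℝ) / d) ≤
      if K < d then 3 / (d : ℝ) * FD N b d else 0 := by
    intro d hd
    rw [mem_Icc] at hd
    split_ifs with h
    · apply mul_le_mul_of_nonneg_left _ (by positivity)
      unfold FD
      apply sum_le_sum
      intro x _
      simp only [hG]
      split_ifs
      · positivity
      · exact le_rfl
    · apply le_of_eq
      rw [mul_eq_zero]
      right
      apply sum_eq_zero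
      intro x _
      simp only [hG]
      rw [if_pos]
      rw [key d x (by omega)]
      exact Dvd.dvd.mul_left (hKP d (by omega) (by omega)) x
  refine (sum_le_sum h2).trans ?_
  rw [← sum_filter]
  apply sum_le_sum_of_subset_of_nonneg
  · intro d hd
    rw [mem_filter, mem_Icc] at hd
    rw [mem_Icc]
    omega
  · intro d _ _
    exact mul_nonneg (by positivity) (FD_nonneg _ _ _)

theorem sep_mono {K L : ℕ} (hK : 1 ≤ K) (hKL : K ≤ L) {x : ℝ} (h : lsSep K x) : lsSep L x := by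
  obtain ⟨h1, h2⟩ := h
  have h3 : 1 / (L : ℝ) ≤ 1 / K := one_div_le_one_div_of_le (by exact_mod_cast hK) (by exact_mod_cast hKL)
  exact ⟨by linarith, by linarith⟩

theorem log_pow_le (k : ℕ) : ∃ C : ℝ, 0 < C ∧ ∀ D : ℕ, 1 ≤ D → Real.log (8 * (D : ℝ) ^ 2) ^ (2 * k) ≤ C * √D := by
  rcases Nat.eq_zero_or_pos k with hk | hk
  · subst hk
    refine ⟨1, one_pos, fun D hD => ?_⟩
    simp only [mul_zero, pow_zero, one_mul]
    rw [Real.one_le_sqrt]
    exact_mod_cast hD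
  · refine ⟨(8 * k : ℝ) ^ (2 * k) * 8 ^ (1 / 4 : ℝ), by positivity, fun D hD => ?_⟩
    have hD0 : (0 : ℝ) < D := by exact_mod_cast hD
    have hD1 : (1 : ℝ) ≤ D := by exact_mod_cast hD
    have hk0 : (0 : ℝ) < k := by exact_mod_cast hk
    set x : ℝ := 8 * (D : ℝ) ^ 2 with hx
    have hx1 : 1 ≤ x := by rw [hx]; nlinarith
    have h1 := Real.log_le_rpow_div (x := x) (ε := 1 / (8 * k)) (by linarith) (by positivity)
    have h2 : 0 ≤ Real.log x := Real.log_nonneg hx1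
    have h3 : Real.log x ^ (2 * k) ≤ (x ^ (1 / (8 * k) : ℝ) / (1 / (8 * k))) ^ (2 * k) :=
      pow_le_pow_left₀ h2 h1 _
    refine h3.trans (le_of_eq ?_)
    rw [div_pow, ← Real.rpow_natCast (x ^ (1 / (8 * k) : ℝ)), ← Real.rpow_mul (by linarith)]
    have e1 : (1 / (8 * (k : ℝ))) * ((2 * k : ℕ) : ℝ) = 1 / 4 := by push_cast; field_simp; norm_num
    rw [e1, hx, Real.mul_rpow (by norm_num) (by positivity)]
    have e2 : ((D : ℝ) ^ 2) ^ (1 / 4 : ℝ) = √D := by
      rw [← Real.rpow_natCast, ← Real.rpow_mul hD0.le, Real.sqrt_eq_rpow]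
      norm_num
    have e3 : (1 / (8 * (k : ℝ))) ^ (2 * k) = 1 / (8 * (k : ℝ)) ^ (2 * k) := one_div_pow _ _
    rw [e2, e3]
    field_simp

/-- a dyadic block of denominators -/
theorem block (k : ℕ) (hk : 1 ≤ k) : ∃ C : ℝ, 0 < C ∧ ∃ s : ℕ, 1 ≤ s ∧ ∀ y N : ℕ, 2 ≤ y →
    2 * y ^ (4 * s) ≤ N → ∀ Om : ℕ → Finset ℕ, Adm k Om → ∀ b : ℕ → ℂ,
      (∀ n, b n ≠ 0 → ∀ p ∈ PR y, n % p ∉ Om p) → (∀ n, ‖b n‖ ≤ 1) → ∀ D : ℕ, 1 ≤ D →
        ∑ d ∈ Ioc D (2 * D), 3 / (d : ℝ) * FD N b d ≤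
          C * ((N * VV Om y) ^ 2 / √D + D * (N * VV Om y)) := by
  classical
  obtain ⟨C, hC0, s, hs1, h⟩ := lsk k hk
  obtain ⟨C', hC'0, h'⟩ := log_pow_le k
  refine ⟨3 * C * C' + 144 * C, by positivity, s, hs1, ?_⟩
  intro y N hy hyN Om hOm b hb hb1 D hD
  have hD0 : (0 : ℝ) < D := by exact_mod_cast hD
  have hV := VV_pos hOm y
  have hN1 : 1 ≤ N := by
    have : 1 ≤ y ^ (4 * s) := Nat.one_le_pow _ _ (by omega)
    omega
  have hN0 : (0 : ℝ) < N := by exact_mod_cast hN1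
  set U : ℝ := N * VV Om y with hU
  have hU0 : 0 < U := by positivity
  -- first step: the factor `3 / d`
  have h1 : ∑ d ∈ Ioc D (2 * D), 3 / (d : ℝ) * FD N b d ≤ 3 / D * ∑ d ∈ Ioc D (2 * D), FD N b d := by
    rw [mul_sum]
    apply sum_le_sum
    intro d hd
    rw [mem_Ioc] at hd
    apply mul_le_mul_of_nonneg_right _ (FD_nonneg _ _ _)
    apply div_le_div_of_nonneg_left (by norm_num) hD0
    exact_mod_cast hd.1.le
  have hA : 0 ≤ (N * VV Om y) ^ 2 / √D := by positivity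
  have hB : 0 ≤ D * U := by positivity
  rcases Nat.lt_or_ge N (4 * D ^ 2) with hcase | hcase
  · -- the additive large sieve
    have h2 := additive_large_sieve N (2 * D) b
    have h3 : ∑ d ∈ Ioc D (2 * D), FD N b d ≤ ∑ f ∈ Icc 1 (2 * D), ∑ a ∈ (range f).filter (fun a => a.Coprime f),
        ‖∑ n ∈ Icc 1 N, b n * ee (n * a / f)‖ ^ 2 := by
      calc ∑ d ∈ Ioc D (2 * D), FD N b d ≤ ∑ d ∈ Ioc D (2 * D), ∑ a ∈ (range d).filter (fun a => a.Coprime d),
            ‖∑ n ∈ Icc 1 N, b n * ee (n * a / d)‖ ^ 2 := by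
            apply sum_le_sum
            intro d _
            unfold FD
            have e1 : ∀ a : ℕ, TT N b ((a : ℝ) / d) = ∑ n ∈ Icc 1 N, b n * ee (n * a / d) := by
              intro a
              unfold TT
              apply sum_congr rfl
              intro n _
              rw [mul_div_assoc]
            simp only [e1]
            apply sum_le_sum_of_subset_of_nonneg
            · intro a ha
              rw [mem_filter, mem_Ico] at ha
              rw [mem_filter, mem_range]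
              exact ⟨ha.1.2, ha.2⟩
            · intro _ _ _; positivity
        _ ≤ _ := by
            apply sum_le_sum_of_subset_of_nonneg
            · intro d hd
              rw [mem_Ioc] at hd
              rw [mem_Icc]
              omega
            · intro _ _ _; exact sum_nonneg fun _ _ => by positivity
    have h4 := (h y N hy hyN Om hOm Unit {()} (fun _ => 0) (singleton_nonempty _)
      (fun r _ s _ hrs => absurd (Subsingleton.elim r s) hrs) b hb hb1).2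
    have h5 : (N : ℝ) + ((2 * D : ℕ) : ℝ) ^ 2 ≤ 8 * D ^ 2 := by
      have : (N : ℝ) ≤ 4 * D ^ 2 := by exact_mod_cast hcase.le
      push_cast
      nlinarith
    have h6 : ∑ d ∈ Ioc D (2 * D), FD N b d ≤ 6 * (8 * D ^ 2) * (C * U) := by
      refine (h3.trans h2).trans ?_
      apply mul_le_mul _ h4 (sum_nonneg fun _ _ => by positivity) (by positivity)
      linarith
    calc ∑ d ∈ Ioc D (2 * D), 3 / (d : ℝ) * FD N b d ≤ 3 / D * (6 * (8 * D ^ 2) * (C * U)) :=
          h1.trans (mul_le_mul_of_nonneg_left h6 (by positivity))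
      _ = 144 * C * (D * U) := by field_simp; ring
      _ ≤ (3 * C * C' + 144 * C) * (D * U) := by
          apply mul_le_mul_of_nonneg_right _ hB
          have : 0 < 3 * C * C' := by positivity
          linarith
      _ ≤ _ := by
          apply mul_le_mul_of_nonneg_left _ (by positivity)
          linarith
  · -- the sharp large sieve
    set R : Finset (Σ _ : ℕ, ℕ) := (Ioc D (2 * D)).sigma (fun d => (Ico 1 d).filter (fun h => h.Coprime d)) with hR
    set ξ : (Σ _ : ℕ, ℕ) → ℝ := fun r => (r.2 : ℝ) / r.1 with hξ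
    have hsum : ∑ d ∈ Ioc D (2 * D), FD N b d = ∑ r ∈ R, ‖TT N b (ξ r)‖ ^ 2 := by
      rw [hR, sum_sigma]
      rfl
    have h6 : ∑ d ∈ Ioc D (2 * D), FD N b d ≤ C * (C' * √D) * U ^ 2 := by
      rcases R.eq_empty_or_nonempty with hRe | hRne
      · rw [hsum, hRe, sum_empty]
        positivity
      have hsep : ∀ r ∈ R, ∀ s ∈ R, r ≠ s → lsSep N (ξ s - ξ r) := by
        rintro ⟨f, a⟩ hr ⟨f', a'⟩ hs hne
        simp only [hR, mem_sigma, mem_Ioc, mem_filter, mem_Ico] at hr hs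
        refine sep_mono (K := (2 * D) ^ 2) (by nlinarith) (by nlinarith) ?_
        refine ls_sep_of_int (2 * D) f f' (by omega) (by omega) hr.1.2 hs.1.2 a a' hr.2.1.2 hs.2.1.2
          hr.2.2 hs.2.2 ?_
        rintro ⟨h1, h2⟩
        subst h1
        subst h2
        exact hne rfl
      have h7 := (h y N hy hyN Om hOm _ R ξ hRne hsep b hb hb1).1
      rw [hsum]
      refine h7.trans ?_
      apply mul_le_mul_of_nonneg_right _ (by positivity)
      apply mul_le_mul_of_nonneg_left _ hC0.le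
      refine le_trans ?_ (h' D hD)
      have hcard : R.card ≤ 4 * D ^ 2 := by
        rw [hR, card_sigma]
        calc ∑ d ∈ Ioc D (2 * D), ((Ico 1 d).filter (fun h => h.Coprime d)).card
            ≤ ∑ d ∈ Ioc D (2 * D), (2 * D) := by
              apply sum_le_sum
              intro d hd
              rw [mem_Ioc] at hd
              refine (card_filter_le _ _).trans ?_
              rw [Nat.card_Ico]
              omega
          _ = D * (2 * D) := by rw [sum_const, Nat.card_Ioc, smul_eq_mul]; congr 1; omega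
          _ ≤ 4 * D ^ 2 := by nlinarith
      have hcard' : (R.card : ℝ) ≤ 4 * D ^ 2 := by exact_mod_cast hcard
      have hR1 : (1 : ℝ) ≤ R.card := by exact_mod_cast card_pos.2 hRne
      apply pow_le_pow_left₀ (Real.log_nonneg (by linarith))
      apply Real.log_le_log (by linarith)
      linarith
    have hsD : 0 < √(D : ℝ) := Real.sqrt_pos.2 hD0
    calc ∑ d ∈ Ioc D (2 * D), 3 / (d : ℝ) * FD N b d ≤ 3 / D * (C * (C' * √D) * U ^ 2) :=
          h1.trans (mul_le_mul_of_nonneg_left h6 (by positivity))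
      _ = 3 * C * C' * (U ^ 2 / √D) := by
          have : (D : ℝ) = √D * √D := (Real.mul_self_sqrt hD0.le).symm
          field_simp
          rw [Real.sq_sqrt hD0.le]
      _ ≤ (3 * C * C' + 144 * C) * (U ^ 2 / √D) := by
          apply mul_le_mul_of_nonneg_right _ hA
          linarith
      _ ≤ _ := by
          apply mul_le_mul_of_nonneg_left _ (by positivity)
          linarith

theorem dyadic (K : ℕ) (f : ℕ → ℝ) (J : ℕ) :
    ∑ d ∈ Ioc K (2 ^ J * K), f d = ∑ j ∈ range J, ∑ d ∈ Ioc (2 ^ j * K) (2 * (2 ^ j * K)), f d := by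
  induction J with
  | zero => simp
  | succ J ih =>
    rw [sum_range_succ, ← ih]
    have e1 : 2 ^ (J + 1) * K = 2 * (2 ^ J * K) := by ring
    have h1 : K ≤ 2 ^ J * K := Nat.le_mul_of_pos_left K (by positivity)
    rw [e1, sum_Ioc_consecutive f h1 (by omega)]

/-- **Residue classes to large moduli.**  For a function `b`, `|b| ≤ 1`, on the integers `n ≤ N` sifted by
at most `k` classes modulo the primes up to `y`, in mean square over the classes modulo `q`,
`Q ≤ q < 2 Q`, the sum over a class modulo `q` is `g / q` times the sum over the class modulo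
`g = gcd(q, P)`. -/
theorem bdh (k : ℕ) (hk : 1 ≤ k) : ∃ C : ℝ, 0 < C ∧ ∃ s : ℕ, 1 ≤ s ∧ ∀ y N : ℕ, 2 ≤ y →
    2 * y ^ (4 * s) ≤ N → ∀ Om : ℕ → Finset ℕ, Adm k Om → ∀ b : ℕ → ℂ,
      (∀ n, b n ≠ 0 → ∀ p ∈ PR y, n % p ∉ Om p) → (∀ n, ‖b n‖ ≤ 1) →
      ∀ K P : ℕ, 1 ≤ K → (∀ d, 1 ≤ d → d ≤ K → d ∣ P) → ∀ Q : ℕ, 1 ≤ Q →
        ∑ q ∈ Ico Q (2 * Q), ∑ a ∈ range q,
          ‖cls N b q a - ((Nat.gcd q P : ℂ) / q) * cls N b (Nat.gcd q P) a‖ ^ 2 ≤
            C * ((N * VV Om y) ^ 2 / √K + Q * (N * VV Om y)) := by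
  classical
  obtain ⟨C, hC0, s, hs1, h⟩ := block k hk
  refine ⟨4 * C, by positivity, s, hs1, ?_⟩
  intro y N hy hyN Om hOm b hb hb1 K P hK hKP Q hQ
  have hV := VV_pos hOm y
  have hN1 : 1 ≤ N := by
    have : 1 ≤ y ^ (4 * s) := Nat.one_le_pow _ _ (by omega)
    omega
  have hN0 : (0 : ℝ) < N := by exact_mod_cast hN1
  have hK0 : (0 : ℝ) < K := by exact_mod_cast hK
  set U : ℝ := N * VV Om y with hU
  have hU0 : 0 < U := by positivity
  have hred := reduce hKP hQ N b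
  refine hred.trans ?_
  -- the number of the blocks
  have hex : ∃ J : ℕ, 2 * Q ≤ 2 ^ J * K := ⟨2 * Q, by
    have : 2 * Q < 2 ^ (2 * Q) := Nat.lt_two_pow_self
    nlinarith⟩
  set J := Nat.find hex with hJ
  have hJ1 : 2 * Q ≤ 2 ^ J * K := Nat.find_spec hex
  have hJ2 : ∀ j < J, 2 ^ j * K < 2 * Q := fun j hj => not_le.1 (Nat.find_min hex hj)
  have h1 : ∑ d ∈ Icc (K + 1) (2 * Q), 3 / (d : ℝ) * FD N b d ≤
      ∑ j ∈ range J, ∑ d ∈ Ioc (2 ^ j * K) (2 * (2 ^ j * K)), 3 / (d : ℝ) * FD N b d := by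
    rw [← dyadic K (fun d => 3 / (d : ℝ) * FD N b d) J]
    apply sum_le_sum_of_subset_of_nonneg
    · intro d hd
      rw [mem_Icc] at hd
      rw [mem_Ioc]
      omega
    · intro d _ _
      exact mul_nonneg (by positivity) (FD_nonneg _ _ _)
  refine h1.trans ?_
  have h2 : ∀ j ∈ range J, ∑ d ∈ Ioc (2 ^ j * K) (2 * (2 ^ j * K)), 3 / (d : ℝ) * FD N b d ≤
      C * (U ^ 2 / √((2 ^ j * K : ℕ) : ℝ) + ((2 ^ j * K : ℕ) : ℝ) * U) := by
    intro j _
    exact h y N hy hyN Om hOm b hb hb1 (2 ^ j * K) (Nat.mul_pos (by positivity) hK)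
  refine (sum_le_sum h2).trans ?_
  rw [← mul_sum, sum_add_distrib, mul_assoc, mul_comm (4 : ℝ), mul_assoc]
  apply mul_le_mul_of_nonneg_left _ hC0.le
  have h3 : ∑ j ∈ range J, U ^ 2 / √((2 ^ j * K : ℕ) : ℝ) ≤ 4 * (U ^ 2 / √K) := by
    have e1 : ∀ j ∈ range J, U ^ 2 / √((2 ^ j * K : ℕ) : ℝ) = U ^ 2 / √K * (1 / √2) ^ j := by
      intro j _
      have : √((2 ^ j * K : ℕ) : ℝ) = √2 ^ j * √K := by
        push_cast
        rw [Real.sqrt_mul (by positivity)]
        congr 1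
        rw [Real.sqrt_eq_iff_mul_self_eq (by positivity) (by positivity), ← mul_pow,
          Real.mul_self_sqrt (by norm_num)]
      rw [this, one_div, inv_pow]
      field_simp
    rw [sum_congr rfl e1, ← mul_sum, mul_comm (4 : ℝ)]
    apply mul_le_mul_of_nonneg_left _ (by positivity)
    have h4 : (1 : ℝ) / √2 ≤ 3 / 4 := by
      rw [div_le_div_iff₀ (by positivity) (by norm_num)]
      have : (4 / 3 : ℝ) ≤ √2 := by
        apply Real.le_sqrt_of_sq_le
        norm_num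
      linarith
    have h5 : ∑ j ∈ range J, (1 / √2) ^ j ≤ ∑ j ∈ range J, (3 / 4 : ℝ) ^ j :=
      sum_le_sum fun j _ => pow_le_pow_left₀ (by positivity) h4 j
    refine h5.trans ?_
    rw [geom_sum_eq (by norm_num)]
    have : 0 ≤ (3 / 4 : ℝ) ^ J := by positivity
    rw [div_le_iff_of_neg (by norm_num)]
    linarith
  have h4 : ∑ j ∈ range J, ((2 ^ j * K : ℕ) : ℝ) * U ≤ 4 * (Q * U) := by
    rw [← sum_mul, show 4 * ((Q : ℝ) * U) = (4 * Q) * U by ring]
    apply mul_le_mul_of_nonneg_right _ hU0.le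
    have e1 : ∀ j : ℕ, ∑ i ∈ range j, (2 ^ i * K) + K = 2 ^ j * K := by
      intro j
      induction j with
      | zero => simp
      | succ j ih => rw [sum_range_succ, add_right_comm, ih]; ring
    rcases Nat.eq_zero_or_pos J with hJ0 | hJ0
    · rw [hJ0]; simp
    · have h5 := hJ2 (J - 1) (by omega)
      have h6 : 2 ^ J * K = 2 * (2 ^ (J - 1) * K) := by
        have : 2 ^ J = 2 * 2 ^ (J - 1) := by
          rw [← pow_succ']
          congr 1
          omega
        rw [this]; ring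
      have h7 : ∑ i ∈ range J, (2 ^ i * K) ≤ 4 * Q := by
        have := e1 J
        omega
      exact_mod_cast h7
  linarith

end Pool.Agent.H90.SK
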