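import Pool.Agent.H90.SK.Main
import Pool.Agent.H90.ST.Dim

/-! # Cells with large values, dimension -/

set_option autoImplicit false

namespace Pool.Agent.H90.SK

open Finset Filter Topology Pool.Agent.Helper112 Pool.Agent.H90.ST
open scoped ENNReal

/-- a bounded number of large values -/
theorem few_set (k : ℕ) (hk : 1 ≤ k) : ∃ s : ℕ, 1 ≤ s ∧ (∃ C : ℝ, 0 < C ∧ ∀ y N : ℕ, 2 ≤ y →
    2 * y ^ (4 * s) ≤ N → ∀ Om : ℕ → Finset ℕ, Adm k Om → ∀ b : ℕ → ℂ,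
      (∀ n, b n ≠ 0 → ∀ p ∈ PR y, n % p ∉ Om p) → (∀ n, ‖b n‖ ≤ 1) →
        ∑ n ∈ Icc 1 N, ‖b n‖ ^ 2 ≤ C * (N * VV Om y)) ∧
    ∀ ε : ℝ, 0 < ε → ∃ B : ℕ, ∀ y N : ℕ, 2 ≤ y →
    2 * y ^ (4 * s) ≤ N → ∀ Om : ℕ → Finset ℕ, Adm k Om → ∀ b : ℕ → ℂ,
      (∀ n, b n ≠ 0 → ∀ p ∈ PR y, n % p ∉ Om p) → (∀ n, ‖b n‖ ≤ 1) →
      ∀ (J : Finset ℕ) (ξ : ℕ → ℝ), (∀ r ∈ J, ∀ s ∈ J, r ≠ s → lsSep N (ξ s - ξ r)) →
        (∀ r ∈ J, ε * (N * VV Om y) ≤ ‖TT N b (ξ r)‖) → J.card ≤ B := by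
  classical
  obtain ⟨C, hC0, s, hs1, h⟩ := lsk k hk
  refine ⟨s, hs1, ⟨C, hC0, ?_⟩, fun ε hε => ?_⟩
  · intro y N hy hyN Om hOm b hb hb1
    refine (h y N hy hyN Om hOm ℕ {0} (fun _ => 0) (singleton_nonempty 0) ?_ b hb hb1).2
    intro r hr s hs hne
    rw [mem_singleton] at hr hs
    exact absurd (hr.trans hs.symm) hne
  -- the bound
  have hlim : ∀ᶠ x : ℝ in atTop, C * Real.log x ^ (2 * k) < ε ^ 2 / 2 * x := by
    have h1 := (Real.isLittleO_pow_log_id_atTop (n := 2 * k)).bound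
      (show (0 : ℝ) < ε ^ 2 / (4 * C) by positivity)
    filter_upwards [h1, eventually_gt_atTop 1] with x hx hx1
    have hx0 : 0 < x := by linarith
    rw [Real.norm_eq_abs, Real.norm_eq_abs, id, abs_of_pos hx0] at hx
    have h2 := (le_abs_self _).trans hx
    calc C * Real.log x ^ (2 * k) ≤ C * (ε ^ 2 / (4 * C) * x) := mul_le_mul_of_nonneg_left h2 hC0.le
      _ = ε ^ 2 / 4 * x := by field_simp
      _ < ε ^ 2 / 2 * x := by
          have : 0 < ε ^ 2 * x := by positivity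
          nlinarith
  obtain ⟨X, hX⟩ := eventually_atTop.1 hlim
  refine ⟨⌈X⌉₊ + 1, ?_⟩
  intro y N hy hyN Om hOm b hb hb1 J ξ hsep hlarge
  by_contra hcon
  rw [not_le] at hcon
  have hJ : J.Nonempty := by
    rw [← card_pos]; omega
  have h1 := (h y N hy hyN Om hOm ℕ J ξ hJ hsep b hb hb1).1
  have hN0 : (0 : ℝ) < N := by
    have : 0 < y ^ (4 * s) := by positivity
    exact_mod_cast (by omega : 0 < N)
  set L : ℝ := N * VV Om y with hL
  have hL0 : 0 < L := mul_pos hN0 (VV_pos hOm y)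
  have h2 : (J.card : ℝ) * (ε * L) ^ 2 ≤ C * Real.log (2 * J.card) ^ (2 * k) * L ^ 2 := by
    refine le_trans ?_ h1
    rw [← nsmul_eq_mul, ← sum_const]
    apply sum_le_sum
    intro r hr
    exact pow_le_pow_left₀ (by positivity) (hlarge r hr) 2
  have h3 : (J.card : ℝ) * ε ^ 2 ≤ C * Real.log (2 * J.card) ^ (2 * k) := by
    have : (J.card : ℝ) * ε ^ 2 * L ^ 2 ≤ C * Real.log (2 * J.card) ^ (2 * k) * L ^ 2 := by
      calc (J.card : ℝ) * ε ^ 2 * L ^ 2 = (J.card : ℝ) * (ε * L) ^ 2 := by ring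
        _ ≤ _ := h2
    exact le_of_mul_le_mul_right this (by positivity)
  have h4 : X ≤ 2 * (J.card : ℝ) := by
    have h5 : X ≤ (⌈X⌉₊ : ℝ) := Nat.le_ceil _
    have h6 : ((⌈X⌉₊ + 1 : ℕ) : ℝ) < J.card := by exact_mod_cast hcon
    push_cast at h6
    have : (0 : ℝ) ≤ J.card := Nat.cast_nonneg _
    linarith
  have h5 := hX _ h4
  linarith

open Classical in
/-- the cells with large values -/
noncomputable def cellsL (N : ℕ) (b : ℕ → ℂ) (L : ℝ) : Finset ℕ :=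
  (range N).filter (fun j => ∃ x : ℝ, (j : ℝ) / N ≤ x ∧ x < ((j : ℝ) + 1) / N ∧ L ≤ ‖TT N b x‖)

/-- **Few cells.** -/
theorem cells_le {N : ℕ} (hN : 1 ≤ N) (b : ℕ → ℂ) (L : ℝ) (B0 : ℕ)
    (h : ∀ (J : Finset ℕ) (ξ : ℕ → ℝ), (∀ r ∈ J, ∀ s ∈ J, r ≠ s → lsSep N (ξ s - ξ r)) →
        (∀ r ∈ J, L ≤ ‖TT N b (ξ r)‖) → J.card ≤ B0) : (cellsL N b L).card ≤ 1 + (B0 + B0) := by
  classical
  have hN0 : (0 : ℝ) < N := by exact_mod_cast (by omega : 0 < N)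
  have hex : ∀ j : ℕ, ∃ x : ℝ, j ∈ cellsL N b L → (j : ℝ) / N ≤ x ∧ x < ((j : ℝ) + 1) / N ∧
      L ≤ ‖TT N b x‖ := by
    intro j
    by_cases hj : j ∈ cellsL N b L
    · obtain ⟨x, hx⟩ := (mem_filter.1 hj).2
      exact ⟨x, fun _ => hx⟩
    · exact ⟨0, fun h => absurd h hj⟩
  choose ξ hξ using hex
  -- separation of cells of the same parity
  have hs1 : ∀ r s : ℕ, r ∈ cellsL N b L → s ∈ cellsL N b L → 1 ≤ r → r + 2 ≤ s →
      1 / (N : ℝ) ≤ ξ s - ξ r ∧ ξ s - ξ r ≤ 1 - 1 / (N : ℝ) := by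
    intro r s hr hs h1 h2
    obtain ⟨a1, a2, _⟩ := hξ r hr
    obtain ⟨b1, b2, _⟩ := hξ s hs
    have hsN : s < N := mem_range.1 (mem_filter.1 hs).1
    have c1 : (r : ℝ) + 2 ≤ s := by exact_mod_cast h2
    have c2 : (s : ℝ) + 1 ≤ N := by exact_mod_cast hsN
    have c3 : (1 : ℝ) ≤ r := by exact_mod_cast h1
    constructor
    · have : 1 / (N : ℝ) ≤ (s : ℝ) / N - ((r : ℝ) + 1) / N := by
        rw [← sub_div]
        exact div_le_div_of_nonneg_right (by linarith) hN0.le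
      linarith
    · have : ((s : ℝ) + 1) / N - (r : ℝ) / N ≤ 1 - 1 / (N : ℝ) := by
        rw [← sub_div, le_sub_iff_add_le, ← add_div, div_le_one hN0]
        linarith
      linarith
  have hpar : ∀ e : ℕ, ((cellsL N b L).filter (fun j => 1 ≤ j ∧ j % 2 = e)).card ≤ B0 := by
    intro e
    refine h _ ξ ?_ ?_
    · intro r hr s hs hne
      rw [mem_filter] at hr hs
      rcases lt_or_gt_of_ne hne with h | h
      · obtain ⟨k1, k2⟩ := hs1 r s hr.1 hs.1 hr.2.1 (by omega)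
        exact sep_of_lt k1 k2 (by omega)
      · obtain ⟨k1, k2⟩ := hs1 s r hs.1 hr.1 hs.2.1 (by omega)
        have := lsSep_neg hN (sep_of_lt k1 k2 (by omega))
        rw [neg_sub] at this
        exact this.1
    · intro r hr
      exact (hξ r (mem_filter.1 hr).1).2.2
  have hcov : cellsL N b L ⊆ {0} ∪ ((cellsL N b L).filter (fun j => 1 ≤ j ∧ j % 2 = 0) ∪
      (cellsL N b L).filter (fun j => 1 ≤ j ∧ j % 2 = 1)) := by
    intro j hj
    rw [mem_union, mem_union, mem_filter, mem_filter, mem_singleton]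
    rcases Nat.eq_zero_or_pos j with h | h
    · exact Or.inl h
    · rcases Nat.mod_two_eq_zero_or_one j with h2 | h2
      · exact Or.inr (Or.inl ⟨hj, h, h2⟩)
      · exact Or.inr (Or.inr ⟨hj, h, h2⟩)
  refine (card_le_card hcov).trans ((card_union_le _ _).trans ?_)
  refine add_le_add (by simp) ((card_union_le _ _).trans (add_le_add (hpar 0) (hpar 1)))

/-- the cell of `x` -/
theorem cell_mem {N : ℕ} (hN : 1 ≤ N) {b : ℕ → ℂ} {L x : ℝ} (hx0 : 0 ≤ x) (hx1 : x < 1)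
    (h : L ≤ ‖TT N b x‖) : ∃ j ∈ cellsL N b L, (j : ℝ) / N ≤ x ∧ x ≤ ((j : ℝ) + 1) / N := by
  classical
  have hN0 : (0 : ℝ) < N := by exact_mod_cast (by omega : 0 < N)
  have hfl : (⌊x * N⌋₊ : ℝ) ≤ x * N := Nat.floor_le (by positivity)
  have hfl2 : x * N < (⌊x * N⌋₊ : ℝ) + 1 := Nat.lt_floor_add_one _
  refine ⟨⌊x * N⌋₊, ?_, ?_, ?_⟩
  · unfold cellsL
    rw [mem_filter, mem_range]
    refine ⟨?_, x, ?_, ?_, h⟩
    · have : (⌊x * N⌋₊ : ℝ) < N := by nlinarith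
      exact_mod_cast this
    · rw [div_le_iff₀ hN0]; exact hfl
    · rw [lt_div_iff₀ hN0]; exact hfl2
  · rw [div_le_iff₀ hN0]; exact hfl
  · rw [le_div_iff₀ hN0]; exact hfl2.le

/-- **The dimension of a limsup set of cells.** -/
theorem dim_cells (S : ℕ → Finset (ℕ × ℕ)) (R : ℕ → ℕ) (hR : ∀ i, 1 ≤ R i) (hS : ∀ i, ∀ z ∈ S i, R i ≤ z.1)
    {D : ℝ} (hD : 0 < D) (hsum : Summable fun i => ((S i).card : ℝ) * (1 / (R i : ℝ)) ^ D) :
    dimH {x : ℝ | ∃ᶠ i in atTop, ∃ z ∈ S i, (z.2 : ℝ) / z.1 ≤ x ∧ x ≤ ((z.2 : ℝ) + 1) / z.1} ≤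
      ENNReal.ofReal D := by
  classical
  set ι : Type := Σ i : ℕ, {y : ℕ × ℕ // y ∈ S i} with hι
  set U : ι → Set ℝ := fun z => Set.Icc ((z.2.1.2 : ℝ) / (z.2.1.1 : ℕ))
    (((z.2.1.2 : ℝ) + 1) / (z.2.1.1 : ℕ)) with hU
  set d : ι → ℝ := fun z => 1 / (R z.1 : ℝ) with hd
  have hcnt : Countable ι := by rw [hι]; infer_instance
  have hR0 : ∀ i, (0 : ℝ) < R i := fun i => by exact_mod_cast (hR i)
  have hd0 : ∀ z, 0 < d z := fun z => by simp only [hd]; exact one_div_pos.2 (hR0 _)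
  have hdU : ∀ z : ι, Metric.ediam (U z) ≤ ENNReal.ofReal (d z) := by
    intro z
    simp only [hU, hd]
    rw [Real.ediam_Icc]
    apply ENNReal.ofReal_le_ofReal
    rw [← sub_div, add_sub_cancel_left]
    apply one_div_le_one_div_of_le (hR0 _)
    exact_mod_cast hS z.1 _ z.2.2
  have hsum' : Summable fun z : ι => d z ^ D := by
    rw [summable_sigma_of_nonneg (fun z => (Real.rpow_pos_of_pos (hd0 z) D).le)]
    refine ⟨fun i => (hasSum_fintype _).summable, ?_⟩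
    refine hsum.congr fun i => ?_
    rw [tsum_fintype]
    simp only [hd]
    rw [sum_const, card_univ, Fintype.card_coe, nsmul_eq_mul]
  have hmain := Pool.Agent.R479.DA.dimH_limsup U d hd0 hdU hD hsum'
  refine le_trans (dimH_mono ?_) hmain
  intro x hx
  show {z | x ∈ U z}.Infinite
  intro hfin
  obtain ⟨M, hM⟩ := (hfin.image (fun z : ι => z.1)).bddAbove
  obtain ⟨i, hi, z, hz, hz1, hz2⟩ := (hx.and_eventually (eventually_ge_atTop (M + 1))).exists.imp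
    (fun i h => (⟨h.2, h.1⟩ : M + 1 ≤ i ∧ _))
  have := hM ⟨(⟨i, ⟨z, hz⟩⟩ : ι), ⟨hz1, hz2⟩, rfl⟩
  simp only at this
  omega

/-- periodic sets -/
theorem dim_periodic {E : Set ℝ} {d : ℝ≥0∞} (hper : ∀ x : ℝ, x ∈ E → Int.fract x ∈ E)
    (h1 : dimH (E ∩ Set.Ico 0 1) ≤ d) : dimH E ≤ d := by
  have h2 : E ⊆ ⋃ k : ℤ, (fun x : ℝ => x + k) '' (E ∩ Set.Ico 0 1) := by
    intro x hx
    rw [Set.mem_iUnion]
    exact ⟨⌊x⌋, Int.fract x, ⟨hper x hx, Int.fract_nonneg x, Int.fract_lt_one x⟩, Int.fract_add_floor x⟩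
  refine (dimH_mono h2).trans ?_
  rw [dimH_iUnion]
  apply iSup_le
  intro k
  have h3 : LipschitzWith 1 (fun x : ℝ => x + k) := by
    apply LipschitzWith.of_dist_le_mul
    intro x y
    simp [Real.dist_eq]
  exact (h3.dimH_image_le _).trans h1

/-- dilations -/
theorem dim_dilate {E : Set ℝ} {d : ℝ≥0∞} (h : dimH E ≤ d) {k : ℤ} (hk : k ≠ 0) :
    dimH {x : ℝ | (k : ℝ) * x ∈ E} ≤ d := by
  have hk0 : (k : ℝ) ≠ 0 := by exact_mod_cast hk
  have h2 : {x : ℝ | (k : ℝ) * x ∈ E} ⊆ (fun z : ℝ => (k : ℝ)⁻¹ * z) '' E := by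
    intro x hx
    refine ⟨k * x, hx, ?_⟩
    show (k : ℝ)⁻¹ * (k * x) = x
    field_simp
  refine (dimH_mono h2).trans ?_
  have h3 : LipschitzWith (Real.toNNReal |(k : ℝ)⁻¹|) (fun x : ℝ => (k : ℝ)⁻¹ * x) := by
    apply LipschitzWith.of_dist_le_mul
    intro x y
    rw [Real.dist_eq, Real.dist_eq, ← mul_sub, abs_mul, Real.coe_toNNReal _ (abs_nonneg _)]
  exact (h3.dimH_image_le _).trans h

end Pool.Agent.H90.SK
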