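import Pool.Agent.H90.SK.One

/-! # The large sieve for sifted sets at arbitrary well-spaced points -/

set_option autoImplicit false

namespace Pool.Agent.H90.SK

open Finset Pool.Agent.Helper112 Pool.Agent.H90.ST

/-- the primes up to `y` -/
def PR (y : ℕ) : Finset ℕ := (Icc 1 y).filter Nat.Prime

theorem mem_PR {y p : ℕ} : p ∈ PR y ↔ p.Prime ∧ p ≤ y := by
  unfold PR
  rw [mem_filter, mem_Icc]
  constructor
  · rintro ⟨⟨_, h⟩, h1⟩; exact ⟨h1, h⟩
  · rintro ⟨h1, h⟩; exact ⟨⟨h1.pos, h⟩, h1⟩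

/-- the sieve product -/
noncomputable def VV (Om : ℕ → Finset ℕ) (y : ℕ) : ℝ := ∏ p ∈ PR y, (1 - ((Om p).card : ℝ) / p)

theorem one_add_JJ {k : ℕ} {Om : ℕ → Finset ℕ} (h : Adm k Om) {p : ℕ} (hp : p.Prime) :
    (1 + JJ Om p) * (1 - ((Om p).card : ℝ) / p) = 1 := by
  unfold JJ
  have h1 := (h p hp).2.2
  have h2 : (0 : ℝ) < p - (Om p).card := by rw [sub_pos]; exact_mod_cast h1
  have h3 : (0 : ℝ) < p := by exact_mod_cast hp.pos
  field_simp
  ring

theorem fac_pos {k : ℕ} {Om : ℕ → Finset ℕ} (h : Adm k Om) {p : ℕ} (hp : p.Prime) :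
    0 < 1 - ((Om p).card : ℝ) / p := by
  have h1 := (h p hp).2.2
  have h3 : (0 : ℝ) < p := by exact_mod_cast hp.pos
  rw [sub_pos, div_lt_one h3]
  exact_mod_cast h1

theorem VV_pos {k : ℕ} {Om : ℕ → Finset ℕ} (h : Adm k Om) (y : ℕ) : 0 < VV Om y :=
  prod_pos fun _ hp => fac_pos h (mem_PR.1 hp).1

theorem VV_le_one {k : ℕ} {Om : ℕ → Finset ℕ} (h : Adm k Om) (y : ℕ) : VV Om y ≤ 1 := by
  apply prod_le_one
  · intro p hp; exact (fac_pos h (mem_PR.1 hp).1).le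
  · intro p hp
    have : 0 ≤ ((Om p).card : ℝ) / p := by positivity
    linarith

theorem JJ_le {k : ℕ} (hk : 1 ≤ k) {Om : ℕ → Finset ℕ} (h : Adm k Om) {p : ℕ} (hp : p.Prime) :
    JJ Om p ≤ 2 * (k : ℝ) ^ 2 / p := by
  unfold JJ
  obtain ⟨_, h1, h2⟩ := h p hp
  have h3 : (0 : ℝ) < p := by exact_mod_cast hp.pos
  have h4 : ((Om p).card : ℝ) ≤ k := by exact_mod_cast h1
  have h5 : ((Om p).card : ℝ) + 1 ≤ p := by exact_mod_cast h2
  have h6 : (1 : ℝ) ≤ k := by exact_mod_cast hk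
  have h7 : (0 : ℝ) < p - (Om p).card := by linarith
  have h8 : (0 : ℝ) ≤ (Om p).card := Nat.cast_nonneg _
  rw [div_le_div_iff₀ h7 h3]
  set w : ℝ := ((Om p).card : ℝ)
  -- w p ≤ 2 k^2 (p - w)
  rcases le_total (p : ℝ) (2 * k) with h9 | h9
  · have a1 : w * p ≤ k * (2 * k) := mul_le_mul h4 h9 h3.le (by linarith)
    nlinarith
  · have a1 : w * p ≤ k * p := mul_le_mul_of_nonneg_right h4 h3.le
    have a2 : (p : ℝ) ≤ 2 * (p - w) := by linarith
    have a3 : (k : ℝ) * p ≤ k * (2 * (p - w)) := mul_le_mul_of_nonneg_left a2 (by linarith)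
    have a4 : (k : ℝ) * (p - w) ≤ k * (k * (p - w)) := by
      apply mul_le_mul_of_nonneg_left _ (by linarith)
      nlinarith
    nlinarith

/-- Rankin's method. -/
theorem rankin (k : ℕ) (hk : 1 ≤ k) : ∃ s : ℕ, 1 ≤ s ∧ ∀ y : ℕ, 2 ≤ y → ∀ Om : ℕ → Finset ℕ, Adm k Om →
    ∀ A : Finset ℕ, A ⊆ PR y →
      1 / 2 * ∏ p ∈ A, (1 + JJ Om p) ≤
        ∑ S ∈ A.powerset.filter (fun S => ∏ p ∈ S, p ≤ y ^ s), ∏ p ∈ S, JJ Om p := by
  classical
  obtain ⟨C, hC⟩ := Pool.Agent.Erdos456.Mert.mertens_log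
  have hC0 : 0 ≤ C := (abs_nonneg _).trans (hC 1 le_rfl)
  have hl2 : 0 < Real.log 2 := Real.log_pos (by norm_num)
  set C0 : ℝ := 4 * (k : ℝ) ^ 2 * (1 + C / Real.log 2) with hC0def
  have hC00 : 0 ≤ C0 := by positivity
  refine ⟨⌈C0⌉₊ + 1, by omega, ?_⟩
  intro y hy Om hOm A hA
  set s : ℕ := ⌈C0⌉₊ + 1 with hs
  have hs1 : C0 + 1 ≤ s := by
    rw [hs]; push_cast
    linarith [Nat.le_ceil C0]
  have hyr : (2 : ℝ) ≤ y := by exact_mod_cast hy
  have hly : 0 < Real.log y := Real.log_pos (by linarith)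
  have hly2 : Real.log 2 ≤ Real.log y := Real.log_le_log (by norm_num) hyr
  have hAp : ∀ p ∈ A, p.Prime ∧ p ≤ y := fun p hp => mem_PR.1 (hA hp)
  have hJ : ∀ p ∈ A, 0 ≤ JJ Om p := fun p hp => JJ_nonneg hOm (hAp p hp).1
  set t : ℕ → ℝ := fun p => Real.log p / Real.log y with ht
  have ht0 : ∀ p ∈ A, 0 ≤ t p := by
    intro p hp
    have : (1 : ℝ) ≤ p := by exact_mod_cast (hAp p hp).1.one_lt.le
    exact div_nonneg (Real.log_nonneg this) hly.le
  have ht1 : ∀ p ∈ A, t p ≤ 1 := by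
    intro p hp
    rw [ht, div_le_one hly]
    apply Real.log_le_log
    · exact_mod_cast (hAp p hp).1.pos
    · exact_mod_cast (hAp p hp).2
  have htot : ∏ p ∈ A, (1 + JJ Om p) = ∑ S ∈ A.powerset, ∏ p ∈ S, JJ Om p := prod_one_add _
  have hsplit : ∑ S ∈ A.powerset, ∏ p ∈ S, JJ Om p =
      ∑ S ∈ A.powerset.filter (fun S => ∏ p ∈ S, p ≤ y ^ s), ∏ p ∈ S, JJ Om p +
      ∑ S ∈ A.powerset.filter (fun S => ¬ ∏ p ∈ S, p ≤ y ^ s), ∏ p ∈ S, JJ Om p :=
    (sum_filter_add_sum_filter_not _ _ _).symm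
  have hsub : ∀ S ∈ A.powerset, ∀ p ∈ S, p ∈ A := fun S hS p hp => (mem_powerset.1 hS) hp
  -- the tail
  have htail : ∑ S ∈ A.powerset.filter (fun S => ¬ ∏ p ∈ S, p ≤ y ^ s), ∏ p ∈ S, JJ Om p ≤
      Real.exp (-s) * ∏ p ∈ A, (1 + JJ Om p * Real.exp (t p)) := by
    rw [prod_one_add, mul_sum]
    calc ∑ S ∈ A.powerset.filter (fun S => ¬ ∏ p ∈ S, p ≤ y ^ s), ∏ p ∈ S, JJ Om p
        ≤ ∑ S ∈ A.powerset.filter (fun S => ¬ ∏ p ∈ S, p ≤ y ^ s),
            Real.exp (-s) * ∏ p ∈ S, (JJ Om p * Real.exp (t p)) := by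
          apply sum_le_sum
          intro S hS
          rw [mem_filter] at hS
          obtain ⟨hS1, hS2⟩ := hS
          rw [prod_mul_distrib]
          have e1 : ∏ p ∈ S, Real.exp (t p) = Real.exp (∑ p ∈ S, t p) := (Real.exp_sum _ _).symm
          have e2 : ∑ p ∈ S, t p = Real.log ((∏ p ∈ S, p : ℕ) : ℝ) / Real.log y := by
            rw [ht, ← sum_div]
            congr 1
            push_cast
            rw [Real.log_prod]
            intro p hp
            have := (hAp p (hsub S hS1 p hp)).1.pos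
            positivity
          have e3 : (s : ℝ) ≤ ∑ p ∈ S, t p := by
            rw [e2, le_div_iff₀ hly]
            have : ((y ^ s : ℕ) : ℝ) ≤ ((∏ p ∈ S, p : ℕ) : ℝ) := by
              exact_mod_cast (not_le.1 hS2).le
            calc (s : ℝ) * Real.log y = Real.log ((y ^ s : ℕ) : ℝ) := by
                  push_cast; rw [Real.log_pow]
              _ ≤ _ := Real.log_le_log (by positivity) this
          rw [e1]
          have e4 : 0 ≤ ∏ p ∈ S, JJ Om p := prod_nonneg fun p hp => hJ p (hsub S hS1 p hp)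
          have e5 : (1 : ℝ) ≤ Real.exp (-s) * Real.exp (∑ p ∈ S, t p) := by
            rw [← Real.exp_add]
            apply Real.one_le_exp
            linarith
          calc ∏ p ∈ S, JJ Om p = (∏ p ∈ S, JJ Om p) * 1 := (mul_one _).symm
            _ ≤ (∏ p ∈ S, JJ Om p) * (Real.exp (-s) * Real.exp (∑ p ∈ S, t p)) :=
                mul_le_mul_of_nonneg_left e5 e4
            _ = _ := by ring
      _ ≤ ∑ S ∈ A.powerset, Real.exp (-s) * ∏ p ∈ S, (JJ Om p * Real.exp (t p)) := by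
          apply sum_le_sum_of_subset_of_nonneg (filter_subset _ _)
          intro S hS _
          apply mul_nonneg (Real.exp_pos _).le
          exact prod_nonneg fun p hp => mul_nonneg (hJ p (hsub S hS p hp)) (Real.exp_pos _).le
  have hprod : ∏ p ∈ A, (1 + JJ Om p * Real.exp (t p)) ≤ Real.exp C0 * ∏ p ∈ A, (1 + JJ Om p) := by
    have f1 : ∀ p ∈ A, 1 + JJ Om p * Real.exp (t p) ≤
        Real.exp (4 * (k : ℝ) ^ 2 / Real.log y * (Real.log p / p)) * (1 + JJ Om p) := by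
      intro p hp
      have g1 := hJ p hp
      have g2 : |Real.exp (t p) - 1| ≤ 2 * |t p| := Real.abs_exp_sub_one_le (by
        rw [abs_of_nonneg (ht0 p hp)]; exact ht1 p hp)
      rw [abs_of_nonneg (ht0 p hp)] at g2
      have g3 : Real.exp (t p) ≤ 1 + 2 * t p := by linarith [(abs_le.1 g2).2]
      have g4 : JJ Om p * (2 * t p) ≤ 4 * (k : ℝ) ^ 2 / Real.log y * (Real.log p / p) := by
        have h1 := mul_le_mul_of_nonneg_right (JJ_le hk hOm (hAp p hp).1)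
          (show 0 ≤ 2 * t p by have := ht0 p hp; linarith)
        refine h1.trans (le_of_eq ?_)
        rw [ht]
        ring
      have g5 := Real.add_one_le_exp (JJ Om p * (2 * t p))
      have g6 : Real.exp (JJ Om p * (2 * t p)) ≤ Real.exp (4 * (k : ℝ) ^ 2 / Real.log y * (Real.log p / p)) :=
        Real.exp_le_exp.2 g4
      have g7 : JJ Om p * Real.exp (t p) ≤ JJ Om p * (1 + 2 * t p) := mul_le_mul_of_nonneg_left g3 g1
      have g8 : 0 ≤ JJ Om p * (2 * t p) := mul_nonneg g1 (by have := ht0 p hp; linarith)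
      calc 1 + JJ Om p * Real.exp (t p) ≤ 1 + JJ Om p * (1 + 2 * t p) := by linarith
        _ ≤ (JJ Om p * (2 * t p) + 1) * (1 + JJ Om p) := by nlinarith
        _ ≤ _ := mul_le_mul_of_nonneg_right (g5.trans g6) (by linarith)
    refine (prod_le_prod (fun p hp => by have := hJ p hp; positivity) f1).trans ?_
    rw [prod_mul_distrib]
    apply mul_le_mul_of_nonneg_right _ (prod_nonneg fun p hp => by have := hJ p hp; linarith)
    rw [← Real.exp_sum]
    apply Real.exp_le_exp.2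
    rw [← mul_sum]
    have h1 : ∑ p ∈ A, Real.log p / p ≤ Real.log y + C := by
      have h2 := (abs_le.1 (hC y (by omega))).2
      have h3 : ∑ p ∈ A, Real.log p / p ≤ ∑ p ∈ (Icc 1 y).filter Nat.Prime, Real.log p / p := by
        apply sum_le_sum_of_subset_of_nonneg hA
        intro p hp _
        have := (mem_PR.1 hp).1.one_lt.le
        have : (1 : ℝ) ≤ p := by exact_mod_cast this
        exact div_nonneg (Real.log_nonneg this) (by linarith)
      linarith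
    calc 4 * (k : ℝ) ^ 2 / Real.log y * ∑ p ∈ A, Real.log p / p
        ≤ 4 * (k : ℝ) ^ 2 / Real.log y * (Real.log y + C) := mul_le_mul_of_nonneg_left h1 (by positivity)
      _ = 4 * (k : ℝ) ^ 2 * (1 + C / Real.log y) := by field_simp
      _ ≤ C0 := by
          rw [hC0def]
          apply mul_le_mul_of_nonneg_left _ (by positivity)
          have := div_le_div_of_nonneg_left hC0 hl2 hly2
          linarith
  have hfin : Real.exp (-s) * ∏ p ∈ A, (1 + JJ Om p * Real.exp (t p)) ≤ 1 / 2 * ∏ p ∈ A, (1 + JJ Om p) := by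
    have h0 : 0 ≤ ∏ p ∈ A, (1 + JJ Om p) := prod_nonneg fun p hp => by have := hJ p hp; linarith
    calc Real.exp (-s) * ∏ p ∈ A, (1 + JJ Om p * Real.exp (t p))
        ≤ Real.exp (-s) * (Real.exp C0 * ∏ p ∈ A, (1 + JJ Om p)) :=
          mul_le_mul_of_nonneg_left hprod (Real.exp_pos _).le
      _ = Real.exp (C0 - s) * ∏ p ∈ A, (1 + JJ Om p) := by
          rw [← mul_assoc, ← Real.exp_add]
          congr 2
          ring
      _ ≤ _ := by
          apply mul_le_mul_of_nonneg_right _ h0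
          have h1 : Real.exp (C0 - s) ≤ Real.exp (-1) := Real.exp_le_exp.2 (by linarith)
          have h2 : Real.exp (-1) ≤ 1 / 2 := by
            rw [Real.exp_neg, inv_le_comm₀ (Real.exp_pos _) (by norm_num)]
            have := Real.add_one_le_exp (1 : ℝ)
            norm_num at this ⊢
            linarith
          linarith
  rw [hsplit] at htot
  linarith

/-- **The core inequality.** -/
theorem core {ι : Type} [DecidableEq ι] (R : Finset ι) (ξ : ι → ℝ) (K L y s N : ℕ) (hK : 1 ≤ K)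
    (hKL : K ≤ L) (hML : 2 * (y ^ s) ^ 4 ≤ L)
    (hsep : ∀ r ∈ R, ∀ s ∈ R, r ≠ s → lsSep K (ξ s - ξ r)) (b : ℕ → ℂ) {k : ℕ} {Om : ℕ → Finset ℕ}
    (hOm : Adm k Om)
    (hran : ∀ A : Finset ℕ, A ⊆ PR y → 1 / 2 * ∏ p ∈ A, (1 + JJ Om p) ≤
        ∑ S ∈ A.powerset.filter (fun S => ∏ p ∈ S, p ≤ y ^ s), ∏ p ∈ S, JJ Om p)
    (hb : ∀ n, b n ≠ 0 → ∀ p ∈ PR y, n % p ∉ Om p) :
    ∃ P : Finset ℕ, (∀ p ∈ P, p.Prime) ∧ P.card ≤ R.card ^ 2 ∧
      (∑ r ∈ R, ‖TT N b (ξ r)‖ ^ 2) * (1 / 2 * ∏ p ∈ PR y \ P, (1 + JJ Om p)) ≤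
        6 * ((N : ℝ) + L) * ∑ n ∈ Icc 1 N, ‖b n‖ ^ 2 := by
  classical
  have hL : 1 ≤ L := hK.trans hKL
  set M : ℕ := y ^ s with hM
  have hex : ∀ r s : ι, ∃ p : ℕ, p.Prime ∧ (¬ Near L (ξ s - ξ r) → ∀ (e : ℕ) (u : ℤ), 1 ≤ e →
      e ≤ M ^ 2 → |(ξ s - ξ r) - (u : ℝ) / e| < 1 / (L : ℝ) → p ∣ e) := by
    intro r s
    by_cases h : Near L (ξ s - ξ r)
    · exact ⟨2, Nat.prime_two, fun h' => absurd h h'⟩
    · obtain ⟨p, hp, h1⟩ := excluded M L hL hML (ξ s - ξ r) h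
      exact ⟨p, hp, fun _ => h1⟩
  choose pr hpr hpr2 using hex
  set P : Finset ℕ := (R ×ˢ R).image (fun x => pr x.1 x.2) with hP
  have hPp : ∀ p ∈ P, p.Prime := by
    intro p hp
    rw [hP, mem_image] at hp
    obtain ⟨x, _, rfl⟩ := hp
    exact hpr _ _
  have hPc : P.card ≤ R.card ^ 2 := by
    rw [sq, ← card_product]
    exact card_image_le
  refine ⟨P, hPp, hPc, ?_⟩
  set A : Finset ℕ := PR y \ P with hA
  have hAy : A ⊆ PR y := sdiff_subset
  set DD : Finset (Finset ℕ) := A.powerset.filter (fun S => ∏ p ∈ S, p ≤ M) with hDD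
  have hDmem : ∀ S ∈ DD, S ⊆ A ∧ ∏ p ∈ S, p ≤ M := by
    intro S hS
    rw [hDD, mem_filter, mem_powerset] at hS
    exact hS
  have hDp : ∀ S ∈ DD, ∀ p ∈ S, p.Prime := fun S hS p hp => (mem_PR.1 (hAy ((hDmem S hS).1 hp))).1
  have hDpos : ∀ S ∈ DD, 1 ≤ ∏ p ∈ S, p := fun S hS => prod_pos fun p hp => (hDp S hS p hp).pos
  set FF : Finset (Σ _ : Finset ℕ, ℕ) :=
    DD.sigma (fun S => (range (∏ p ∈ S, p)).filter (fun h => Nat.Coprime h (∏ p ∈ S, p))) with hFF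
  set ξ' : ι × (Σ _ : Finset ℕ, ℕ) → ℝ := fun x => ξ x.1 + (x.2.2 : ℝ) / ((∏ p ∈ x.2.1, p : ℕ) : ℝ) with hξ'
  have hcopP : ∀ S ∈ DD, Nat.Coprime (∏ p ∈ S, p) (∏ p ∈ P, p) := by
    intro S hS
    apply Nat.Coprime.prod_left
    intro p hp
    apply Nat.Coprime.prod_right
    intro q hq
    rw [Nat.coprime_primes (hDp S hS p hp) (hPp q hq)]
    rintro rfl
    have := (hDmem S hS).1 hp
    rw [hA, mem_sdiff] at this
    exact this.2 hq
  have hsep' : ∀ r ∈ R ×ˢ FF, ∀ s ∈ R ×ˢ FF, r ≠ s → lsSep L (ξ' s - ξ' r) := by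
    rintro ⟨r, S, h⟩ hr ⟨s, S', h'⟩ hs hne
    simp only [hFF, mem_product, mem_sigma, mem_filter, mem_range] at hr hs
    obtain ⟨hrR, hSD, hh, hc⟩ := hr
    obtain ⟨hsR, hSD', hh', hc'⟩ := hs
    simp only [hξ']
    refine sep_shift (M := M) (P := ∏ p ∈ P, p) hL hML (hDpos S hSD) (hDmem S hSD).2 (hcopP S hSD) hh hc
      (hDpos S' hSD') (hDmem S' hSD').2 (hcopP S' hSD') hh' hc' ?_
    by_cases hrs : r = s
    · left
      refine ⟨by rw [hrs], ?_⟩
      rintro ⟨h1, h2⟩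
      have h3 : S = S' := by
        have e1 := Nat.primeFactors_prod (hDp S hSD)
        have e2 := Nat.primeFactors_prod (hDp S' hSD')
        rw [← e1, h1, e2]
      subst h3 h2 hrs
      exact hne rfl
    · right
      refine ⟨pr r s, hpr r s, ?_, ?_⟩
      · apply dvd_prod_of_mem (fun p => p)
        rw [hP, mem_image]
        exact ⟨(r, s), mem_product.2 ⟨hrR, hsR⟩, rfl⟩
      · apply hpr2 r s
        intro hnear
        exact not_sep_of_near (near_mono hK hKL hnear) (hsep r hrR s hsR hrs)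
  have hmain := ls_general (R ×ˢ FF) ξ' L N hL hsep' b
  refine le_trans ?_ hmain
  rw [sum_product, sum_mul]
  apply sum_le_sum
  intro r _
  rw [hFF, sum_sigma]
  have h1 : ∀ S ∈ DD, ‖TT N b (ξ r)‖ ^ 2 * ∏ p ∈ S, JJ Om p ≤
      ∑ h ∈ (range (∏ p ∈ S, p)).filter (fun h => Nat.Coprime h (∏ p ∈ S, p)),
        ‖∑ n ∈ Icc 1 N, b n * ee (n * ξ' (r, ⟨S, h⟩))‖ ^ 2 := by
    intro S hS
    rw [mul_comm]
    refine one_point hOm N b S (hDp S hS) ?_ (ξ r)
    intro n hn p hp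
    exact hb n hn p (hAy ((hDmem S hS).1 hp))
  refine le_trans ?_ (sum_le_sum h1)
  rw [← mul_sum]
  exact mul_le_mul_of_nonneg_left (hran A hAy) (by positivity)

end Pool.Agent.H90.SK
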