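import Pool.Agent.H90.SK.Uni

/-! # Prime tuples with shifts up to a power of `x`: uniform independence of rotations -/

set_option autoImplicit false

namespace Pool.Agent.H90.SK

open Finset Filter Topology Pool.Agent.Helper112 Pool.Agent.H90.ST MeasureTheory
open scoped ENNReal NNReal

open Pool.Agent.Results.MP_485179_nt.AlmostPrimeProgressions (𝔖)

/-- the pairs of `x ≥ X` and `D` -/
def Reg (k : ℕ) (η X : ℝ) : Set (ℝ × Finset ℕ) :=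
  {θ | X ≤ θ.1 ∧ θ.2.card = k ∧ (∀ d ∈ θ.2, 1 ≤ d ∧ (d : ℝ) ≤ θ.1 ^ η) ∧ 𝔖 ({0} ∪ θ.2) ≠ 0}

/-- the filter -/
def FF (k : ℕ) (η : ℝ) : Filter (ℝ × Finset ℕ) where
  sets := {s | ∃ X, Reg k η X ⊆ s}
  univ_sets := ⟨0, Set.subset_univ _⟩
  sets_of_superset := fun ⟨X, h⟩ h' => ⟨X, h.trans h'⟩
  inter_sets := fun ⟨X, h⟩ ⟨Y, h'⟩ => ⟨max X Y, fun _ hθ =>
    ⟨h ⟨(le_max_left _ _).trans hθ.1, hθ.2⟩, h' ⟨(le_max_right _ _).trans hθ.1, hθ.2⟩⟩⟩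

theorem mem_FF {k : ℕ} {η : ℝ} {s : Set (ℝ × Finset ℕ)} : s ∈ FF k η ↔ ∃ X, Reg k η X ⊆ s := Iff.rfl

/-- the expected size -/
noncomputable def cc (k : ℕ) (θ : ℝ × Finset ℕ) : ℝ := 𝔖 ({0} ∪ θ.2) * θ.1 / Real.log θ.1 ^ (k + 1)

open Classical in
/-- the elements up to `x` -/
noncomputable def MS (S : Finset ℕ → Set ℕ) (θ : ℝ × Finset ℕ) : Finset ℕ :=
  (Icc 1 ⌊θ.1⌋₊).filter (fun m => m ∈ S θ.2)

theorem cc_pos {k : ℕ} {η X : ℝ} (hX : 2 ≤ X) {θ : ℝ × Finset ℕ} (h : θ ∈ Reg k η X) : 0 < cc k θ := by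
  obtain ⟨h1, h2, h3, h4⟩ := h
  have hx : 1 < θ.1 := by linarith
  have hS : 0 < 𝔖 ({0} ∪ θ.2) := lt_of_le_of_ne (S_nonneg _) (Ne.symm h4)
  have := Real.log_pos hx
  unfold cc
  positivity

theorem TT_MS (S : Finset ℕ → Set ℕ) (θ : ℝ × Finset ℕ) (α : ℝ) :
    TT ⌊θ.1⌋₊ (bS S θ.2) α = ∑ m ∈ MS S θ, ee (m * α) := by
  classical
  unfold TT MS bS
  rw [sum_filter]
  apply sum_congr rfl
  intro m _
  split_ifs
  · rw [one_mul]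
  · rw [zero_mul]

/-- the scale of `x` -/
theorem scale_of {x : ℝ} (hx : 1 ≤ x) : 2 ^ Nat.log 2 ⌊x⌋₊ ≤ ⌊x⌋₊ ∧ ⌊x⌋₊ < 2 ^ (Nat.log 2 ⌊x⌋₊ + 1) ∧
    x < 2 ^ (Nat.log 2 ⌊x⌋₊ + 1) := by
  have h0 : ⌊x⌋₊ ≠ 0 := by
    have : 1 ≤ ⌊x⌋₊ := Nat.le_floor (by simpa using hx)
    omega
  have h1 := Nat.pow_log_le_self 2 h0
  have h2 := Nat.lt_pow_succ_log_self (b := 2) (by norm_num) ⌊x⌋₊
  refine ⟨h1, h2, ?_⟩
  have h3 : x < (⌊x⌋₊ : ℝ) + 1 := Nat.lt_floor_add_one x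
  have h4 : ((⌊x⌋₊ + 1 : ℕ) : ℝ) ≤ ((2 ^ (Nat.log 2 ⌊x⌋₊ + 1) : ℕ) : ℝ) := by exact_mod_cast h2
  push_cast at h4
  linarith

theorem scale_ge {x : ℝ} {i₀ : ℕ} (hx : (2 : ℝ) ^ i₀ ≤ x) : i₀ ≤ Nat.log 2 ⌊x⌋₊ := by
  apply Nat.le_log_of_pow_le (by norm_num)
  apply Nat.le_floor
  push_cast
  exact hx

/-- the sieve product and the expected size -/
theorem VV_cc (k s : ℕ) (hs : 1 ≤ s) : ∃ C X₀ : ℝ, 0 < C ∧ 2 ≤ X₀ ∧ ∀ η : ℝ, ∀ θ ∈ Reg k η X₀,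
    (⌊θ.1⌋₊ : ℝ) * VV (omT ({0} ∪ θ.2)) (yy s (Nat.log 2 ⌊θ.1⌋₊)) ≤ C * cc k θ := by
  obtain ⟨C, hC0, hC⟩ := VV_le_S (k + 1)
  set i₀ : ℕ := 16 * s + 1 + 8 * s * (4 * (k + 1) ^ 2 + 2) with hi₀
  refine ⟨C * (16 * s) ^ (k + 1), max 2 (2 ^ i₀), by positivity, le_max_left _ _, fun η θ hθ => ?_⟩
  obtain ⟨h1, h2, h3, h4⟩ := hθ
  have hx2 : 2 ≤ θ.1 := (le_max_left _ _).trans h1
  obtain ⟨a1, a2, a3⟩ := scale_of (show 1 ≤ θ.1 by linarith)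
  have a4 := scale_ge ((le_max_right _ _).trans h1)
  set i := Nat.log 2 ⌊θ.1⌋₊ with hi
  have hs0 : 0 < 8 * s := by omega
  have hcard := card_zero_union h2 (fun d hd => (h3 d hd).1)
  -- the level
  have b1 : 4 * (k + 1) ^ 2 + 2 ≤ i / (8 * s) := by
    rw [Nat.le_div_iff_mul_le hs0]
    have : (4 * (k + 1) ^ 2 + 2) * (8 * s) = 8 * s * (4 * (k + 1) ^ 2 + 2) := by ring
    omega
  have b2 : 4 * (k + 1) ^ 2 + 2 ≤ yy s i := by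
    unfold yy
    exact b1.trans (Nat.lt_two_pow_self).le
  have hV := hC (yy s i) b2 ({0} ∪ θ.2) hcard
  have hlogx : Real.log θ.1 ≤ ((i : ℝ) + 1) * Real.log 2 := by
    calc Real.log θ.1 ≤ Real.log ((2 : ℝ) ^ (i + 1)) := Real.log_le_log (by linarith) a3.le
      _ = _ := by rw [Real.log_pow]; push_cast; ring
  have hl2 : 0 < Real.log 2 := Real.log_pos (by norm_num)
  have hlx : 0 < Real.log θ.1 := Real.log_pos (by linarith)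
  have b3 : Real.log θ.1 ≤ (16 * s) * Real.log (yy s i) := by
    have e1 : Real.log ((yy s i : ℕ) : ℝ) = ((i / (8 * s) : ℕ) : ℝ) * Real.log 2 := by
      unfold yy
      push_cast
      rw [Real.log_pow]
    have e2 : i + 1 ≤ 16 * s * (i / (8 * s)) := by
      have h5 := Nat.lt_div_mul_add (a := i) hs0
      have h6 : i / (8 * s) * (8 * s) = 8 * s * (i / (8 * s)) := by ring
      have h7 : 16 * s * (i / (8 * s)) = 2 * (8 * s * (i / (8 * s))) := by ring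
      rw [h7]
      omega
    have e3 : ((i : ℝ) + 1) ≤ 16 * s * ((i / (8 * s) : ℕ) : ℝ) := by exact_mod_cast e2
    rw [e1]
    calc Real.log θ.1 ≤ ((i : ℝ) + 1) * Real.log 2 := hlogx
      _ ≤ (16 * s * ((i / (8 * s) : ℕ) : ℝ)) * Real.log 2 := mul_le_mul_of_nonneg_right e3 hl2.le
      _ = _ := by ring
  have hsr : (0 : ℝ) < 16 * s := by
    have : (0 : ℝ) < s := by exact_mod_cast (by omega : 0 < s)
    linarith
  have hly : 0 < Real.log (yy s i) := by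
    by_contra hcon
    rw [not_lt] at hcon
    have := mul_nonpos_of_nonneg_of_nonpos hsr.le hcon
    linarith
  have hSn : 0 ≤ 𝔖 ({0} ∪ θ.2) := S_nonneg _
  have b4 : C * 𝔖 ({0} ∪ θ.2) / Real.log (yy s i) ^ (k + 1) ≤
      C * (16 * s) ^ (k + 1) * (𝔖 ({0} ∪ θ.2) / Real.log θ.1 ^ (k + 1)) := by
    rw [mul_div_assoc', div_le_div_iff₀ (by positivity) (by positivity)]
    have h5 : Real.log θ.1 ^ (k + 1) ≤ (16 * s) ^ (k + 1) * Real.log (yy s i) ^ (k + 1) := by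
      rw [← mul_pow]
      exact pow_le_pow_left₀ hlx.le b3 _
    calc C * 𝔖 ({0} ∪ θ.2) * Real.log θ.1 ^ (k + 1) ≤
          C * 𝔖 ({0} ∪ θ.2) * ((16 * s) ^ (k + 1) * Real.log (yy s i) ^ (k + 1)) :=
          mul_le_mul_of_nonneg_left h5 (by positivity)
      _ = _ := by ring
  have hfl : (⌊θ.1⌋₊ : ℝ) ≤ θ.1 := Nat.floor_le (by linarith)
  calc (⌊θ.1⌋₊ : ℝ) * VV (omT ({0} ∪ θ.2)) (yy s i) ≤
        (⌊θ.1⌋₊ : ℝ) * (C * (16 * s) ^ (k + 1) * (𝔖 ({0} ∪ θ.2) / Real.log θ.1 ^ (k + 1))) :=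
        mul_le_mul_of_nonneg_left (hV.trans b4) (Nat.cast_nonneg _)
    _ ≤ θ.1 * (C * (16 * s) ^ (k + 1) * (𝔖 ({0} ∪ θ.2) / Real.log θ.1 ^ (k + 1))) := by
        apply mul_le_mul_of_nonneg_right hfl
        positivity
    _ = _ := by unfold cc; ring

/-- the trivial upper bound -/
theorem card_cc (k s : ℕ) (hs : 1 ≤ s) {C₁ : ℝ} (hC₁ : 0 < C₁) (hcnt : ∀ y N : ℕ, 2 ≤ y →
    2 * y ^ (4 * s) ≤ N → ∀ Om : ℕ → Finset ℕ, Adm (k + 1) Om → ∀ b : ℕ → ℂ,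
      (∀ n, b n ≠ 0 → ∀ p ∈ PR y, n % p ∉ Om p) → (∀ n, ‖b n‖ ≤ 1) →
        ∑ n ∈ Icc 1 N, ‖b n‖ ^ 2 ≤ C₁ * (N * VV Om y)) : ∃ W X₀ : ℝ, 0 < W ∧ 2 ≤ X₀ ∧
    ∀ (S : Finset ℕ → Set ℕ), Fam S → ∀ η : ℝ, ∀ θ ∈ Reg k η X₀, ((MS S θ).card : ℝ) ≤ W * cc k θ := by
  classical
  obtain ⟨C, X₀, hC0, hX₀, hC⟩ := VV_cc k s hs
  obtain ⟨c, hc0, hV⟩ := VV_ge (k + 1) (by omega)
  obtain ⟨i₁, hi₁⟩ := eventually_atTop.1 (poly_exp (4 * (k + 1)) (1 / c ^ 2))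
  refine ⟨(C₁ + 1) * C, max X₀ (2 ^ (max i₁ (8 * s + 2))), by positivity, hX₀.trans (le_max_left _ _), ?_⟩
  intro S hS η θ hθ
  have hθ0 : θ ∈ Reg k η X₀ := ⟨(le_max_left _ _).trans hθ.1, hθ.2⟩
  have h0 := hC η θ hθ0
  obtain ⟨h1, h2, h3, h4⟩ := hθ
  have hx2 : 2 ≤ θ.1 := hX₀.trans ((le_max_left _ _).trans h1)
  obtain ⟨a1, a2, a3⟩ := scale_of (show 1 ≤ θ.1 by linarith)
  have a4 := scale_ge ((le_max_right _ _).trans h1)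
  set i := Nat.log 2 ⌊θ.1⌋₊ with hi
  set N := ⌊θ.1⌋₊ with hN
  have hi8 : 8 * s + 2 ≤ i := (le_max_right _ _).trans a4
  have hcard := card_zero_union h2 (fun d hd => (h3 d hd).1)
  have hadm : Adm (k + 1) (omT ({0} ∪ θ.2)) := adm_omT h4 hcard.le
  set V : ℝ := VV (omT ({0} ∪ θ.2)) (yy s i) with hVdef
  have b1 := hcnt (yy s i) N (yy_two hs (by omega)) ((yy_pow hs (by omega)).trans a1) (omT ({0} ∪ θ.2))
    hadm (bSy S θ.2 (yy s i)) (supp_bSy hS θ.2 _) (norm_bSy S θ.2 _)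
  have b2 : ((MS S θ).card : ℝ) ≤ yy s i + ∑ n ∈ Icc 1 N, ‖bSy S θ.2 (yy s i) n‖ ^ 2 := by
    have h5 : MS S θ ⊆ Icc 1 (yy s i) ∪ (Icc 1 N).filter (fun n => n ∈ S θ.2 ∧ yy s i < n) := by
      intro n hn
      unfold MS at hn
      rw [mem_filter, mem_Icc] at hn
      rw [mem_union, mem_filter, mem_Icc, mem_Icc]
      rcases le_or_gt n (yy s i) with h | h
      · exact Or.inl ⟨hn.1.1, h⟩
      · exact Or.inr ⟨hn.1, hn.2, h⟩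
    have h6 : ((MS S θ).card : ℝ) ≤ ((Icc 1 (yy s i)).card : ℝ) +
        (((Icc 1 N).filter (fun n => n ∈ S θ.2 ∧ yy s i < n)).card : ℝ) := by
      exact_mod_cast (card_le_card h5).trans (card_union_le _ _)
    refine h6.trans (add_le_add (by simp) ?_)
    rw [card_filter]
    push_cast
    apply sum_le_sum
    intro n _
    split_ifs with h7
    · unfold bSy bS
      rw [if_pos h7.2, if_pos h7.1]
      simp
    · positivity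
  have b3 : ((yy s i : ℕ) : ℝ) ≤ N * V := by
    have h5 := hV _ hadm i (yy s i) (by omega) (by
      unfold yy
      exact Nat.pow_le_pow_right (by norm_num) (Nat.div_le_self _ _))
    have h6 := hi₁ i ((le_max_left _ _).trans a4)
    set P : ℝ := ((i : ℝ) + 1) ^ (2 * (k + 1)) with hP
    have hP0 : 0 < P := by positivity
    have h7 : 1 / c ^ 2 * P ^ 2 ≤ 2 ^ i := by
      rw [hP, ← pow_mul]
      have : 2 * (k + 1) * 2 = 4 * (k + 1) := by ring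
      rw [this]
      exact h6
    have h8 : ((yy s i : ℕ) : ℝ) ^ 2 ≤ 2 ^ i := by
      have : (yy s i) ^ 2 ≤ 2 ^ i := by
        unfold yy
        rw [← pow_mul]
        apply Nat.pow_le_pow_right (by norm_num)
        have h9 : i / (8 * s) ≤ i / 8 := Nat.div_le_div_left (by omega) (by norm_num)
        omega
      exact_mod_cast this
    have h9 : ((yy s i : ℕ) : ℝ) * P / c ≤ 2 ^ i := by
      apply le_of_sq_le_sq _ (by positivity)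
      calc (((yy s i : ℕ) : ℝ) * P / c) ^ 2 = ((yy s i : ℕ) : ℝ) ^ 2 * (1 / c ^ 2 * P ^ 2) := by
            field_simp
        _ ≤ 2 ^ i * 2 ^ i := mul_le_mul h8 h7 (by positivity) (by positivity)
        _ = _ := by ring
    have h10 : ((yy s i : ℕ) : ℝ) ≤ 2 ^ i * (c / P) := by
      rw [mul_div_assoc', le_div_iff₀ hP0]
      rw [div_le_iff₀ hc0] at h9
      exact h9
    have h11 : (2 : ℝ) ^ i ≤ N := by exact_mod_cast a1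
    calc ((yy s i : ℕ) : ℝ) ≤ 2 ^ i * (c / P) := h10
      _ ≤ N * V := mul_le_mul h11 h5 (by positivity) (Nat.cast_nonneg _)
  calc ((MS S θ).card : ℝ) ≤ N * V + C₁ * (N * V) := b2.trans (add_le_add b3 b1)
    _ = (C₁ + 1) * (N * V) := by ring
    _ ≤ (C₁ + 1) * (C * cc k θ) := mul_le_mul_of_nonneg_left h0 (by positivity)
    _ = _ := by ring
where
  le_of_sq_le_sq {a b : ℝ} (h : a ^ 2 ≤ b ^ 2) (hb : 0 ≤ b) : a ≤ b := by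
    exact (abs_le_of_sq_le_sq' h hb).2

/-- **Uniform independence.** -/
theorem uni (k : ℕ) : ∃ W X₀ : ℝ, 0 < W ∧ 2 ≤ X₀ ∧ ∀ S : Finset ℕ → Set ℕ, Fam S →
    (∀ η : ℝ, ∀ θ ∈ Reg k η X₀, ((MS S θ).card : ℝ) ≤ W * cc k θ) ∧
    ∀ η : ℝ, 0 < η → ∃ T : Set ℝ, dimH T ≤ ENNReal.ofReal (k * η) ∧ ∀ α : ℝ, α ∉ T →
      ∀ h : ℤ, h ≠ 0 → Tendsto (fun θ => (∑ m ∈ MS S θ, ee (m * (h * α))) / (cc k θ : ℂ)) (FF k η) (𝓝 0) := by
  classical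
  obtain ⟨s, hs, ⟨C₁, hC₁, hcnt⟩, hdim⟩ := dim_Lev k
  obtain ⟨W, X₀, hW0, hX₀, hW⟩ := card_cc k s hs hC₁ hcnt
  obtain ⟨C, X₁, hC0, hX₁, hC⟩ := VV_cc k s hs
  refine ⟨W, X₀, hW0, hX₀, fun S hS => ⟨hW S hS, fun η hη => ?_⟩⟩
  refine ⟨⋃ z : {h : ℤ // h ≠ 0} × ℕ, {α : ℝ | (z.1.1 : ℝ) * α ∈
    {β : ℝ | ∃ᶠ i in atTop, Lev S s k η (1 / ((z.2 : ℝ) + 1)) i β}}, ?_, ?_⟩
  · rw [dimH_iUnion]
    apply iSup_le
    rintro ⟨⟨h, hh⟩, m⟩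
    apply dim_dilate _ hh
    apply ENNReal.le_of_forall_pos_le_add
    intro δ hδ _
    have h1 := hdim S hS η (1 / ((m : ℝ) + 1)) (k * η + δ) hη (by positivity) (by
      have : (0 : ℝ) < δ := hδ
      linarith)
    refine h1.trans (le_of_eq ?_)
    rw [ENNReal.ofReal_add (by positivity) (NNReal.coe_nonneg δ), ENNReal.ofReal_coe_nnreal]
  · intro α hα h hh
    rw [Metric.tendsto_nhds]
    intro ε hε
    obtain ⟨m, hm⟩ := exists_nat_one_div_lt (show 0 < ε / (2 * C) by positivity)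
    have h1 : ¬ ∃ᶠ i in atTop, Lev S s k η (1 / ((m : ℝ) + 1)) i (h * α) := by
      intro hcon
      apply hα
      rw [Set.mem_iUnion]
      exact ⟨(⟨h, hh⟩, m), hcon⟩
    rw [not_frequently] at h1
    obtain ⟨i₀, hi₀⟩ := eventually_atTop.1 h1
    refine mem_FF.2 ⟨max X₁ (2 ^ i₀), fun θ hθ => ?_⟩
    have hθ0 : θ ∈ Reg k η X₁ := ⟨(le_max_left _ _).trans hθ.1, hθ.2⟩
    have hc := cc_pos hX₁ hθ0
    have hV := hC η θ hθ0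
    obtain ⟨h1, h2, h3, h4⟩ := hθ
    have hx2 : 2 ≤ θ.1 := hX₁.trans ((le_max_left _ _).trans h1)
    obtain ⟨a1, a2, a3⟩ := scale_of (show 1 ≤ θ.1 by linarith)
    have a4 := scale_ge ((le_max_right _ _).trans h1)
    have h5 := hi₀ _ a4
    have h6 : ‖TT ⌊θ.1⌋₊ (bS S θ.2) (h * α)‖ < 1 / ((m : ℝ) + 1) *
        ((⌊θ.1⌋₊ : ℝ) * VV (omT ({0} ∪ θ.2)) (yy s (Nat.log 2 ⌊θ.1⌋₊))) := by
      by_contra hcon
      rw [not_lt] at hcon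
      apply h5
      refine ⟨⌊θ.1⌋₊, a1, a2, θ.2, h2, ?_, h4, hcon⟩
      intro d hd
      refine ⟨(h3 d hd).1, (h3 d hd).2.trans ?_⟩
      rw [Real.rpow_mul (by norm_num)]
      apply Real.rpow_le_rpow (by linarith) _ hη.le
      have : ((2 : ℝ) ^ (((Nat.log 2 ⌊θ.1⌋₊ : ℕ) : ℝ) + 1)) = (2 : ℝ) ^ (Nat.log 2 ⌊θ.1⌋₊ + 1) := by
        rw [← Real.rpow_natCast]; push_cast; rfl
      rw [this]
      exact a3.le
    show dist ((∑ m ∈ MS S θ, ee (m * (h * α))) / (cc k θ : ℂ)) 0 < ε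
    rw [dist_zero_right, norm_div, Complex.norm_real, Real.norm_of_nonneg hc.le, div_lt_iff₀ hc, ← TT_MS]
    calc ‖TT ⌊θ.1⌋₊ (bS S θ.2) (h * α)‖ ≤ 1 / ((m : ℝ) + 1) *
          ((⌊θ.1⌋₊ : ℝ) * VV (omT ({0} ∪ θ.2)) (yy s (Nat.log 2 ⌊θ.1⌋₊))) := h6.le
      _ ≤ 1 / ((m : ℝ) + 1) * (C * cc k θ) := mul_le_mul_of_nonneg_left hV (by positivity)
      _ ≤ ε / (2 * C) * (C * cc k θ) := mul_le_mul_of_nonneg_right hm.le (by positivity)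
      _ = ε / 2 * cc k θ := by field_simp
      _ < ε * cc k θ := by nlinarith

end Pool.Agent.H90.SK
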