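import Pool.Agent.H90.ST.LSP
import Pool.Graph.R_pool_sql_team_seeded_2aa45f1a.Q37.BV.Fou

/-! # Exponential sums over sifted sets: one point -/

set_option autoImplicit false

namespace Pool.Agent.H90.SK

open Finset Pool.Agent.Helper112 Pool.Agent.H90.ST

/-- Parseval's identity modulo `q`. -/
theorem dual {q : ℕ} (hq : 1 ≤ q) {s : ℤ} (hs : s = 1 ∨ s = -1) (B : Finset ℕ)
    (hB : ∀ k ∈ B, k < q) (t : ℕ → ℂ) :
    ∑ a ∈ range q, ‖∑ k ∈ B, t k * ee (((s * k : ℤ) : ℝ) * a / q)‖ ^ 2 = q * ∑ k ∈ B, ‖t k‖ ^ 2 := by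
  have h : ((∑ a ∈ range q, ‖∑ k ∈ B, t k * ee (((s * k : ℤ) : ℝ) * a / q)‖ ^ 2 : ℝ) : ℂ) =
      ((q * ∑ k ∈ B, ‖t k‖ ^ 2 : ℝ) : ℂ) := by
    have e1 : ∀ a : ℕ, ((‖∑ k ∈ B, t k * ee (((s * k : ℤ) : ℝ) * a / q)‖ ^ 2 : ℝ) : ℂ) =
        ∑ k ∈ B, ∑ l ∈ B, (t k * (starRingEnd ℂ) (t l)) *
          ee (((s * (k - l) : ℤ) : ℝ) * a / q) := by
      intro a
      rw [Complex.ofReal_pow, ← Complex.mul_conj', map_sum, sum_mul_sum]
      apply sum_congr rfl
      intro k _
      apply sum_congr rfl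
      intro l _
      rw [map_mul, ls_conj_ee]
      have h3 : ee (((s * (k - l) : ℤ) : ℝ) * a / q) =
          ee (((s * k : ℤ) : ℝ) * a / q) * ee (-(((s * l : ℤ) : ℝ) * a / q)) := by
        rw [← ls_ee_add]
        congr 1
        push_cast
        ring
      rw [h3]
      ring
    rw [Complex.ofReal_sum, sum_congr rfl (fun a _ => e1 a), sum_comm]
    rw [Complex.ofReal_mul, Complex.ofReal_sum, mul_sum]
    apply sum_congr rfl
    intro k hk
    rw [sum_comm]
    have e2 : ∀ l ∈ B, ∑ a ∈ range q, (t k * (starRingEnd ℂ) (t l)) *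
          ee (((s * (k - l) : ℤ) : ℝ) * a / q) =
        if l = k then (q : ℂ) * ((‖t k‖ ^ 2 : ℝ) : ℂ) else 0 := by
      intro l hl
      rw [← mul_sum, Pool.Agent.Q37.BV.ee_sum hq]
      by_cases hlk : l = k
      · subst hlk
        rw [if_pos rfl, if_pos (by simp), Complex.ofReal_pow, ← Complex.mul_conj']
        ring
      · rw [if_neg hlk, if_neg, mul_zero]
        intro hdvd
        have h1 := hB k hk
        have h2 := hB l hl
        have hdvd' : (q : ℤ) ∣ ((k : ℤ) - l) := by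
          rcases hs with rfl | rfl
          · simpa using hdvd
          · have h4 := hdvd
            rw [neg_one_mul, dvd_neg] at h4
            exact h4
        have h3 := Int.eq_zero_of_abs_lt_dvd hdvd' (by rw [abs_lt]; constructor <;> omega)
        omega
    rw [sum_congr rfl e2, sum_ite_eq' B k, if_pos hk]
    push_cast
    rfl
  exact_mod_cast h

theorem parseval {q : ℕ} (hq : 1 ≤ q) (N : ℕ) (F : ℕ → ℂ) :
    ∑ k ∈ range q, ‖∑ n ∈ Icc 1 N, F n * ee (n * ((k : ℝ) / q))‖ ^ 2 =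
      q * ∑ c ∈ range q, ‖∑ n ∈ (Icc 1 N).filter (fun n => n % q = c), F n‖ ^ 2 := by
  rw [← dual hq (Or.inl rfl) (range q) (fun k hk => mem_range.1 hk)]
  apply sum_congr rfl
  intro k _
  congr 2
  have hq0 : (q : ℝ) ≠ 0 := by exact_mod_cast (by omega : q ≠ 0)
  rw [← sum_fiberwise_of_maps_to (s := Icc 1 N) (t := range q) (g := fun n => n % q)
    (fun n _ => mem_range.2 (Nat.mod_lt _ (by omega)))]
  apply sum_congr rfl
  intro c _
  rw [sum_mul]
  apply sum_congr rfl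
  intro n hn
  rw [mem_filter] at hn
  congr 1
  have h1 : (n : ℝ) * ((k : ℝ) / q) = ((1 * c : ℤ) : ℝ) * k / q + ((n / q * k : ℤ) : ℝ) := by
    have h2 : (n : ℝ) = c + q * ((n / q : ℕ) : ℝ) := by
      have := Nat.mod_add_div n q
      rw [hn.2] at this
      exact_mod_cast this.symm
    rw [show ((n / q * k : ℤ) : ℝ) = ((n / q : ℕ) : ℝ) * k by push_cast; rfl]
    rw [h2]
    push_cast
    field_simp
  rw [h1, ls_ee_add, ls_ee_int, mul_one]

/-- one prime -/
theorem one_prime (N : ℕ) (b : ℕ → ℂ) (x : ℝ) {p : ℕ} (hp : p.Prime) (O : Finset ℕ)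
    (hO : O ⊆ range p) (hc : O.card < p) (hb : ∀ n, b n ≠ 0 → n % p ∉ O) :
    ((O.card : ℝ) / (p - O.card)) * ‖TT N b x‖ ^ 2 ≤ ∑ a ∈ Ico 1 p, ‖TT N b (x + (a : ℝ) / p)‖ ^ 2 := by
  classical
  have hp1 : 1 ≤ p := hp.pos
  have hp0 : (0 : ℝ) < p := by exact_mod_cast hp1
  have hw : (0 : ℝ) < (p : ℝ) - O.card := by
    rw [sub_pos]; exact_mod_cast hc
  have h1 := parseval hp1 N (fun n => b n * ee (n * x))
  have h2 : ∀ k : ℕ, ∑ n ∈ Icc 1 N, (b n * ee (n * x)) * ee (n * ((k : ℝ) / p)) =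
      TT N b (x + (k : ℝ) / p) := by
    intro k
    unfold TT
    apply sum_congr rfl
    intro n _
    rw [mul_assoc, ← ls_ee_add]
    congr 2
    ring
  simp_rw [h2] at h1
  have h3 : TT N b x = ∑ c ∈ (range p) \ O, ∑ n ∈ (Icc 1 N).filter (fun n => n % p = c), b n * ee (n * x) := by
    unfold TT
    rw [← sum_fiberwise_of_maps_to (s := Icc 1 N) (t := range p) (g := fun n => n % p)
      (fun n _ => mem_range.2 (Nat.mod_lt _ (by omega)))]
    symm
    apply sum_subset sdiff_subset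
    intro c _ hc2
    rw [mem_sdiff, not_and, not_not] at hc2
    apply sum_eq_zero
    intro n hn
    rw [mem_filter] at hn
    by_contra hne
    have hb0 : b n ≠ 0 := fun h => hne (by rw [h, zero_mul])
    apply hb n hb0
    rw [hn.2]
    apply hc2
    rw [← hn.2]
    exact mem_range.2 (Nat.mod_lt _ (by omega))
  have h4 : ‖TT N b x‖ ^ 2 ≤ (p - O.card) *
      ∑ c ∈ range p, ‖∑ n ∈ (Icc 1 N).filter (fun n => n % p = c), b n * ee (n * x)‖ ^ 2 := by
    rw [h3]
    have h5 : ‖∑ c ∈ (range p) \ O, ∑ n ∈ (Icc 1 N).filter (fun n => n % p = c), b n * ee (n * x)‖ ^ 2 ≤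
        ((range p) \ O).card * ∑ c ∈ (range p) \ O,
          ‖∑ n ∈ (Icc 1 N).filter (fun n => n % p = c), b n * ee (n * x)‖ ^ 2 := by
      refine le_trans (pow_le_pow_left₀ (norm_nonneg _) (norm_sum_le _ _) 2) ?_
      exact sq_sum_le_card_mul_sum_sq
    have h6 : (((range p) \ O).card : ℝ) = p - O.card := by
      rw [card_sdiff_of_subset hO, card_range, Nat.cast_sub hc.le]
    rw [h6] at h5
    refine h5.trans (mul_le_mul_of_nonneg_left ?_ hw.le)
    exact sum_le_sum_of_subset_of_nonneg sdiff_subset (fun _ _ _ => by positivity)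
  have h7 : ∑ k ∈ range p, ‖TT N b (x + (k : ℝ) / p)‖ ^ 2 =
      ‖TT N b x‖ ^ 2 + ∑ a ∈ Ico 1 p, ‖TT N b (x + (a : ℝ) / p)‖ ^ 2 := by
    rw [range_eq_Ico, sum_eq_sum_Ico_succ_bot (by omega)]
    simp
  rw [h7] at h1
  set X := ‖TT N b x‖ ^ 2
  set S := ∑ a ∈ Ico 1 p, ‖TT N b (x + (a : ℝ) / p)‖ ^ 2
  set Y := ∑ c ∈ range p, ‖∑ n ∈ (Icc 1 N).filter (fun n => n % p = c), b n * ee (n * x)‖ ^ 2
  rw [div_mul_eq_mul_div, div_le_iff₀ hw]
  have h8 : X * p ≤ (p - O.card) * (X + S) := by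
    rw [h1]
    have := mul_le_mul_of_nonneg_right h4 hp0.le
    linarith
  linarith

theorem TT_periodic (N : ℕ) (b : ℕ → ℂ) (x : ℝ) (k : ℤ) : TT N b (x + k) = TT N b x := by
  unfold TT
  apply sum_congr rfl
  intro n _
  have : (n : ℝ) * (x + k) = n * x + ((n * k : ℤ) : ℝ) := by push_cast; ring
  rw [this, ls_ee_add, ls_ee_int, mul_one]

/-- the factor of a prime -/
noncomputable def JJ (Om : ℕ → Finset ℕ) (p : ℕ) : ℝ := ((Om p).card : ℝ) / (p - (Om p).card)

/-- admissible sieve data of dimension at most `k` -/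
def Adm (k : ℕ) (Om : ℕ → Finset ℕ) : Prop :=
  ∀ p : ℕ, p.Prime → Om p ⊆ range p ∧ (Om p).card ≤ k ∧ (Om p).card < p

theorem JJ_nonneg {k : ℕ} {Om : ℕ → Finset ℕ} (h : Adm k Om) {p : ℕ} (hp : p.Prime) : 0 ≤ JJ Om p := by
  unfold JJ
  have := (h p hp).2.2
  have h1 : ((Om p).card : ℝ) ≤ p := by exact_mod_cast this.le
  apply div_nonneg (Nat.cast_nonneg _)
  linarith

/-- **One point and one denominator.** -/
theorem one_point {k : ℕ} {Om : ℕ → Finset ℕ} (hOm : Adm k Om) (N : ℕ) (b : ℕ → ℂ) (S : Finset ℕ)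
    (hS : ∀ p ∈ S, p.Prime) (hb : ∀ n, b n ≠ 0 → ∀ p ∈ S, n % p ∉ Om p) (x : ℝ) :
    (∏ p ∈ S, JJ Om p) * ‖TT N b x‖ ^ 2 ≤
      ∑ h ∈ (range (∏ p ∈ S, p)).filter (fun h => Nat.Coprime h (∏ p ∈ S, p)),
        ‖TT N b (x + (h : ℝ) / ((∏ p ∈ S, p : ℕ) : ℝ))‖ ^ 2 := by
  classical
  induction S using Finset.induction_on generalizing x with
  | empty => simp
  | insert p S hpS ih =>
    have hp : p.Prime := hS p (mem_insert_self _ _)
    have hS' : ∀ q ∈ S, q.Prime := fun q hq => hS q (mem_insert_of_mem hq)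
    have ih' := ih hS' (fun n hn q hq => hb n hn q (mem_insert_of_mem hq))
    rw [prod_insert hpS, prod_insert hpS]
    set m : ℕ := ∏ q ∈ S, q with hm
    have hm0 : 0 < m := prod_pos fun q hq => (hS' q hq).pos
    have hmr : (0 : ℝ) < m := by exact_mod_cast hm0
    have hpr : (0 : ℝ) < p := by exact_mod_cast hp.pos
    have hcop : Nat.Coprime p m := by
      rw [hm]
      apply Nat.Coprime.prod_right
      intro q hq
      rw [Nat.coprime_primes hp (hS' q hq)]
      rintro rfl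
      exact hpS hq
    have hJ := JJ_nonneg hOm hp
    -- the two steps
    have s1 : JJ Om p * (∏ q ∈ S, JJ Om q) * ‖TT N b x‖ ^ 2 ≤
        ∑ h ∈ (range m).filter (fun h => Nat.Coprime h m), ∑ a ∈ Ico 1 p,
          ‖TT N b (x + (h : ℝ) / m + (a : ℝ) / p)‖ ^ 2 := by
      calc JJ Om p * (∏ q ∈ S, JJ Om q) * ‖TT N b x‖ ^ 2
          = JJ Om p * ((∏ q ∈ S, JJ Om q) * ‖TT N b x‖ ^ 2) := by ring
        _ ≤ JJ Om p * ∑ h ∈ (range m).filter (fun h => Nat.Coprime h m), ‖TT N b (x + (h : ℝ) / m)‖ ^ 2 :=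
            mul_le_mul_of_nonneg_left (ih' x) hJ
        _ = ∑ h ∈ (range m).filter (fun h => Nat.Coprime h m), JJ Om p * ‖TT N b (x + (h : ℝ) / m)‖ ^ 2 := by
            rw [mul_sum]
        _ ≤ _ := by
            apply sum_le_sum
            intro h _
            exact one_prime N b _ hp (Om p) (hOm p hp).1 (hOm p hp).2.2
              (fun n hn => hb n hn p (mem_insert_self _ _))
    refine s1.trans ?_
    rw [← sum_product']
    set φ : ℕ × ℕ → ℕ := fun y => (y.2 * m + y.1 * p) % (p * m) with hφ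
    have hpm : 0 < p * m := Nat.mul_pos hp.pos hm0
    have hval : ∀ y ∈ (range m).filter (fun h => Nat.Coprime h m) ×ˢ Ico 1 p,
        ‖TT N b (x + (y.1 : ℝ) / m + (y.2 : ℝ) / p)‖ ^ 2 =
          ‖TT N b (x + ((φ y : ℕ) : ℝ) / ((p * m : ℕ) : ℝ))‖ ^ 2 := by
      intro y _
      have e1 : ((y.2 * m + y.1 * p : ℕ) : ℝ) = ((φ y : ℕ) : ℝ) + ((p * m : ℕ) : ℝ) *
          (((y.2 * m + y.1 * p) / (p * m) : ℕ) : ℝ) := by
        have := Nat.mod_add_div (y.2 * m + y.1 * p) (p * m)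
        exact_mod_cast this.symm
      have e2 : x + (y.1 : ℝ) / m + (y.2 : ℝ) / p = x + ((φ y : ℕ) : ℝ) / ((p * m : ℕ) : ℝ) +
          ((((y.2 * m + y.1 * p) / (p * m) : ℕ) : ℤ) : ℝ) := by
        have e3 : (y.1 : ℝ) / m + (y.2 : ℝ) / p = ((y.2 * m + y.1 * p : ℕ) : ℝ) / ((p * m : ℕ) : ℝ) := by
          push_cast
          field_simp
          ring
        have hpm' : ((p * m : ℕ) : ℝ) ≠ 0 := by exact_mod_cast hpm.ne'
        rw [add_assoc, e3, e1, add_div, mul_div_cancel_left₀ _ hpm', Int.cast_natCast, add_assoc]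
      rw [e2, TT_periodic]
    rw [sum_congr rfl hval]
    have hinj : Set.InjOn φ ((range m).filter (fun h => Nat.Coprime h m) ×ˢ Ico 1 p : Finset (ℕ × ℕ)) := by
      rintro ⟨h, a⟩ h1 ⟨h', a'⟩ h2 heq
      simp only [coe_product, Set.mem_prod, mem_coe, mem_filter, mem_range, mem_Ico] at h1 h2
      simp only [hφ] at heq
      have heq' : a * m + h * p ≡ a' * m + h' * p [MOD p * m] := heq
      have k1 : a * m + h * p ≡ a' * m + h' * p [MOD p] := heq'.of_mul_right m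
      have k2 : a * m + h * p ≡ a' * m + h' * p [MOD m] := heq'.of_mul_left p
      have k3 : a * m ≡ a' * m [MOD p] := by
        have z1 : a * m + h * p ≡ a * m + 0 [MOD p] := Nat.ModEq.add_left _ ((Nat.modEq_zero_iff_dvd).2 ⟨h, by ring⟩)
        have z2 : a' * m + h' * p ≡ a' * m + 0 [MOD p] := Nat.ModEq.add_left _ ((Nat.modEq_zero_iff_dvd).2 ⟨h', by ring⟩)
        exact (z1.symm.trans k1).trans z2
      have k4 : h * p ≡ h' * p [MOD m] := by
        have z1 : a * m + h * p ≡ 0 + h * p [MOD m] := Nat.ModEq.add_right _ ((Nat.modEq_zero_iff_dvd).2 ⟨a, by ring⟩)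
        have z2 : a' * m + h' * p ≡ 0 + h' * p [MOD m] := Nat.ModEq.add_right _ ((Nat.modEq_zero_iff_dvd).2 ⟨a', by ring⟩)
        have := (z1.symm.trans k2).trans z2
        simpa using this
      have k5 : a = a' := by
        have := Nat.ModEq.cancel_right_of_coprime (c := m) (m := p) hcop k3
        exact this.eq_of_lt_of_lt h1.2.2 h2.2.2
      have k6 : h = h' := by
        have := Nat.ModEq.cancel_right_of_coprime (c := p) (m := m) hcop.symm k4
        exact this.eq_of_lt_of_lt h1.1.1 h2.1.1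
      rw [k5, k6]
    rw [← sum_image (g := φ) (f := fun h : ℕ => ‖TT N b (x + (h : ℝ) / ((p * m : ℕ) : ℝ))‖ ^ 2) hinj]
    apply sum_le_sum_of_subset_of_nonneg _ (fun _ _ _ => by positivity)
    intro z hz
    rw [mem_image] at hz
    obtain ⟨⟨h, a⟩, hy, rfl⟩ := hz
    simp only [mem_product, mem_filter, mem_range, mem_Ico] at hy
    rw [mem_filter, mem_range]
    refine ⟨Nat.mod_lt _ hpm, ?_⟩
    simp only [hφ]
    rw [Nat.Coprime, ← Nat.gcd_rec, Nat.gcd_comm]
    apply Nat.Coprime.mul_right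
    · rw [Nat.coprime_add_mul_right_left]
      apply Nat.Coprime.mul_left
      · exact (Nat.Coprime.symm ((Nat.Prime.coprime_iff_not_dvd hp).2 (Nat.not_dvd_of_pos_of_lt hy.2.1 hy.2.2)))
      · exact hcop.symm
    · rw [add_comm, Nat.coprime_add_mul_right_left]
      exact Nat.Coprime.mul_left hy.1.2 hcop

end Pool.Agent.H90.SK
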