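import Pool.Agent.H90.SK.Bdh
import Pool.Graph.R_pool_sql_team_seeded_843ab51a.V11249.NP.Gen

/-! # Prime values of systems of polynomials in residue classes to large moduli -/

set_option autoImplicit false

namespace Pool.Agent.H90.SK

open Finset Pool.Agent.Helper112 Pool.Agent.H90.ST Polynomial Filter Topology

theorem sum_norm_le (N y : ℕ) (b : ℕ → ℂ) (hb1 : ∀ n, ‖b n‖ ≤ 1) (hb : ∀ n, y < n → b n = 0) (x : ℝ) :
    ‖TT N b x‖ ≤ y := by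
  classical
  unfold TT
  calc ‖∑ n ∈ Icc 1 N, b n * ee (n * x)‖ ≤ ∑ n ∈ Icc 1 N, ‖b n * ee (n * x)‖ := norm_sum_le _ _
    _ ≤ ∑ n ∈ Icc 1 N, (if n ≤ y then (1 : ℝ) else 0) := by
        apply sum_le_sum
        intro n _
        rw [norm_mul, Pool.Agent.Helper112.ls_norm_ee, mul_one]
        split_ifs with h
        · exact hb1 n
        · rw [hb n (by omega), norm_zero]
    _ = (((Icc 1 N).filter (fun n => n ≤ y)).card : ℝ) := by
        rw [← sum_filter, sum_const, nsmul_eq_mul, mul_one]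
    _ ≤ ((Icc 1 y).card : ℝ) := by
        norm_cast
        apply card_le_card
        intro n hn
        rw [mem_filter, mem_Icc] at hn
        rw [mem_Icc]
        omega
    _ = y := by simp

/-- the difference of a class modulo `q` and the class modulo `g` -/
noncomputable def DF (N : ℕ) (b : ℕ → ℂ) (q g a : ℕ) : ℂ := cls N b q a - ((g : ℂ) / q) * cls N b g a

/-- the version with exceptions for small `n` -/
theorem bdh2 (k : ℕ) (hk : 1 ≤ k) : ∃ C : ℝ, 0 < C ∧ ∃ s : ℕ, 1 ≤ s ∧ ∀ y z N : ℕ, 2 ≤ y →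
    2 * y ^ (4 * s) ≤ N → ∀ Om : ℕ → Finset ℕ, Adm k Om → ∀ b : ℕ → ℂ,
      (∀ n, b n ≠ 0 → z < n → ∀ p ∈ PR y, n % p ∉ Om p) → (∀ n, ‖b n‖ ≤ 1) →
      ∀ K P : ℕ, 1 ≤ K → (∀ d, 1 ≤ d → d ≤ K → d ∣ P) → ∀ Q : ℕ, 1 ≤ Q →
        ∑ q ∈ Ico Q (2 * Q), ∑ a ∈ range q, ‖DF N b q (Nat.gcd q P) a‖ ^ 2 ≤
            C * ((N * VV Om y) ^ 2 / √K + Q * (N * VV Om y)) + 2 * Q * (z : ℝ) ^ 2 := by
  classical
  obtain ⟨C, hC0, s, hs1, h⟩ := bdh k hk
  refine ⟨2 * C, by positivity, s, hs1, ?_⟩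
  intro y z N hy hyN Om hOm b hb hb1 K P hK hKP Q hQ
  set b1 : ℕ → ℂ := fun n => if z < n then b n else 0 with hb1def
  set b2 : ℕ → ℂ := fun n => if z < n then 0 else b n with hb2def
  have hb11 : ∀ n, ‖b1 n‖ ≤ 1 := by
    intro n; simp only [hb1def]; split_ifs
    · exact hb1 n
    · simp
  have hb21 : ∀ n, ‖b2 n‖ ≤ 1 := by
    intro n; simp only [hb2def]; split_ifs
    · simp
    · exact hb1 n
  have hcls : ∀ q a, cls N b q a = cls N b1 q a + cls N b2 q a := by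
    intro q a
    unfold cls
    rw [← sum_add_distrib]
    apply sum_congr rfl
    intro n _
    simp only [hb1def, hb2def]
    split_ifs <;> ring
  have hDF : ∀ q g a, ‖DF N b q g a‖ ^ 2 ≤ 2 * ‖DF N b1 q g a‖ ^ 2 + 2 * ‖DF N b2 q g a‖ ^ 2 := by
    intro q g a
    have e : DF N b q g a = DF N b1 q g a + DF N b2 q g a := by
      unfold DF
      rw [hcls, hcls]
      ring
    rw [e]
    have := norm_add_le (DF N b1 q g a) (DF N b2 q g a)
    calc ‖DF N b1 q g a + DF N b2 q g a‖ ^ 2 ≤ (‖DF N b1 q g a‖ + ‖DF N b2 q g a‖) ^ 2 :=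
          pow_le_pow_left₀ (norm_nonneg _) this 2
      _ ≤ _ := by nlinarith [sq_nonneg (‖DF N b1 q g a‖ - ‖DF N b2 q g a‖)]
  have h1 := h y N hy hyN Om hOm b1 (by
    intro n hn
    simp only [hb1def] at hn
    split_ifs at hn with h
    · exact hb n hn h
    · exact absurd rfl hn) hb11 K P hK hKP Q hQ
  have h2 : ∑ q ∈ Ico Q (2 * Q), ∑ a ∈ range q, ‖DF N b2 q (Nat.gcd q P) a‖ ^ 2 ≤ Q * (z : ℝ) ^ 2 := by
    have h3 : ∀ q ∈ Ico Q (2 * Q), ∑ a ∈ range q, ‖DF N b2 q (Nat.gcd q P) a‖ ^ 2 ≤ (z : ℝ) ^ 2 := by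
      intro q hq
      rw [mem_Ico] at hq
      have hq1 : 1 ≤ q := by omega
      have hq0 : (0 : ℝ) < q := by exact_mod_cast hq1
      have e := diff_sum hq1 (Nat.gcd_dvd_left q P) N b2
      have e' : ∑ a ∈ range q, ‖DF N b2 q (Nat.gcd q P) a‖ ^ 2 =
          1 / (q : ℝ) * ∑ k ∈ BB q (Nat.gcd q P), ‖TT N b2 ((k : ℝ) / q)‖ ^ 2 := e
      rw [e']
      have h4 : ∑ k ∈ BB q (Nat.gcd q P), ‖TT N b2 ((k : ℝ) / q)‖ ^ 2 ≤ q * (z : ℝ) ^ 2 := by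
        calc ∑ k ∈ BB q (Nat.gcd q P), ‖TT N b2 ((k : ℝ) / q)‖ ^ 2 ≤ ∑ k ∈ BB q (Nat.gcd q P), (z : ℝ) ^ 2 := by
              apply sum_le_sum
              intro k _
              apply pow_le_pow_left₀ (norm_nonneg _)
              apply sum_norm_le N z b2 hb21
              intro n hn
              simp only [hb2def]
              rw [if_pos hn]
          _ = (BB q (Nat.gcd q P)).card * (z : ℝ) ^ 2 := by rw [sum_const, nsmul_eq_mul]
          _ ≤ q * (z : ℝ) ^ 2 := by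
              apply mul_le_mul_of_nonneg_right _ (by positivity)
              have : (BB q (Nat.gcd q P)).card ≤ q := (card_filter_le _ _).trans (by simp)
              exact_mod_cast this
      calc 1 / (q : ℝ) * ∑ k ∈ BB q (Nat.gcd q P), ‖TT N b2 ((k : ℝ) / q)‖ ^ 2
          ≤ 1 / (q : ℝ) * (q * (z : ℝ) ^ 2) := mul_le_mul_of_nonneg_left h4 (by positivity)
        _ = (z : ℝ) ^ 2 := by field_simp
    calc ∑ q ∈ Ico Q (2 * Q), ∑ a ∈ range q, ‖DF N b2 q (Nat.gcd q P) a‖ ^ 2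
        ≤ ∑ q ∈ Ico Q (2 * Q), (z : ℝ) ^ 2 := sum_le_sum h3
      _ = Q * (z : ℝ) ^ 2 := by
          rw [sum_const, nsmul_eq_mul, Nat.card_Ico]
          congr 2
          omega
  calc ∑ q ∈ Ico Q (2 * Q), ∑ a ∈ range q, ‖DF N b q (Nat.gcd q P) a‖ ^ 2
      ≤ ∑ q ∈ Ico Q (2 * Q), ∑ a ∈ range q,
          (2 * ‖DF N b1 q (Nat.gcd q P) a‖ ^ 2 + 2 * ‖DF N b2 q (Nat.gcd q P) a‖ ^ 2) :=
        sum_le_sum fun q _ => sum_le_sum fun a _ => hDF q _ a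
    _ = 2 * ∑ q ∈ Ico Q (2 * Q), ∑ a ∈ range q, ‖DF N b1 q (Nat.gcd q P) a‖ ^ 2 +
        2 * ∑ q ∈ Ico Q (2 * Q), ∑ a ∈ range q, ‖DF N b2 q (Nat.gcd q P) a‖ ^ 2 := by
        rw [mul_sum, mul_sum, ← sum_add_distrib]
        apply sum_congr rfl
        intro q _
        rw [mul_sum, mul_sum, ← sum_add_distrib]
    _ ≤ _ := by
        have h1' : ∑ q ∈ Ico Q (2 * Q), ∑ a ∈ range q, ‖DF N b1 q (Nat.gcd q P) a‖ ^ 2 ≤
          C * ((N * VV Om y) ^ 2 / √K + Q * (N * VV Om y)) := h1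
        linarith

/-- the values of a polynomial are large -/
theorem value_large (f : ℤ[X]) (hd : 0 < f.natDegree) (hl : 0 < f.leadingCoeff) :
    ∃ n₀ : ℕ, ∀ n : ℕ, n₀ ≤ n → n ≤ 2 * (f.eval (n : ℤ)).natAbs := by
  set g : ℝ[X] := f.map (Int.castRingHom ℝ) with hg
  have hinj : Function.Injective (Int.castRingHom ℝ) := Int.cast_injective
  have hgd : g.natDegree = f.natDegree := natDegree_map_eq_of_injective hinj f
  have hgl : g.leadingCoeff = (f.leadingCoeff : ℝ) := by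
    rw [hg, leadingCoeff_map_of_injective hinj]
    rfl
  have h1 := (Polynomial.isEquivalent_atTop_lead g).isLittleO.def (show (0 : ℝ) < 1 / 2 by norm_num)
  have h2 := tendsto_natCast_atTop_atTop (R := ℝ) |>.eventually h1
  obtain ⟨n₀, hn₀⟩ := eventually_atTop.1 h2
  refine ⟨max n₀ 1, fun n hn => ?_⟩
  have h3 := hn₀ n ((le_max_left _ _).trans hn)
  have hn1 : (1 : ℝ) ≤ n := by exact_mod_cast (le_max_right _ _).trans hn
  simp only [Pi.sub_apply] at h3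
  rw [hgl, hgd] at h3
  have h4 : (1 : ℝ) ≤ (f.leadingCoeff : ℝ) := by exact_mod_cast hl
  have h5 : (n : ℝ) ≤ (n : ℝ) ^ f.natDegree := le_self_pow₀ hn1 (by omega)
  have h6 : (n : ℝ) ≤ (f.leadingCoeff : ℝ) * (n : ℝ) ^ f.natDegree := by nlinarith
  have h7 : Polynomial.eval (n : ℝ) g = ((f.eval (n : ℤ) : ℤ) : ℝ) := by
    rw [hg, eval_natCast_map]
    rfl
  rw [Real.norm_eq_abs, Real.norm_eq_abs, h7] at h3
  set L : ℝ := (f.leadingCoeff : ℝ) * (n : ℝ) ^ f.natDegree with hL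
  have hL0 : 0 ≤ L := by linarith
  rw [abs_of_nonneg hL0] at h3
  have h8 := (abs_le.1 h3).1
  have h9 : L / 2 ≤ ((f.eval (n : ℤ) : ℤ) : ℝ) := by linarith
  have h10 : ((f.eval (n : ℤ) : ℤ) : ℝ) ≤ ((f.eval (n : ℤ)).natAbs : ℝ) := by
    have h12 : (f.eval (n : ℤ)) ≤ ((f.eval (n : ℤ)).natAbs : ℤ) := Int.le_natAbs
    have h13 : ((f.eval (n : ℤ) : ℤ) : ℝ) ≤ (((f.eval (n : ℤ)).natAbs : ℤ) : ℝ) := Int.cast_le.2 h12
    rwa [Int.cast_natCast] at h13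
  have h11 : (n : ℝ) ≤ 2 * ((f.eval (n : ℤ)).natAbs : ℝ) := by linarith
  exact_mod_cast h11

open Pool.Agent.W123.RU.Poly (Sys exists_c adm per)
open Pool.Agent.V11249.NP (ZZ ZZ_card V_two)

theorem adm_ZZ {r : ℕ} (f : Fin r → ℤ[X]) (hf : Sys f) : ∃ c : ℕ, 1 ≤ c ∧ Adm c (ZZ f) := by
  classical
  obtain ⟨c, hc1, hc⟩ := exists_c f hf
  refine ⟨c, hc1, fun p hp => ⟨filter_subset _ _, ?_, ?_⟩⟩
  · rw [ZZ_card]; exact hc.few p hp
  · rw [ZZ_card]; exact adm f hf p hp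

theorem VV_eq' (Om : ℕ → Finset ℕ) (y : ℕ) : VV Om y = Pool.Agent.Y843.HS.VV Om 0 y := by
  unfold VV Pool.Agent.Y843.HS.VV
  congr 1

/-- the main term -/
noncomputable def XX (r x : ℕ) : ℝ := (x : ℝ) / Real.log x ^ r

theorem ev_pow (r : ℕ) : ∀ᶠ x : ℕ in atTop, Real.log x ^ r ≤ √(x : ℝ) := by
  have h1 : (fun x : ℝ => Real.log x ^ r) =o[atTop] fun x => x ^ (1 / 2 : ℝ) := by
    have := isLittleO_log_rpow_rpow_atTop (s := 1 / 2) (r : ℝ) (by norm_num)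
    refine this.congr' ?_ (by rfl)
    filter_upwards with x
    rw [Real.rpow_natCast]
  have h2 := h1.bound (show (0 : ℝ) < 1 by norm_num)
  have h3 := (tendsto_natCast_atTop_atTop (R := ℝ)).eventually h2
  filter_upwards [h3, eventually_ge_atTop 1] with x hx hx1
  rw [one_mul, Real.norm_eq_abs, Real.norm_eq_abs] at hx
  rw [Real.sqrt_eq_rpow]
  rw [abs_of_nonneg (show (0 : ℝ) ≤ (x : ℝ) ^ (1 / 2 : ℝ) by positivity)] at hx
  exact (le_abs_self _).trans hx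

/-- **The mean square law for prime values.** -/
theorem main_rel {r : ℕ} (f : Fin r → ℤ[X]) (hf : Sys f) : ∃ C : ℝ, 0 < C ∧ ∀ᶠ x : ℕ in atTop,
    ∀ b : ℕ → ℂ, (∀ n, b n ≠ 0 → ∀ i, ((f i).eval (n : ℤ)).natAbs.Prime) → (∀ n, ‖b n‖ ≤ 1) →
      ∀ K P : ℕ, 1 ≤ K → (∀ d, 1 ≤ d → d ≤ K → d ∣ P) → ∀ Q : ℕ, 1 ≤ Q →
        ∑ q ∈ Ico Q (2 * Q), ∑ a ∈ range q, ‖DF x b q (Nat.gcd q P) a‖ ^ 2 ≤
          C * (XX r x ^ 2 / √K + Q * XX r x) := by
  classical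
  obtain ⟨c, hc1, hOm⟩ := adm_ZZ f hf
  obtain ⟨C1, hC1, s, hs1, h1⟩ := bdh2 c hc1
  have hs0 : (0 : ℝ) < s := by exact_mod_cast hs1
  set κ : ℝ := 1 / (8 * s) with hκ
  have hκ0 : 0 < κ := by positivity
  have hκ8 : κ ≤ 1 / 8 := by
    rw [hκ]
    apply one_div_le_one_div_of_le (by norm_num)
    have : (1 : ℝ) ≤ s := by exact_mod_cast hs1
    linarith
  obtain ⟨v, C2, hv, hC2, X₀, hV⟩ := V_two f hf κ hκ0
  have hlarge : ∀ i, ∃ n₀ : ℕ, ∀ n : ℕ, n₀ ≤ n → n ≤ 2 * ((f i).eval (n : ℤ)).natAbs := fun i =>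
    value_large (f i) (hf.deg i) (hf.lead i)
  choose n₀ hn₀ using hlarge
  set n1 : ℕ := ∑ i, n₀ i with hn1
  refine ⟨C1 * C2 ^ 2 + C1 * C2 + 2, by positivity, ?_⟩
  have ev1 : ∀ᶠ x : ℕ in atTop, (n1 : ℝ) ≤ (x : ℝ) ^ (1 / 8 : ℝ) :=
    ((tendsto_rpow_atTop (show (0 : ℝ) < 1 / 8 by norm_num)).comp
      (tendsto_natCast_atTop_atTop (R := ℝ))).eventually (eventually_ge_atTop (n1 : ℝ))
  have ev2 : ∀ᶠ x : ℕ in atTop, (9 : ℝ) ≤ (x : ℝ) ^ (1 / 4 : ℝ) :=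
    ((tendsto_rpow_atTop (show (0 : ℝ) < 1 / 4 by norm_num)).comp
      (tendsto_natCast_atTop_atTop (R := ℝ))).eventually (eventually_ge_atTop (9 : ℝ))
  have ev3 : ∀ᶠ x : ℕ in atTop, (2 : ℝ) ≤ (x : ℝ) ^ κ :=
    ((tendsto_rpow_atTop hκ0).comp (tendsto_natCast_atTop_atTop (R := ℝ))).eventually (eventually_ge_atTop (2 : ℝ))
  filter_upwards [ev1, ev2, ev3, ev_pow r, eventually_ge_atTop X₀, eventually_ge_atTop 4] with
    x e1 e2 e3 e4 e5 e6 b hb hb1 K P hK hKP Q hQ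
  have hx0 : (0 : ℝ) < x := by exact_mod_cast (by omega : 0 < x)
  have hx4 : (4 : ℝ) ≤ x := by exact_mod_cast e6
  have hlx : 0 < Real.log x := Real.log_pos (by linarith)
  have hK0 : (0 : ℝ) < K := by exact_mod_cast hK
  have hQ0 : (0 : ℝ) < Q := by exact_mod_cast hQ
  set y : ℕ := ⌊(x : ℝ) ^ κ⌋₊ with hy
  have hy2 : 2 ≤ y := Nat.le_floor (by exact_mod_cast e3)
  have hyle : (y : ℝ) ≤ (x : ℝ) ^ κ := Nat.floor_le (by positivity)
  have hsq : (x : ℝ) ^ (1 / 2 : ℝ) = √(x : ℝ) := (Real.sqrt_eq_rpow _).symm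
  have hsx : 0 < √(x : ℝ) := Real.sqrt_pos.2 hx0
  have hsx2 : √(x : ℝ) * √(x : ℝ) = x := Real.mul_self_sqrt hx0.le
  have hsx3 : 2 ≤ √(x : ℝ) := Real.le_sqrt_of_sq_le (by linarith)
  have hyN : 2 * y ^ (4 * s) ≤ x := by
    have a1 : (y : ℝ) ^ (4 * s) ≤ √(x : ℝ) := by
      calc (y : ℝ) ^ (4 * s) ≤ ((x : ℝ) ^ κ) ^ (4 * s) := pow_le_pow_left₀ (by positivity) hyle _
        _ = (x : ℝ) ^ (1 / 2 : ℝ) := by
            rw [← Real.rpow_natCast, ← Real.rpow_mul hx0.le]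
            congr 1
            rw [hκ]
            push_cast
            field_simp
            norm_num
        _ = _ := hsq
    have a2 : (2 : ℝ) * (y : ℝ) ^ (4 * s) ≤ x := by nlinarith
    exact_mod_cast a2
  have hVx := (hV x e5).2
  rw [Fintype.card_fin, ← VV_eq'] at hVx
  have hVp := VV_pos hOm y
  set z : ℕ := 2 * y + n1 with hz
  have hmain := h1 y z x hy2 hyN (ZZ f) hOm b (by
    intro n hn hzn p hp hmem
    obtain ⟨hpp, hpy⟩ := mem_PR.1 hp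
    unfold ZZ at hmem
    rw [mem_filter] at hmem
    have hQ1 := (per f p n).2 hmem.2
    obtain ⟨i, hi⟩ := hQ1
    have hprime := hb n hn i
    have h3 : p ∣ ((f i).eval (n : ℤ)).natAbs := Int.natCast_dvd.1 hi
    have h4 : p = ((f i).eval (n : ℤ)).natAbs := (Nat.prime_dvd_prime_iff_eq hpp hprime).1 h3
    have h5 : n₀ i ≤ n1 := single_le_sum (fun _ _ => Nat.zero_le _) (mem_univ i)
    have h6 := hn₀ i n (by omega)
    omega) hb1 K P hK hKP Q hQ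
  refine hmain.trans ?_
  set U : ℝ := (x : ℝ) * VV (ZZ f) y with hU
  have hU0 : 0 < U := by positivity
  have hXX : 0 < XX r x := by unfold XX; positivity
  have hUX : U ≤ C2 * XX r x := by
    rw [hU]
    unfold XX
    calc (x : ℝ) * VV (ZZ f) y ≤ x * (C2 / Real.log x ^ r) := mul_le_mul_of_nonneg_left hVx hx0.le
      _ = _ := by ring
  have hz2 : (z : ℝ) ^ 2 ≤ XX r x := by
    have a1 : (z : ℝ) ≤ 3 * (x : ℝ) ^ (1 / 8 : ℝ) := by
      have b1 : (x : ℝ) ^ κ ≤ (x : ℝ) ^ (1 / 8 : ℝ) := Real.rpow_le_rpow_of_exponent_le (by linarith) hκ8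
      rw [hz]
      push_cast
      linarith
    have a2 : (z : ℝ) ^ 2 ≤ √(x : ℝ) := by
      calc (z : ℝ) ^ 2 ≤ (3 * (x : ℝ) ^ (1 / 8 : ℝ)) ^ 2 := pow_le_pow_left₀ (by positivity) a1 2
        _ = 9 * (x : ℝ) ^ (1 / 4 : ℝ) := by
            rw [mul_pow, ← Real.rpow_natCast ((x : ℝ) ^ (1 / 8 : ℝ)), ← Real.rpow_mul hx0.le]
            norm_num
        _ ≤ (x : ℝ) ^ (1 / 4 : ℝ) * (x : ℝ) ^ (1 / 4 : ℝ) := mul_le_mul_of_nonneg_right e2 (by positivity)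
        _ = √(x : ℝ) := by
            rw [← Real.rpow_add hx0, ← hsq]
            norm_num
    have a3 : √(x : ℝ) ≤ XX r x := by
      unfold XX
      rw [le_div_iff₀ (by positivity)]
      nlinarith
    exact a2.trans a3
  have hsK : 0 < √(K : ℝ) := Real.sqrt_pos.2 hK0
  have t1 : U ^ 2 / √K ≤ C2 ^ 2 * (XX r x ^ 2 / √K) := by
    rw [← mul_div_assoc]
    apply div_le_div_of_nonneg_right _ hsK.le
    calc U ^ 2 ≤ (C2 * XX r x) ^ 2 := pow_le_pow_left₀ hU0.le hUX 2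
      _ = _ := by ring
  have t2 : Q * U ≤ C2 * (Q * XX r x) := by
    calc Q * U ≤ Q * (C2 * XX r x) := mul_le_mul_of_nonneg_left hUX hQ0.le
      _ = _ := by ring
  have t3 : 2 * Q * (z : ℝ) ^ 2 ≤ 2 * (Q * XX r x) := by
    calc 2 * Q * (z : ℝ) ^ 2 ≤ 2 * Q * XX r x := mul_le_mul_of_nonneg_left hz2 (by positivity)
      _ = _ := by ring
  have p1 : 0 ≤ XX r x ^ 2 / √K := by positivity
  have p2 : 0 ≤ Q * XX r x := by positivity
  calc C1 * (U ^ 2 / √K + Q * U) + 2 * Q * (z : ℝ) ^ 2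
      ≤ C1 * (C2 ^ 2 * (XX r x ^ 2 / √K) + C2 * (Q * XX r x)) + 2 * (Q * XX r x) := by
        have := mul_le_mul_of_nonneg_left (add_le_add t1 t2) hC1.le
        linarith
    _ ≤ _ := by
        have q1 : 0 ≤ C1 * C2 * (XX r x ^ 2 / √K) := by positivity
        have q2 : 0 ≤ C1 * C2 ^ 2 * (Q * XX r x) := by positivity
        nlinarith

end Pool.Agent.H90.SK
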