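import Pool.Agent.H90.SK.Uni
import Pool.Agent.H90.SK.Sys

/-! # Prime values of systems of polynomials: the exceptional rotations -/

set_option autoImplicit false

namespace Pool.Agent.H90.SK

open Finset Filter Topology Pool.Agent.Helper112 Pool.Agent.H90.ST Polynomial
open scoped ENNReal
open Pool.Agent.W123.RU.Poly (Sys exists_c adm per)
open Pool.Agent.V11249.NP (ZZ ZZ_card V_two)

/-- all values at the elements of `S` are primes -/
def PV {r : ℕ} (f : Fin r → ℤ[X]) (S : Set ℕ) : Prop := ∀ n ∈ S, ∀ i, ((f i).eval (n : ℤ)).natAbs.Prime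

theorem supp_poly {r : ℕ} (f : Fin r → ℤ[X]) (hf : Sys f) : ∃ n1 : ℕ, ∀ S : Set ℕ, PV f S → ∀ y n : ℕ,
    bSy (fun _ => S) ∅ (2 * y + n1) n ≠ 0 → ∀ p ∈ PR y, n % p ∉ ZZ f p := by
  classical
  have hlarge : ∀ i, ∃ n₀ : ℕ, ∀ n : ℕ, n₀ ≤ n → n ≤ 2 * ((f i).eval (n : ℤ)).natAbs := fun i =>
    value_large (f i) (hf.deg i) (hf.lead i)
  choose n₀ hn₀ using hlarge
  refine ⟨∑ i, n₀ i, fun S hS y n hn p hp hmem => ?_⟩
  obtain ⟨hpp, hpy⟩ := mem_PR.1 hp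
  unfold bSy at hn
  split_ifs at hn with h
  · unfold bS at hn
    have hnS : n ∈ S := by
      by_contra hcon
      rw [if_neg hcon] at hn
      exact hn rfl
    unfold ZZ at hmem
    rw [mem_filter] at hmem
    have hQ1 := (per f p n).2 hmem.2
    obtain ⟨i, hi⟩ := hQ1
    have hprime := hS n hnS i
    have h3 : p ∣ ((f i).eval (n : ℤ)).natAbs := Int.natCast_dvd.1 hi
    have h4 : p = ((f i).eval (n : ℤ)).natAbs := (Nat.prime_dvd_prime_iff_eq hpp hprime).1 h3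
    have h5 : n₀ i ≤ ∑ i, n₀ i := single_le_sum (fun _ _ => Nat.zero_le _) (mem_univ i)
    have h6 := hn₀ i n (by omega)
    omega
  · exact hn rfl

/-- large values at the scale `2 ^ i` -/
def LevP {r : ℕ} (f : Fin r → ℤ[X]) (S : Set ℕ) (s : ℕ) (ε : ℝ) (i : ℕ) (α : ℝ) : Prop :=
  ∃ N : ℕ, 2 ^ i ≤ N ∧ N < 2 ^ (i + 1) ∧
    ε * (N * VV (ZZ f) (yy s i)) ≤ ‖TT N (bS (fun _ => S) ∅) α‖

theorem rp_yy_small (s n1 i : ℕ) (hs : 1 ≤ s) (hi : 2 * n1 + 16 ≤ i) : 2 * yy s i + n1 ≤ 2 ^ (i / 2) := by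
  have h1 : yy s i ≤ 2 ^ (i / 8) := by
    unfold yy
    exact Nat.pow_le_pow_right (by norm_num) (Nat.div_le_div_left (by omega) (by norm_num))
  have h2 : n1 ≤ 2 ^ (i / 2 - 1) := (Nat.lt_two_pow_self (n := n1)).le.trans (Nat.pow_le_pow_right (by norm_num) (by omega))
  have h3 : 2 * 2 ^ (i / 8) ≤ 2 ^ (i / 2 - 1) := by
    rw [← pow_succ']
    exact Nat.pow_le_pow_right (by norm_num) (by omega)
  have h4 : 2 ^ (i / 2) = 2 * 2 ^ (i / 2 - 1) := by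
    rw [← pow_succ']
    congr 1
    omega
  omega

/-- **The dimension of the exceptional set.** -/
theorem dim_LevP {r : ℕ} (f : Fin r → ℤ[X]) (hf : Sys f) : ∃ s : ℕ, 1 ≤ s ∧ (∃ C : ℝ, 0 < C ∧ ∀ y N : ℕ, 2 ≤ y →
    2 * y ^ (4 * s) ≤ N → ∀ b : ℕ → ℂ,
      (∀ n, b n ≠ 0 → ∀ p ∈ PR y, n % p ∉ ZZ f p) → (∀ n, ‖b n‖ ≤ 1) →
        ∑ n ∈ Icc 1 N, ‖b n‖ ^ 2 ≤ C * (N * VV (ZZ f) y)) ∧
    ∀ S : Set ℕ, PV f S → ∀ ε D₀ : ℝ, 0 < ε → 0 < D₀ →
      dimH {α : ℝ | ∃ᶠ i in atTop, LevP f S s ε i α} ≤ ENNReal.ofReal D₀ := by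
  classical
  obtain ⟨k, hk1, hadm⟩ := adm_ZZ f hf
  obtain ⟨n1, hn1⟩ := supp_poly f hf
  obtain ⟨s, hs, ⟨C, hC, hcnt⟩, hfew⟩ := few_set k hk1
  obtain ⟨c, hc0, hV⟩ := VV_ge k hk1
  refine ⟨s, hs, ⟨C, hC, fun y N hy hyN b hb hb1 => hcnt y N hy hyN (ZZ f) hadm b hb hb1⟩, fun S hS ε D₀ hε hD0 => ?_⟩
  obtain ⟨B, hB⟩ := hfew (ε / 2) (by positivity)
  set K : ℕ := 2 * k + 1 with hK
  have ev1 := poly_exp (2 * K) 1
  obtain ⟨i₁, hi₁⟩ := exists_nat_gt (2 ^ K * 4 / (ε * c))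
  obtain ⟨i₂, hi₂⟩ := eventually_atTop.1 ev1
  set i₀ : ℕ := max (max i₁ i₂) (max (8 * s + 2) (2 * n1 + 16)) with hi₀
  set NN : ℕ → ℕ → ℕ := fun i j => 2 ^ i + j * 2 ^ (i - tt K i) with hNN
  set bb : ℕ → ℕ → ℂ := fun i => bSy (fun _ => S) ∅ (2 * yy s i + n1) with hbb
  have hsupp : ∀ i n, bb i n ≠ 0 → ∀ p ∈ PR (yy s i), n % p ∉ ZZ f p := fun i n h => hn1 S hS (yy s i) n h
  have hnb : ∀ i n, ‖bb i n‖ ≤ 1 := fun i n => norm_bSy _ _ _ _
  set Lv : ℕ → ℕ → ℝ := fun i j => ε / 2 * ((NN i j : ℕ) * VV (ZZ f) (yy s i)) with hLv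
  set Sx : ℕ → Finset (ℕ × ℕ) := fun i => if i₀ ≤ i then
    (range (2 ^ tt K i)).biUnion (fun j => (cellsL (NN i j) (bb i) (Lv i j)).image (fun e => (NN i j, e))) else ∅ with hSx
  have hNN1 : ∀ i j, 2 ^ i ≤ NN i j := fun i j => by simp only [hNN]; omega
  have hScard : ∀ i, ((Sx i).card : ℝ) ≤ ((i : ℝ) + 1) ^ K * ((1 + (B + B) : ℕ) : ℝ) := by
    intro i
    by_cases hi : i₀ ≤ i
    swap
    · simp only [hSx]
      rw [if_neg hi, card_empty, Nat.cast_zero]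
      positivity
    have hi8 : 8 * s + 2 ≤ i := ((le_max_left _ _).trans (le_max_right _ _)).trans hi
    have h1 : (Sx i).card ≤ 2 ^ tt K i * (1 + (B + B)) := by
      simp only [hSx]
      rw [if_pos hi]
      refine (card_biUnion_le_card_mul _ _ (1 + (B + B)) ?_).trans (by rw [card_range])
      intro j _
      refine card_image_le.trans ?_
      have h2N : 1 ≤ NN i j := le_trans (Nat.one_le_two_pow) (hNN1 i j)
      refine cells_le h2N _ _ B ?_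
      intro J ξ hsep hlarge
      exact hB (yy s i) (NN i j) (yy_two hs (by omega)) ((yy_pow hs (by omega)).trans (hNN1 i j))
        (ZZ f) hadm (bb i) (hsupp i) (hnb i) J ξ hsep hlarge
    have h4 : ((2 ^ tt K i : ℕ) : ℝ) ≤ ((i : ℝ) + 1) ^ K := by exact_mod_cast two_tt_le K i
    calc ((Sx i).card : ℝ) ≤ ((2 ^ tt K i * (1 + (B + B)) : ℕ) : ℝ) := by exact_mod_cast h1
      _ = ((2 ^ tt K i : ℕ) : ℝ) * ((1 + (B + B) : ℕ) : ℝ) := by push_cast; ring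
      _ ≤ _ := mul_le_mul_of_nonneg_right h4 (Nat.cast_nonneg _)
  have hsum : Summable fun i => ((Sx i).card : ℝ) * (1 / ((2 ^ i : ℕ) : ℝ)) ^ D₀ := by
    set r : ℝ := (2 : ℝ) ^ (-D₀) with hr
    have hr0 : 0 < r := by positivity
    have hr1 : r < 1 := Real.rpow_lt_one_of_one_lt_of_neg (by norm_num) (by linarith)
    have h1 : Summable fun n : ℕ => ((n : ℝ)) ^ K * r ^ n :=
      summable_pow_mul_geometric_of_norm_lt_one K (by rw [Real.norm_of_nonneg hr0.le]; exact hr1)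
    have h2 := (summable_nat_add_iff 1).2 h1
    refine Summable.of_nonneg_of_le (fun i => by positivity) (fun i => ?_)
      (h2.mul_left ((2 : ℝ) ^ D₀ * ((1 + (B + B) : ℕ) : ℝ)))
    have e1 : (1 / ((2 ^ i : ℕ) : ℝ)) ^ D₀ = (2 : ℝ) ^ D₀ * r ^ (i + 1) := by
      rw [hr, ← Real.rpow_natCast ((2 : ℝ) ^ (-D₀)), ← Real.rpow_mul (by norm_num), ← Real.rpow_add (by norm_num)]
      push_cast
      rw [one_div, Real.inv_rpow (by positivity), ← Real.rpow_natCast, ← Real.rpow_mul (by norm_num),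
        ← Real.rpow_neg (by norm_num)]
      congr 1
      ring
    calc ((Sx i).card : ℝ) * (1 / ((2 ^ i : ℕ) : ℝ)) ^ D₀ ≤
          (((i : ℝ) + 1) ^ K * ((1 + (B + B) : ℕ) : ℝ)) *
            (1 / ((2 ^ i : ℕ) : ℝ)) ^ D₀ := mul_le_mul_of_nonneg_right (hScard i) (by positivity)
      _ = _ := by rw [e1]; push_cast; ring
  apply dim_periodic
  · intro α hα
    refine Filter.Frequently.mono hα ?_
    rintro i ⟨N, h1, h2, h6⟩
    refine ⟨N, h1, h2, h6.trans (le_of_eq ?_)⟩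
    conv_lhs => rw [← Int.fract_add_floor α]
    rw [TT_add_int]
  refine (dimH_mono ?_).trans (dim_cells Sx (fun i => 2 ^ i) (fun i => Nat.one_le_two_pow) ?_ hD0 hsum)
  swap
  · intro i z hz
    simp only [hSx] at hz
    split_ifs at hz with h
    · rw [mem_biUnion] at hz
      obtain ⟨j, _, hz⟩ := hz
      rw [mem_image] at hz
      obtain ⟨e, _, rfl⟩ := hz
      exact hNN1 i j
    · simp at hz
  rintro α ⟨hα, hα0, hα1⟩
  refine (hα.and_eventually (eventually_ge_atTop i₀)).mono ?_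
  rintro i ⟨⟨N, hN1, hN2, hbig⟩, hi⟩
  have hi8 : 8 * s + 2 ≤ i := ((le_max_left _ _).trans (le_max_right _ _)).trans hi
  have hin : 2 * n1 + 16 ≤ i := ((le_max_right _ _).trans (le_max_right _ _)).trans hi
  have hii₁ : i₁ ≤ i := ((le_max_left _ _).trans (le_max_left _ _)).trans hi
  have hii₂ : i₂ ≤ i := ((le_max_right _ _).trans (le_max_left _ _)).trans hi
  have q1 : (1 : ℝ) * ((i : ℝ) + 1) ^ (2 * K) ≤ 2 ^ i := hi₂ i hii₂
  have htt : 2 * tt K i ≤ i := by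
    have h1 : 2 ^ (2 * tt K i) ≤ 2 ^ i := by
      have h2 : (2 ^ tt K i) ^ 2 ≤ ((i + 1) ^ K) ^ 2 := Nat.pow_le_pow_left (two_tt_le K i) 2
      rw [← pow_mul, ← pow_mul, mul_comm (tt K i), mul_comm K] at h2
      refine h2.trans ?_
      have : ((i : ℝ) + 1) ^ (2 * K) ≤ 2 ^ i := by linarith
      exact_mod_cast this
    exact (Nat.pow_le_pow_iff_right (by norm_num)).1 h1
  set H : ℕ := 2 ^ (i - tt K i) with hH
  have hHt : 2 ^ tt K i * H = 2 ^ i := by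
    rw [hH, ← pow_add]; congr 1; omega
  have hyH : 2 * yy s i + n1 ≤ H := by
    refine (rp_yy_small s n1 i hs hin).trans ?_
    rw [hH]
    exact Nat.pow_le_pow_right (by norm_num) (by omega)
  have hHpos : 0 < H := by rw [hH]; positivity
  have hVi : c / ((i : ℝ) + 1) ^ (2 * k) ≤ VV (ZZ f) (yy s i) :=
    hV _ hadm i (yy s i) (by omega) (by
      unfold yy
      exact Nat.pow_le_pow_right (by norm_num) (Nat.div_le_self _ _))
  set V : ℝ := VV (ZZ f) (yy s i) with hVdef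
  have hV0 : 0 < V := VV_pos hadm _
  have hi1 : (0 : ℝ) < (i : ℝ) + 1 := by positivity
  have q2 : 2 * (H : ℝ) ≤ ε / 2 * (2 ^ i * V) := by
    have h1 : (((i : ℝ) + 1) ^ K) ≤ 2 ^ K * 2 ^ tt K i := by exact_mod_cast two_tt_ge K i
    have h2 : (2 : ℝ) ^ tt K i * H = 2 ^ i := by exact_mod_cast hHt
    have h3 : 2 ^ K * 4 / (ε * c) < (i : ℝ) + 1 := by
      have : (i₁ : ℝ) ≤ i := by exact_mod_cast hii₁
      linarith
    rw [div_lt_iff₀ (by positivity)] at h3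
    have h4 : c ≤ V * ((i : ℝ) + 1) ^ (2 * k) := by
      rwa [div_le_iff₀ (by positivity)] at hVi
    have h5 : ((i : ℝ) + 1) ^ K = ((i : ℝ) + 1) ^ (2 * k) * ((i : ℝ) + 1) := by
      rw [hK, pow_succ]
    have hHr : (0 : ℝ) < H := by exact_mod_cast hHpos
    set P : ℝ := ((i : ℝ) + 1) ^ (2 * k) with hP
    have hP0 : 0 < P := by positivity
    have h6 : (2 : ℝ) ^ K * 4 ≤ ε * V * (((i : ℝ) + 1) ^ K) := by
      calc (2 : ℝ) ^ K * 4 ≤ ((i : ℝ) + 1) * (ε * c) := h3.le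
        _ ≤ ((i : ℝ) + 1) * (ε * (V * P)) := by
            apply mul_le_mul_of_nonneg_left _ hi1.le
            exact mul_le_mul_of_nonneg_left h4 hε.le
        _ = ε * V * (((i : ℝ) + 1) ^ K) := by rw [h5]; ring
    have h7 : (2 : ℝ) ^ K * 4 ≤ ε * V * (2 ^ K * 2 ^ tt K i) :=
      h6.trans (mul_le_mul_of_nonneg_left h1 (by positivity))
    have h8 : (4 : ℝ) ≤ ε * V * 2 ^ tt K i := by
      have : (2 : ℝ) ^ K * 4 ≤ 2 ^ K * (ε * V * 2 ^ tt K i) := by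
        calc _ ≤ _ := h7
          _ = _ := by ring
      exact le_of_mul_le_mul_left this (by positivity)
    calc 2 * (H : ℝ) = 4 * H / 2 := by ring
      _ ≤ (ε * V * 2 ^ tt K i) * H / 2 := by
          apply div_le_div_of_nonneg_right _ (by norm_num)
          exact mul_le_mul_of_nonneg_right h8 hHr.le
      _ = ε / 2 * ((2 ^ tt K i * H) * V) := by ring
      _ = _ := by rw [h2]
  set j : ℕ := (N - 2 ^ i) / H with hj
  have hjt : j < 2 ^ tt K i := by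
    rw [hj, Nat.div_lt_iff_lt_mul hHpos, hHt]
    rw [pow_succ] at hN2
    omega
  set N' : ℕ := NN i j with hN'
  have hN'eq : N' = 2 ^ i + j * H := rfl
  have hmod := Nat.div_add_mod (N - 2 ^ i) H
  have hlt := Nat.mod_lt (N - 2 ^ i) (show H > 0 by omega)
  have hjH : H * ((N - 2 ^ i) / H) = j * H := by rw [hj]; ring
  have hN'N : N' ≤ N := by omega
  have hNN' : N - N' ≤ H := by omega
  have hlen := TT_len N N' (bb i) (hnb i) hN'N α
  have htr := TT_trunc (fun _ => S) ∅ (2 * yy s i + n1) N α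
  have hlarge : Lv i j ≤ ‖TT N' (bb i) α‖ := by
    have h1 : ‖TT N (bS (fun _ => S) ∅) α‖ ≤ ‖TT N (bS (fun _ => S) ∅) α - TT N (bb i) α‖ +
        ‖TT N (bb i) α - TT N' (bb i) α‖ + ‖TT N' (bb i) α‖ := by
      have e : TT N (bS (fun _ => S) ∅) α = (TT N (bS (fun _ => S) ∅) α - TT N (bb i) α) +
        (TT N (bb i) α - TT N' (bb i) α) + TT N' (bb i) α := by ring
      calc ‖TT N (bS (fun _ => S) ∅) α‖ = ‖(TT N (bS (fun _ => S) ∅) α - TT N (bb i) α) +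
        (TT N (bb i) α - TT N' (bb i) α) + TT N' (bb i) α‖ := by rw [← e]
        _ ≤ _ := norm_add₃_le
    have h2 : ((2 * yy s i + n1 : ℕ) : ℝ) ≤ H := by exact_mod_cast hyH
    have h3 : ((N - N' : ℕ) : ℝ) ≤ H := by exact_mod_cast hNN'
    have h4 : ε / 2 * ((2 : ℝ) ^ i * V) ≤ ε / 2 * (N * V) := by
      apply mul_le_mul_of_nonneg_left _ (by positivity)
      apply mul_le_mul_of_nonneg_right _ hV0.le
      exact_mod_cast hN1
    have h5 : ε / 2 * (N' * V) ≤ ε / 2 * (N * V) := by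
      apply mul_le_mul_of_nonneg_left _ (by positivity)
      apply mul_le_mul_of_nonneg_right _ hV0.le
      exact_mod_cast hN'N
    have h6 : Lv i j = ε / 2 * (N' * V) := rfl
    rw [h6]
    have h7 : ε * (N * V) ≤ ‖TT N (bS (fun _ => S) ∅) α‖ := hbig
    have h8 : ε * (N * V) = ε / 2 * (N * V) + ε / 2 * (N * V) := by ring
    have h9 : ‖TT N (bS (fun _ => S) ∅) α - TT N (bb i) α‖ ≤ H := htr.trans h2
    linarith
  obtain ⟨e, he1, he2, he3⟩ := cell_mem (le_trans Nat.one_le_two_pow (hNN1 i j)) hα0 hα1 hlarge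
  refine ⟨(N', e), ?_, he2, he3⟩
  simp only [hSx]
  rw [if_pos hi, mem_biUnion]
  exact ⟨j, mem_range.2 hjt, mem_image.2 ⟨e, he1, rfl⟩⟩

end Pool.Agent.H90.SK
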