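import Pool.Agent.H90.SK.Rpl

/-! # Prime values of systems of polynomials: independence of rotations -/

set_option autoImplicit false

namespace Pool.Agent.H90.SK

open Finset Filter Topology Pool.Agent.Helper112 Pool.Agent.H90.ST Polynomial
open scoped ENNReal
open Pool.Agent.W123.RU.Poly (Sys exists_c adm per)
open Pool.Agent.V11249.NP (ZZ ZZ_card V_two)

theorem VV_anti' {k : ℕ} {Om : ℕ → Finset ℕ} (h : Adm k Om) {y y' : ℕ} (hy : y ≤ y') : VV Om y' ≤ VV Om y := by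
  have hsub : PR y ⊆ PR y' := by
    intro p hp
    rw [mem_PR] at hp ⊢
    exact ⟨hp.1, hp.2.trans hy⟩
  have hpos := VV_pos h y
  unfold VV at hpos ⊢
  rw [← prod_sdiff hsub]
  apply mul_le_of_le_one_left hpos.le
  apply prod_le_one
  · intro p hp
    have hpp := (mem_PR.1 (mem_sdiff.1 hp).1).1
    have h1 := (h p hpp).2.2
    have hp0 : (0 : ℝ) < p := by exact_mod_cast hpp.pos
    rw [sub_nonneg, div_le_one hp0]
    exact_mod_cast h1.le
  · intro p hp
    have hp0 : (0 : ℝ) ≤ ((Om p).card : ℝ) / p := by positivity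
    linarith

theorem VV_pol {r : ℕ} (f : Fin r → ℤ[X]) (hf : Sys f) (s : ℕ) (hs : 1 ≤ s) : ∃ C : ℝ, 0 < C ∧ ∀ᶠ x : ℕ in atTop,
    (x : ℝ) * VV (ZZ f) (yy s (Nat.log 2 x)) ≤ C * XX r x := by
  obtain ⟨k, hk1, hadm⟩ := adm_ZZ f hf
  have hs0 : (0 : ℝ) < s := by exact_mod_cast hs
  obtain ⟨v, C, hv, hC, X₀, hV⟩ := V_two f hf (1 / (16 * s)) (by positivity)
  refine ⟨C, hC, ?_⟩
  filter_upwards [eventually_ge_atTop X₀, eventually_ge_atTop (2 ^ (16 * s)), eventually_ge_atTop 2] with x h1 h2 h3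
  have hx0 : (0 : ℝ) < x := by exact_mod_cast (by omega : 0 < x)
  have hVx := (hV x h1).2
  rw [Fintype.card_fin, ← VV_eq'] at hVx
  set i := Nat.log 2 x with hi
  have hi1 : 16 * s ≤ i := Nat.le_log_of_pow_le (by norm_num) h2
  have hx2 : x < 2 ^ (i + 1) := Nat.lt_pow_succ_log_self (by norm_num) x
  have hle : ⌊(x : ℝ) ^ (1 / (16 * (s : ℝ)))⌋₊ ≤ yy s i := by
    apply Nat.floor_le_of_le
    unfold yy
    set d := i / (8 * s) with hd
    have hd1 : i < 8 * s * (d + 1) := by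
      rw [hd]
      have := Nat.lt_mul_div_succ i (show 0 < 8 * s by omega)
      exact this
    have hd2 : 1 ≤ d := (Nat.one_le_div_iff (by omega)).2 (by omega)
    have e1 : (x : ℝ) ≤ (2 : ℝ) ^ (i + 1) := by exact_mod_cast hx2.le
    have e2 : ((i : ℝ) + 1) * (1 / (16 * (s : ℝ))) ≤ d := by
      rw [mul_one_div, div_le_iff₀ (by positivity)]
      have a1 : (i : ℝ) + 1 ≤ 8 * s * (d + 1) := by exact_mod_cast hd1
      have a2 : (1 : ℝ) ≤ d := by exact_mod_cast hd2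
      nlinarith
    push_cast
    calc (x : ℝ) ^ (1 / (16 * (s : ℝ))) ≤ ((2 : ℝ) ^ (i + 1)) ^ (1 / (16 * (s : ℝ))) :=
          Real.rpow_le_rpow hx0.le e1 (by positivity)
      _ = (2 : ℝ) ^ (((i : ℝ) + 1) * (1 / (16 * (s : ℝ)))) := by
          rw [← Real.rpow_natCast, ← Real.rpow_mul (by norm_num)]
          push_cast
          rfl
      _ ≤ (2 : ℝ) ^ (d : ℝ) := Real.rpow_le_rpow_of_exponent_le (by norm_num) e2
      _ = _ := by rw [Real.rpow_natCast]
  have h4 := VV_anti' hadm hle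
  calc (x : ℝ) * VV (ZZ f) (yy s i) ≤ x * (C / Real.log x ^ r) := mul_le_mul_of_nonneg_left (h4.trans hVx) hx0.le
    _ = C * XX r x := by unfold XX; ring

open Classical in
/-- the elements up to `x` -/
noncomputable def MM (S : Set ℕ) (x : ℕ) : Finset ℕ := (Icc 1 x).filter (fun m => m ∈ S)

theorem TT_MM (S : Set ℕ) (x : ℕ) (α : ℝ) :
    TT x (bS (fun _ => S) ∅) α = ∑ m ∈ MM S x, ee (m * α) := by
  classical
  unfold TT MM bS
  rw [sum_filter]
  apply sum_congr rfl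
  intro m _
  split_ifs
  · rw [one_mul]
  · rw [zero_mul]

theorem XX_pos (r : ℕ) {x : ℕ} (hx : 2 ≤ x) : 0 < XX r x := by
  have h1 : (1 : ℝ) < x := by exact_mod_cast hx
  have := Real.log_pos h1
  unfold XX
  positivity

/-- **Independence of rotations.** -/
theorem rotPol {r : ℕ} (f : Fin r → ℤ[X]) (hf : Sys f) : ∃ W : ℝ, 0 < W ∧ ∀ S : Set ℕ, PV f S →
    (∀ᶠ x : ℕ in atTop, ((MM S x).card : ℝ) ≤ W * XX r x) ∧
    ∃ T : Set ℝ, dimH T = 0 ∧ ∀ α : ℝ, α ∉ T → ∀ h : ℤ, h ≠ 0 →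
      Tendsto (fun x : ℕ => (∑ m ∈ MM S x, ee (m * (h * α))) / (XX r x : ℂ)) atTop (𝓝 0) := by
  classical
  obtain ⟨s, hs, ⟨C₁, hC₁, hcnt⟩, hdim⟩ := dim_LevP f hf
  obtain ⟨n1, hn1⟩ := supp_poly f hf
  obtain ⟨C, hC0, hC⟩ := VV_pol f hf s hs
  refine ⟨1 + C₁ * C, by positivity, fun S hS => ⟨?_, ?_⟩⟩
  · filter_upwards [hC, ev_pow r, eventually_ge_atTop (2 ^ (max (8 * s + 2) (2 * n1 + 16))), eventually_ge_atTop 2] with
      x h1 h2 h3 h4
    have hx0 : (0 : ℝ) < x := by exact_mod_cast (by omega : 0 < x)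
    have hlx : 0 < Real.log x := Real.log_pos (by exact_mod_cast (by omega : 1 < x))
    set i := Nat.log 2 x with hi
    have hi1 : max (8 * s + 2) (2 * n1 + 16) ≤ i := Nat.le_log_of_pow_le (by norm_num) h3
    have hi8 : 8 * s + 2 ≤ i := (le_max_left _ _).trans hi1
    have hin : 2 * n1 + 16 ≤ i := (le_max_right _ _).trans hi1
    have hxi : 2 ^ i ≤ x := Nat.pow_log_le_self 2 (by omega)
    set z : ℕ := 2 * yy s i + n1 with hz
    have b1 := hcnt (yy s i) x (yy_two hs (by omega)) ((yy_pow hs (by omega)).trans hxi)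
      (bSy (fun _ => S) ∅ z) (fun n h => hn1 S hS (yy s i) n h) (norm_bSy _ _ _)
    have b2 : ((MM S x).card : ℝ) ≤ z + ∑ n ∈ Icc 1 x, ‖bSy (fun _ => S) ∅ z n‖ ^ 2 := by
      have h5 : MM S x ⊆ Icc 1 z ∪ (Icc 1 x).filter (fun n => n ∈ S ∧ z < n) := by
        intro n hn
        unfold MM at hn
        rw [mem_filter, mem_Icc] at hn
        rw [mem_union, mem_filter, mem_Icc, mem_Icc]
        rcases le_or_gt n z with h | h
        · exact Or.inl ⟨hn.1.1, h⟩
        · exact Or.inr ⟨hn.1, hn.2, h⟩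
      have h6 : ((MM S x).card : ℝ) ≤ ((Icc 1 z).card : ℝ) +
          (((Icc 1 x).filter (fun n => n ∈ S ∧ z < n)).card : ℝ) := by
        exact_mod_cast (card_le_card h5).trans (card_union_le _ _)
      refine h6.trans (add_le_add (by simp) ?_)
      rw [card_filter]
      push_cast
      apply sum_le_sum
      intro n _
      split_ifs with h7
      · unfold bSy bS
        rw [if_pos h7.2, if_pos h7.1]
        simp
      · positivity
    have b3 : (z : ℝ) ≤ XX r x := by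
      have c1 : z ≤ 2 ^ (i / 2) := rp_yy_small s n1 i hs hin
      have c2 : z ^ 2 ≤ x := by
        calc z ^ 2 ≤ (2 ^ (i / 2)) ^ 2 := Nat.pow_le_pow_left c1 2
          _ = 2 ^ (i / 2 * 2) := by rw [← pow_mul]
          _ ≤ 2 ^ i := Nat.pow_le_pow_right (by norm_num) (Nat.div_mul_le_self _ _)
          _ ≤ x := hxi
      have c3 : (z : ℝ) ≤ √(x : ℝ) := Real.le_sqrt_of_sq_le (by exact_mod_cast c2)
      have c4 : √(x : ℝ) ≤ XX r x := by
        unfold XX
        rw [le_div_iff₀ (by positivity)]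
        calc √(x : ℝ) * Real.log x ^ r ≤ √(x : ℝ) * √(x : ℝ) := mul_le_mul_of_nonneg_left h2 (Real.sqrt_nonneg _)
          _ = x := Real.mul_self_sqrt hx0.le
      exact c3.trans c4
    calc ((MM S x).card : ℝ) ≤ z + C₁ * (x * VV (ZZ f) (yy s i)) := b2.trans (add_le_add le_rfl b1)
      _ ≤ XX r x + C₁ * (C * XX r x) := add_le_add b3 (mul_le_mul_of_nonneg_left h1 hC₁.le)
      _ = _ := by ring
  · refine ⟨⋃ z : {h : ℤ // h ≠ 0} × ℕ, {α : ℝ | (z.1.1 : ℝ) * α ∈
      {β : ℝ | ∃ᶠ i in atTop, LevP f S s (1 / ((z.2 : ℝ) + 1)) i β}}, ?_, ?_⟩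
    · apply le_antisymm _ bot_le
      rw [dimH_iUnion]
      apply iSup_le
      rintro ⟨⟨h, hh⟩, m⟩
      apply dim_dilate _ hh
      apply ENNReal.le_of_forall_pos_le_add
      intro δ hδ _
      rw [bot_eq_zero, zero_add]
      have h1 := hdim S hS (1 / ((m : ℝ) + 1)) δ (by positivity) hδ
      rwa [ENNReal.ofReal_coe_nnreal] at h1
    · intro α hα h hh
      rw [Metric.tendsto_nhds]
      intro ε hε
      obtain ⟨m, hm⟩ := exists_nat_one_div_lt (show 0 < ε / (2 * C) by positivity)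
      have h1 : ¬ ∃ᶠ i in atTop, LevP f S s (1 / ((m : ℝ) + 1)) i (h * α) := by
        intro hcon
        apply hα
        rw [Set.mem_iUnion]
        exact ⟨(⟨h, hh⟩, m), hcon⟩
      rw [not_frequently] at h1
      obtain ⟨i₀, hi₀⟩ := eventually_atTop.1 h1
      filter_upwards [hC, eventually_ge_atTop (2 ^ i₀), eventually_ge_atTop 2] with x hV h2 h3
      have hX := XX_pos r h3
      set i := Nat.log 2 x with hi
      have hi1 : i₀ ≤ i := Nat.le_log_of_pow_le (by norm_num) h2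
      have hxi : 2 ^ i ≤ x := Nat.pow_log_le_self 2 (by omega)
      have hxi2 : x < 2 ^ (i + 1) := Nat.lt_pow_succ_log_self (by norm_num) x
      have h5 := hi₀ i hi1
      have h6 : ‖TT x (bS (fun _ => S) ∅) (h * α)‖ < 1 / ((m : ℝ) + 1) * ((x : ℝ) * VV (ZZ f) (yy s i)) := by
        by_contra hcon
        rw [not_lt] at hcon
        exact h5 ⟨x, hxi, hxi2, hcon⟩
      show dist ((∑ m ∈ MM S x, ee (m * (h * α))) / (XX r x : ℂ)) 0 < ε
      rw [dist_zero_right, norm_div, Complex.norm_real, Real.norm_of_nonneg hX.le, div_lt_iff₀ hX, ← TT_MM]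
      calc ‖TT x (bS (fun _ => S) ∅) (h * α)‖ ≤ 1 / ((m : ℝ) + 1) * ((x : ℝ) * VV (ZZ f) (yy s i)) := h6.le
        _ ≤ 1 / ((m : ℝ) + 1) * (C * XX r x) := mul_le_mul_of_nonneg_left hV (by positivity)
        _ ≤ ε / (2 * C) * (C * XX r x) := mul_le_mul_of_nonneg_right hm.le (by positivity)
        _ = ε / 2 * XX r x := by field_simp
        _ < ε * XX r x := by nlinarith

end Pool.Agent.H90.SK
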